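import Pool.Agent.Helper420.QI.Sob2
set_option autoImplicit false
set_option linter.unusedSectionVars false
set_option linter.unusedVariables false
open MeasureTheory Metric Set Filter Topology
open scoped ENNReal NNReal InnerProductSpace

namespace Pool.Agent.H456R3.Q.A1

open Pool.Agent.Helper420.QI.QEig Pool.Agent.Helper420.QI.Sob

variable {N : ℕ}

/-- shorthand for the Euclidean space -/
abbrev EE (N : ℕ) : Type := EuclideanSpace ℝ (Fin N)

/-- the `L^q` norm -/
noncomputable def nq (q : ℝ) (f : EE N → ℝ) : ℝ := (eLpNorm f (ENNReal.ofReal q) volume).toReal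

/-- the energy -/
noncomputable def en (f : EE N → ℝ) : ℝ := ∫ x, ‖fderiv ℝ f x‖ ^ 2

/-- the square integral -/
noncomputable def sq (f : EE N → ℝ) : ℝ := ∫ x, f x ^ 2

theorem en_nonneg (f : EE N → ℝ) : 0 ≤ en f := integral_nonneg fun x => by positivity
theorem sq_nonneg' (f : EE N → ℝ) : 0 ≤ sq f := integral_nonneg fun x => by positivity
theorem nq_nonneg (q : ℝ) (f : EE N → ℝ) : 0 ≤ nq q f := ENNReal.toReal_nonneg

/-- cut-off functions with controlled gradient -/
theorem exists_cut (N : ℕ) : ∃ C : ℝ, 0 ≤ C ∧ ∀ R : ℝ, 0 < R → ∃ η : EE N → ℝ,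
    ContDiff ℝ ((⊤ : ℕ∞) : WithTop ℕ∞) η ∧ HasCompactSupport η ∧ (∀ x, 0 ≤ η x) ∧ (∀ x, η x ≤ 1) ∧
    (∀ x, ‖x‖ ≤ R → η x = 1) ∧ (∀ x, 2 * R ≤ ‖x‖ → η x = 0) ∧ ∀ x, ‖fderiv ℝ η x‖ ≤ C / R := by
  let b : ContDiffBump (0 : EE N) := ⟨1, 2, by norm_num, by norm_num⟩
  have hbc : ContDiff ℝ ((⊤ : ℕ∞) : WithTop ℕ∞) b := b.contDiff
  have hbs : HasCompactSupport b := b.hasCompactSupport
  obtain ⟨C, hC⟩ := (hbs.fderiv ℝ).exists_bound_of_continuous (hbc.continuous_fderiv (by simp))
  refine ⟨|C|, abs_nonneg _, fun R hR => ⟨fun x => b (R⁻¹ • x), ?_, ?_, ?_, ?_, ?_, ?_, ?_⟩⟩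
  · exact hbc.comp (contDiff_const_smul _)
  · exact hbs.comp_homeomorph (Homeomorph.smulOfNeZero R⁻¹ (inv_ne_zero hR.ne'))
  · intro x; exact b.nonneg
  · intro x; exact b.le_one
  · intro x hx
    apply b.one_of_mem_closedBall
    rw [mem_closedBall_zero_iff, norm_smul, norm_inv, Real.norm_of_nonneg hR.le]
    show R⁻¹ * ‖x‖ ≤ 1
    rw [inv_mul_le_iff₀ hR]; linarith
  · intro x hx
    apply b.zero_of_le_dist
    rw [dist_zero_right, norm_smul, norm_inv, Real.norm_of_nonneg hR.le]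
    show (2:ℝ) ≤ R⁻¹ * ‖x‖
    rw [le_inv_mul_iff₀ hR]; linarith
  · intro x
    have h1 : HasFDerivAt (fun x : EE N => b (R⁻¹ • x))
        ((fderiv ℝ b (R⁻¹ • x)).comp (R⁻¹ • ContinuousLinearMap.id ℝ (EE N))) x := by
      have h2 : HasFDerivAt b (fderiv ℝ b (R⁻¹ • x)) (R⁻¹ • x) :=
        ((hbc.differentiable (by simp)) _).hasFDerivAt
      exact h2.comp x ((hasFDerivAt_id x).const_smul R⁻¹)
    rw [h1.fderiv, ContinuousLinearMap.comp_smul, ContinuousLinearMap.comp_id, norm_smul,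
      norm_inv, Real.norm_of_nonneg hR.le, div_eq_inv_mul]
    exact mul_le_mul_of_nonneg_left ((hC _).trans (le_abs_self C)) (inv_nonneg.2 hR.le)

theorem toReal_two_sq {f : EE N → ℝ} (hf : MemLp f 2 volume) :
    (eLpNorm f 2 volume).toReal ^ 2 = ∫ x, f x ^ 2 := by
  have h := hf.eLpNorm_eq_integral_rpow_norm (by norm_num) (by norm_num)
  rw [h, ENNReal.toReal_ofReal (by positivity)]
  simp only [ENNReal.toReal_ofNat, Real.rpow_two, Real.norm_eq_abs, sq_abs]
  rw [← Real.rpow_natCast, ← Real.rpow_mul (integral_nonneg fun x => by positivity)]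
  norm_num

/-- Hoelder on a set of finite measure -/
theorem hold_sq {q : ℝ} (hq : 2 < q) {f : EE N → ℝ} (hf : MemLp f 2 volume)
    (hfq : MemLp f (ENNReal.ofReal q) volume) {S : Set (EE N)} (hS : MeasurableSet S)
    (hSf : volume S ≠ ∞) (h0 : ∀ x, x ∉ S → f x = 0) :
    sq f ≤ (volume.real S) ^ (1 - 2 / q) * nq q f ^ 2 := by
  have hq0 : 0 < q := by linarith
  have h1 := eLpNorm_le_eLpNorm_mul_rpow_measure_univ (μ := volume.restrict S) (f := f) (p := 2)
    (q := ENNReal.ofReal q) (by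
      have : (2 : ℝ≥0∞) = ENNReal.ofReal 2 := by norm_num
      rw [this]; exact ENNReal.ofReal_le_ofReal hq.le) hf.1.restrict
  have e : ∀ p : ℝ≥0∞, eLpNorm f p (volume.restrict S) = eLpNorm f p volume := by
    intro p
    rw [← eLpNorm_indicator_eq_eLpNorm_restrict hS]
    congr 1
    ext x
    by_cases hx : x ∈ S
    · rw [Set.indicator_of_mem hx]
    · rw [Set.indicator_of_notMem hx, h0 x hx]
  rw [e, e, Measure.restrict_apply_univ, ENNReal.toReal_ofReal hq0.le] at h1
  have hexp : 0 ≤ 1 / (2 : ℝ≥0∞).toReal - 1 / q := by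
    simp only [ENNReal.toReal_ofNat]
    rw [sub_nonneg]
    exact one_div_le_one_div_of_le (by norm_num) hq.le
  have h2 := ENNReal.toReal_mono (ENNReal.mul_ne_top hfq.2.ne
    (ENNReal.rpow_ne_top_of_nonneg hexp hSf)) h1
  rw [ENNReal.toReal_mul, ← ENNReal.toReal_rpow] at h2
  unfold sq
  rw [← toReal_two_sq hf]
  have h3 : (eLpNorm f 2 volume).toReal ^ 2 ≤
      ((eLpNorm f (ENNReal.ofReal q) volume).toReal *
        (volume S).toReal ^ (1 / (2 : ℝ≥0∞).toReal - 1 / q)) ^ 2 :=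
    pow_le_pow_left₀ ENNReal.toReal_nonneg h2 2
  refine h3.trans (le_of_eq ?_)
  rw [mul_pow, mul_comm]
  unfold nq Measure.real
  congr 1
  rw [← Real.rpow_natCast, ← Real.rpow_mul ENNReal.toReal_nonneg]
  congr 1
  simp only [ENNReal.toReal_ofNat]
  push_cast
  field_simp

theorem isTest_mul {Ω : Set (EE N)} {φ η : EE N → ℝ} (hφ : IsTest Ω φ)
    (hη : ContDiff ℝ ((⊤ : ℕ∞) : WithTop ℕ∞) η) : IsTest Ω (fun x => φ x * η x) := by
  refine ⟨hφ.1.mul hη, hφ.2.1.mul_right, ?_⟩
  exact (closure_mono (Function.support_mul_subset_left _ _)).trans hφ.2.2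

theorem fderiv_mul' {φ η : EE N → ℝ} (hφ : ContDiff ℝ ((⊤ : ℕ∞) : WithTop ℕ∞) φ)
    (hη : ContDiff ℝ ((⊤ : ℕ∞) : WithTop ℕ∞) η) (x : EE N) :
    fderiv ℝ (fun x => φ x * η x) x = φ x • fderiv ℝ η x + η x • fderiv ℝ φ x := by
  have h1 : HasFDerivAt φ (fderiv ℝ φ x) x := ((hφ.differentiable (by simp)) x).hasFDerivAt
  have h2 : HasFDerivAt η (fderiv ℝ η x) x := ((hη.differentiable (by simp)) x).hasFDerivAt
  exact (h1.mul h2).fderiv

theorem norm_fderiv_mul {φ η : EE N → ℝ} (hφ : ContDiff ℝ ((⊤ : ℕ∞) : WithTop ℕ∞) φ)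
    (hη : ContDiff ℝ ((⊤ : ℕ∞) : WithTop ℕ∞) η) (x : EE N) :
    ‖fderiv ℝ (fun x => φ x * η x) x‖ ^ 2 ≤
      2 * (‖fderiv ℝ φ x‖ ^ 2 * η x ^ 2) + 2 * (φ x ^ 2 * ‖fderiv ℝ η x‖ ^ 2) := by
  rw [fderiv_mul' hφ hη]
  have h1 : ‖φ x • fderiv ℝ η x + η x • fderiv ℝ φ x‖ ≤
      |φ x| * ‖fderiv ℝ η x‖ + |η x| * ‖fderiv ℝ φ x‖ := by
    refine (norm_add_le _ _).trans ?_
    rw [norm_smul, norm_smul, Real.norm_eq_abs, Real.norm_eq_abs]
  have h2 : ‖φ x • fderiv ℝ η x + η x • fderiv ℝ φ x‖ ^ 2 ≤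
      (|φ x| * ‖fderiv ℝ η x‖ + |η x| * ‖fderiv ℝ φ x‖) ^ 2 := pow_le_pow_left₀ (norm_nonneg _) h1 2
  refine h2.trans ?_
  have e1 : (|φ x| * ‖fderiv ℝ η x‖) ^ 2 = φ x ^ 2 * ‖fderiv ℝ η x‖ ^ 2 := by
    rw [mul_pow, sq_abs]
  have e2 : (|η x| * ‖fderiv ℝ φ x‖) ^ 2 = ‖fderiv ℝ φ x‖ ^ 2 * η x ^ 2 := by
    rw [mul_pow, sq_abs]; ring
  nlinarith [sq_nonneg (|φ x| * ‖fderiv ℝ η x‖ - |η x| * ‖fderiv ℝ φ x‖)]

theorem cont_fderiv {φ : EE N → ℝ} (hφ : ContDiff ℝ ((⊤ : ℕ∞) : WithTop ℕ∞) φ) :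
    Continuous (fderiv ℝ φ) := hφ.continuous_fderiv (by simp)

theorem int_sq {φ : EE N → ℝ} (hφ : Continuous φ) (hc : HasCompactSupport φ) :
    Integrable (fun x => φ x ^ 2) volume := by
  apply Continuous.integrable_of_hasCompactSupport (hφ.pow 2)
  refine hc.mono ?_
  intro x hx h0
  apply hx
  show φ x ^ 2 = 0
  rw [show φ x = 0 from h0]
  norm_num

theorem int_en {φ : EE N → ℝ} (hφ : ContDiff ℝ ((⊤ : ℕ∞) : WithTop ℕ∞) φ)
    (hc : HasCompactSupport φ) : Integrable (fun x => ‖fderiv ℝ φ x‖ ^ 2) volume := by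
  apply Continuous.integrable_of_hasCompactSupport ((cont_fderiv hφ).norm.pow 2)
  refine (hc.fderiv ℝ).mono ?_
  intro x hx h0
  apply hx
  show ‖fderiv ℝ φ x‖ ^ 2 = 0
  rw [show fderiv ℝ φ x = 0 from h0]
  norm_num

/-- averaging over translated cut-offs -/
theorem avg {q : ℝ} (hq : 2 < q) {C : ℝ} (hC : 0 ≤ C) {R : ℝ} (hR : 0 < R) {η : EE N → ℝ}
    (h1 : ContDiff ℝ ((⊤ : ℕ∞) : WithTop ℕ∞) η) (h2 : HasCompactSupport η) (h3 : ∀ x, 0 ≤ η x)
    (h4 : ∀ x, η x ≤ 1) (h5 : ∀ x, ‖x‖ ≤ R → η x = 1) (h6 : ∀ x, 2 * R ≤ ‖x‖ → η x = 0)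
    (h7 : ∀ x, ‖fderiv ℝ η x‖ ≤ C / R) {Ω : Set (EE N)} {κ : ℝ} (hκ : 0 ≤ κ)
    (hΩ : ∀ ψ, IsTest Ω ψ → nq q ψ ^ 2 ≤ κ * en ψ) {φ : EE N → ℝ} (hφ : IsTest Ω φ) :
    sq φ ≤ κ * (volume.real (closedBall (0 : EE N) (2 * R))) ^ (1 - 2 / q) *
      (2 * en φ + 2 * (C ^ 2 * 2 ^ N / R ^ 2) * sq φ) := by
  set B : Set (EE N) := closedBall (0 : EE N) (2 * R) with hB
  set V : ℝ := (volume.real B) ^ (1 - 2 / q) with hV
  have hV0 : 0 ≤ V := by positivity
  have hηf := cont_fderiv h1
  -- the local inequality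
  have hloc : ∀ y : EE N, ∫ x, φ x ^ 2 * η (y - x) ^ 2 ≤
      V * κ * (2 * ∫ x, ‖fderiv ℝ φ x‖ ^ 2 * η (y - x) ^ 2) +
      V * κ * (2 * ∫ x, φ x ^ 2 * ‖fderiv ℝ η (y - x)‖ ^ 2) := by
    intro y
    set ζ : EE N → ℝ := fun x => η (y - x) with hζ
    have hζ1 : ContDiff ℝ ((⊤ : ℕ∞) : WithTop ℕ∞) ζ := h1.comp (contDiff_const.sub contDiff_id)
    have hψ : IsTest Ω (fun x => φ x * ζ x) := isTest_mul hφ hζ1
    have e1 := hΩ _ hψ
    have hb : volume (closedBall y (2 * R)) ≠ ∞ := measure_closedBall_lt_top.ne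
    have e2 := hold_sq hq (memLp_test hψ 2) (memLp_test hψ _) (measurableSet_closedBall (x := y)
      (ε := 2 * R)) hb (by
        intro x hx
        have : η (y - x) = 0 := by
          apply h6
          rw [mem_closedBall, dist_eq_norm, not_le] at hx
          rw [norm_sub_rev]; exact hx.le
        show φ x * η (y - x) = 0
        rw [this, mul_zero])
    have e3 : volume.real (closedBall y (2 * R)) = volume.real B := by
      rw [hB, Measure.addHaar_real_closedBall _ _ (by linarith),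
        Measure.addHaar_real_closedBall _ _ (by linarith)]
    rw [e3] at e2
    have e4 : en (fun x => φ x * ζ x) ≤ (2 * ∫ x, ‖fderiv ℝ φ x‖ ^ 2 * η (y - x) ^ 2) +
        (2 * ∫ x, φ x ^ 2 * ‖fderiv ℝ η (y - x)‖ ^ 2) := by
      unfold en
      rw [← integral_const_mul, ← integral_const_mul, ← integral_add]
      · refine integral_mono (int_en hψ.1 hψ.2.1) ?_ ?_
        · refine Integrable.add ?_ ?_
          · refine Integrable.const_mul ?_ 2
            apply Continuous.integrable_of_hasCompactSupport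
            · exact ((cont_fderiv hφ.1).norm.pow 2).mul (hζ1.continuous.pow 2)
            · refine (hφ.2.1.fderiv ℝ).mono ?_
              intro x hx h0
              apply hx
              show ‖fderiv ℝ φ x‖ ^ 2 * η (y - x) ^ 2 = 0
              rw [show fderiv ℝ φ x = 0 from h0, norm_zero]
              ring
          · refine Integrable.const_mul ?_ 2
            apply Continuous.integrable_of_hasCompactSupport
            · exact (hφ.1.continuous.pow 2).mul ((hηf.comp (continuous_const.sub continuous_id)).norm.pow 2)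
            · refine hφ.2.1.mono ?_
              intro x hx h0
              apply hx
              show φ x ^ 2 * ‖fderiv ℝ η (y - x)‖ ^ 2 = 0
              rw [show φ x = 0 from h0]
              ring
        · intro x
          have e5 := norm_fderiv_mul hφ.1 hζ1 x
          have e6 : ‖fderiv ℝ ζ x‖ = ‖fderiv ℝ η (y - x)‖ := by
            have hh : HasFDerivAt η (fderiv ℝ η (y - x)) (y - x) :=
              ((h1.differentiable (by simp)) _).hasFDerivAt
            have hs : HasFDerivAt (fun x : EE N => y - x) (-ContinuousLinearMap.id ℝ (EE N)) x := by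
              exact (hasFDerivAt_id (𝕜 := ℝ) x).const_sub y
            have := (hh.comp x hs).fderiv
            have e7 : fderiv ℝ ζ x = -(fderiv ℝ η (y - x)) := by
              refine Eq.trans this ?_
              rw [ContinuousLinearMap.comp_neg, ContinuousLinearMap.comp_id]
            rw [e7, norm_neg]
          rw [e6] at e5
          exact e5
      · refine Integrable.const_mul ?_ 2
        apply Continuous.integrable_of_hasCompactSupport
        · exact ((cont_fderiv hφ.1).norm.pow 2).mul (hζ1.continuous.pow 2)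
        · refine (hφ.2.1.fderiv ℝ).mono ?_
          intro x hx h0
          apply hx
          show ‖fderiv ℝ φ x‖ ^ 2 * η (y - x) ^ 2 = 0
          rw [show fderiv ℝ φ x = 0 from h0, norm_zero]
          ring
      · refine Integrable.const_mul ?_ 2
        apply Continuous.integrable_of_hasCompactSupport
        · exact (hφ.1.continuous.pow 2).mul ((hηf.comp (continuous_const.sub continuous_id)).norm.pow 2)
        · refine hφ.2.1.mono ?_
          intro x hx h0
          apply hx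
          show φ x ^ 2 * ‖fderiv ℝ η (y - x)‖ ^ 2 = 0
          rw [show φ x = 0 from h0]
          ring
    have e8 : ∫ x, φ x ^ 2 * η (y - x) ^ 2 = sq (fun x => φ x * ζ x) := by
      unfold sq
      apply integral_congr_ae
      filter_upwards with x
      simp only [hζ]
      ring
    rw [e8]
    calc sq (fun x => φ x * ζ x) ≤ V * nq q (fun x => φ x * ζ x) ^ 2 := e2
      _ ≤ V * (κ * en (fun x => φ x * ζ x)) := mul_le_mul_of_nonneg_left e1 hV0
      _ = V * κ * en (fun x => φ x * ζ x) := by ring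
      _ ≤ V * κ * ((2 * ∫ x, ‖fderiv ℝ φ x‖ ^ 2 * η (y - x) ^ 2) +
        (2 * ∫ x, φ x ^ 2 * ‖fderiv ℝ η (y - x)‖ ^ 2)) :=
          mul_le_mul_of_nonneg_left e4 (by positivity)
      _ = _ := by ring
  -- integrate
  have iA := int_sq hφ.1.continuous hφ.2.1
  have iG := int_en hφ.1 hφ.2.1
  have iW := int_sq h1.continuous h2
  have iV := int_en h1 h2
  have conv : ∀ (f g : EE N → ℝ), Integrable f volume → Integrable g volume →
      Integrable (fun y => ∫ x, f x * g (y - x)) volume ∧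
      ∫ y, ∫ x, f x * g (y - x) = (∫ x, f x) * ∫ x, g x := by
    intro f g hf hg
    have a1 := Integrable.integrable_convolution (ContinuousLinearMap.mul ℝ ℝ) hf hg
    have a2 := integral_convolution (μ := (volume : Measure (EE N))) (ν := volume)
      (ContinuousLinearMap.mul ℝ ℝ) hf hg
    exact ⟨a1, a2⟩
  obtain ⟨c1, c1'⟩ := conv _ _ iA iW
  obtain ⟨c2, c2'⟩ := conv _ _ iG iW
  obtain ⟨c3, c3'⟩ := conv _ _ iA iV
  have hint : (∫ x, φ x ^ 2) * (∫ x, η x ^ 2) ≤
      V * κ * (2 * ((∫ x, ‖fderiv ℝ φ x‖ ^ 2) * ∫ x, η x ^ 2)) +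
      V * κ * (2 * ((∫ x, φ x ^ 2) * ∫ x, ‖fderiv ℝ η x‖ ^ 2)) := by
    rw [← c1', ← c2', ← c3', ← integral_const_mul, ← integral_const_mul, ← integral_const_mul,
      ← integral_const_mul, ← integral_add ((c2.const_mul 2).const_mul _)
        ((c3.const_mul 2).const_mul _)]
    exact integral_mono c1 (((c2.const_mul 2).const_mul _).add ((c3.const_mul 2).const_mul _)) hloc
  -- compare the integrals of the cut-off
  have hbR : volume (closedBall (0 : EE N) R) ≠ ∞ := measure_closedBall_lt_top.ne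
  have hbB : volume B ≠ ∞ := measure_closedBall_lt_top.ne
  have hW : volume.real (closedBall (0 : EE N) R) ≤ ∫ x, η x ^ 2 := by
    have : ∫ x, (closedBall (0 : EE N) R).indicator (fun _ => (1:ℝ)) x =
        volume.real (closedBall (0 : EE N) R) := by
      rw [integral_indicator measurableSet_closedBall]
      simp
    rw [← this]
    refine integral_mono ?_ iW ?_
    · rw [integrable_indicator_iff measurableSet_closedBall]
      exact integrableOn_const hbR
    · intro x
      by_cases hx : x ∈ closedBall (0 : EE N) R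
      · rw [Set.indicator_of_mem hx]
        rw [mem_closedBall_zero_iff] at hx
        simp only [h5 x hx]
        norm_num
      · rw [Set.indicator_of_notMem hx]; positivity
  have hVb : ∫ x, ‖fderiv ℝ η x‖ ^ 2 ≤ (C / R) ^ 2 * volume.real B := by
    have : ∫ x, B.indicator (fun _ => ((C / R) ^ 2:ℝ)) x = (C / R) ^ 2 * volume.real B := by
      rw [integral_indicator measurableSet_closedBall, setIntegral_const, smul_eq_mul, mul_comm]
    rw [← this]
    refine integral_mono iV ?_ ?_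
    · rw [integrable_indicator_iff measurableSet_closedBall]
      exact integrableOn_const hbB
    · intro x
      by_cases hx : x ∈ B
      · rw [Set.indicator_of_mem hx]
        exact pow_le_pow_left₀ (norm_nonneg _) (h7 x) 2
      · rw [Set.indicator_of_notMem hx]
        rw [hB, mem_closedBall_zero_iff, not_le] at hx
        have e9 : η =ᶠ[𝓝 x] fun _ => 0 := by
          have : {x : EE N | 2 * R < ‖x‖} ∈ 𝓝 x :=
            (isOpen_lt continuous_const continuous_norm).mem_nhds hx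
          filter_upwards [this] with z hz
          exact h6 z (le_of_lt hz)
        show ‖fderiv ℝ η x‖ ^ 2 ≤ 0
        rw [e9.fderiv_eq]
        simp
  have hdbl : volume.real B = 2 ^ N * volume.real (closedBall (0 : EE N) R) := by
    rw [hB, Measure.addHaar_real_closedBall _ _ (by linarith),
      Measure.addHaar_real_closedBall _ _ hR.le, finrank_euclideanSpace_fin, mul_pow]
    ring
  set W : ℝ := ∫ x, η x ^ 2 with hWdef
  have hvR : 0 < volume.real (closedBall (0 : EE N) R) := by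
    rw [Measure.addHaar_real_closedBall _ _ hR.le]
    have : 0 < volume.real (ball (0 : EE N) 1) := by
      unfold Measure.real
      exact ENNReal.toReal_pos (measure_ball_pos _ _ one_pos).ne' measure_ball_lt_top.ne
    positivity
  have hW0 : 0 < W := hvR.trans_le hW
  have hVb2 : ∫ x, ‖fderiv ℝ η x‖ ^ 2 ≤ (C ^ 2 * 2 ^ N / R ^ 2) * W := by
    refine hVb.trans ?_
    rw [hdbl]
    calc (C / R) ^ 2 * (2 ^ N * volume.real (closedBall (0 : EE N) R))
        ≤ (C / R) ^ 2 * (2 ^ N * W) := by gcongr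
      _ = _ := by field_simp
  have hfin : sq φ * W ≤ κ * V * (2 * en φ + 2 * (C ^ 2 * 2 ^ N / R ^ 2) * sq φ) * W := by
    calc sq φ * W ≤ V * κ * (2 * (en φ * W)) +
          V * κ * (2 * (sq φ * ∫ x, ‖fderiv ℝ η x‖ ^ 2)) := hint
      _ ≤ V * κ * (2 * (en φ * W)) + V * κ * (2 * (sq φ * ((C ^ 2 * 2 ^ N / R ^ 2) * W))) := by
          have := sq_nonneg' φ
          gcongr
      _ = _ := by ring
  exact le_of_mul_le_mul_right hfin hW0

end Pool.Agent.H456R3.Q.A1
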