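import Pool.Agent.H456R3.Q.A1
set_option autoImplicit false
set_option linter.unusedSectionVars false
set_option linter.unusedVariables false
open MeasureTheory Metric Set Filter Topology
open scoped ENNReal NNReal InnerProductSpace

namespace Pool.Agent.H456R3.Q.A1

open Pool.Agent.Helper420.QI.QEig Pool.Agent.Helper420.QI.Sob

variable {N : ℕ}

/-- `q`-admissibility -/
def QAdm (q : ℝ) (Ω : Set (EE N)) : Prop :=
  ∀ φ : ℕ → EE N → ℝ, (∀ n, IsTest Ω (φ n)) → (∀ n, en (φ n) ≤ 1) →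
    ∃ (u : EE N → ℝ) (ns : ℕ → ℕ), StrictMono ns ∧ MemLp u (ENNReal.ofReal q) volume ∧
      Tendsto (fun n => eLpNorm (fun x => φ (ns n) x - u x) (ENNReal.ofReal q) volume) atTop (𝓝 0)

theorem en_smul {Ω : Set (EE N)} {φ : EE N → ℝ} (hφ : IsTest Ω φ) (c : ℝ) :
    en (fun x => c * φ x) = c ^ 2 * en φ := by
  unfold en
  rw [← integral_const_mul]
  apply integral_congr_ae
  filter_upwards with x
  have : fderiv ℝ (fun x => c * φ x) x = c • fderiv ℝ φ x :=
    fderiv_const_mul ((hφ.1.differentiable (by simp)) x) c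
  rw [this, norm_smul, mul_pow, Real.norm_eq_abs, sq_abs]

theorem nq_smul (q : ℝ) (φ : EE N → ℝ) (c : ℝ) : nq q (fun x => c * φ x) = |c| * nq q φ := by
  unfold nq
  have : (fun x => c * φ x) = c • φ := rfl
  rw [this, eLpNorm_const_smul, ENNReal.toReal_mul]
  simp

theorem one_le_q {q : ℝ} (hq : 2 < q) : (1 : ℝ≥0∞) ≤ ENNReal.ofReal q := by
  rw [← ENNReal.ofReal_one]
  exact ENNReal.ofReal_le_ofReal (by linarith)

theorem nq_sub_le {q : ℝ} (hq : 2 < q) {f g : EE N → ℝ} (hf : MemLp f (ENNReal.ofReal q) volume)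
    (hg : MemLp g (ENNReal.ofReal q) volume) : nq q f ≤ nq q (fun x => f x - g x) + nq q g := by
  unfold nq
  have hfg : MemLp (fun x => f x - g x) (ENNReal.ofReal q) volume := hf.sub hg
  rw [← ENNReal.toReal_add hfg.2.ne hg.2.ne]
  refine ENNReal.toReal_mono (ENNReal.add_ne_top.2 ⟨hfg.2.ne, hg.2.ne⟩) ?_
  have : f = (fun x => f x - g x) + g := by ext x; simp
  calc eLpNorm f (ENNReal.ofReal q) volume = eLpNorm ((fun x => f x - g x) + g) (ENNReal.ofReal q) volume := by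
        rw [← this]
    _ ≤ _ := eLpNorm_add_le hfg.1 hg.1 (one_le_q hq)

/-- the embedding is bounded -/
theorem emb {q : ℝ} (hq : 2 < q) {Ω : Set (EE N)} (hΩ : QAdm q Ω) :
    ∃ κ : ℝ, 0 ≤ κ ∧ ∀ ψ, IsTest Ω ψ → nq q ψ ^ 2 ≤ κ * en ψ := by
  by_contra hcon
  push Not at hcon
  choose ψ hψ h1 using fun n : ℕ => hcon ((n : ℝ) + 1) (by positivity)
  have hpos : ∀ n, 0 < nq q (ψ n) := by
    intro n
    have h2 : 0 ≤ ((n : ℝ) + 1) * en (ψ n) := mul_nonneg (by positivity) (en_nonneg _)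
    have h3 : 0 < nq q (ψ n) ^ 2 := lt_of_le_of_lt h2 (h1 n)
    refine lt_of_le_of_ne (nq_nonneg _ _) (fun h => ?_)
    rw [← h] at h3
    norm_num at h3
  set c : ℕ → ℝ := fun n => Real.sqrt ((n : ℝ) + 1) / nq q (ψ n) with hc
  have hc0 : ∀ n, 0 ≤ c n := fun n => div_nonneg (Real.sqrt_nonneg _) (nq_nonneg _ _)
  obtain ⟨u, ns, hns, hu, hlim⟩ := hΩ (fun n x => c n * ψ n x) (fun n => isTest_smul (hψ n) (c n))
    (by
      intro n
      rw [en_smul (hψ n), hc]
      simp only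
      rw [div_pow, Real.sq_sqrt (by positivity), div_mul_eq_mul_div, div_le_one (by
        have := hpos n; positivity)]
      exact (h1 n).le)
  have hn : ∀ n, nq q (fun x => c n * ψ n x) = Real.sqrt ((n : ℝ) + 1) := by
    intro n
    rw [nq_smul, abs_of_nonneg (hc0 n), hc]
    simp only
    rw [div_mul_cancel₀ _ (hpos n).ne']
  have hfin : ∀ᶠ n in atTop, nq q (fun x => c (ns n) * ψ (ns n) x - u x) ≤ 1 := by
    have h3 : Tendsto (fun n => nq q (fun x => c (ns n) * ψ (ns n) x - u x)) atTop (𝓝 0) := by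
      have := (ENNReal.tendsto_toReal ENNReal.zero_ne_top).comp hlim
      exact this
    exact h3.eventually (Iic_mem_nhds one_pos)
  obtain ⟨n0, hn0⟩ := eventually_atTop.1 hfin
  obtain ⟨m, hm⟩ := exists_nat_gt ((1 + nq q u) ^ 2)
  set n := max n0 m with hndef
  have h4 := hn0 n (le_max_left _ _)
  have h5 := nq_sub_le hq (f := fun x => c (ns n) * ψ (ns n) x) (g := u)
    (memLp_test (isTest_smul (hψ (ns n)) (c (ns n))) _) hu
  rw [hn] at h5
  have h6 : Real.sqrt ((ns n : ℝ) + 1) ≤ 1 + nq q u := by linarith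
  have h7 : (ns n : ℝ) + 1 ≤ (1 + nq q u) ^ 2 := by
    have := pow_le_pow_left₀ (Real.sqrt_nonneg _) h6 2
    rwa [Real.sq_sqrt (by positivity)] at this
  have h8 : (m : ℝ) ≤ ns n := by
    have : m ≤ ns n := (le_max_right n0 m).trans (hns.id_le n)
    exact_mod_cast this
  linarith

/-- the part of `Ω` far away -/
def far (Ω : Set (EE N)) (ρ : ℝ) : Set (EE N) := Ω ∩ {x | ρ ≤ ‖x‖}

theorem test_far {Ω : Set (EE N)} {ρ : ℝ} {ψ : EE N → ℝ} (h : IsTest (far Ω ρ) ψ) : IsTest Ω ψ :=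
  isTest_mono inter_subset_left h

theorem zero_near {Ω : Set (EE N)} {ρ : ℝ} {ψ : EE N → ℝ} (h : IsTest (far Ω ρ) ψ) {x : EE N}
    (hx : ‖x‖ < ρ) : ψ x = 0 := by
  by_contra hne
  have := (h.2.2 (subset_tsupport _ hne)).2
  exact absurd hx (not_lt.2 this)

/-- the embedding constant of the far part is small -/
theorem emb_far {q : ℝ} (hq : 2 < q) {Ω : Set (EE N)} (hΩ : QAdm q Ω) {ε : ℝ} (hε : 0 < ε) :
    ∃ ρ : ℝ, 1 ≤ ρ ∧ ∀ ψ, IsTest (far Ω ρ) ψ → nq q ψ ^ 2 ≤ ε * en ψ := by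
  by_contra hcon
  push Not at hcon
  choose ψ hψ h1 using fun n : ℕ => hcon ((n : ℝ) + 1) (by
    have : (0:ℝ) ≤ n := Nat.cast_nonneg n
    linarith)
  have hpos : ∀ n, 0 < nq q (ψ n) := by
    intro n
    have h2 : 0 ≤ ε * en (ψ n) := mul_nonneg (by positivity) (en_nonneg _)
    have h3 : 0 < nq q (ψ n) ^ 2 := lt_of_le_of_lt h2 (h1 n)
    refine lt_of_le_of_ne (nq_nonneg _ _) (fun h => ?_)
    rw [← h] at h3
    norm_num at h3
  set c : ℕ → ℝ := fun n => Real.sqrt ε / nq q (ψ n) with hc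
  have hc0 : ∀ n, 0 ≤ c n := fun n => div_nonneg (Real.sqrt_nonneg _) (nq_nonneg _ _)
  obtain ⟨u, ns, hns, hu, hlim⟩ := hΩ (fun n x => c n * ψ n x)
    (fun n => isTest_smul (test_far (hψ n)) (c n))
    (by
      intro n
      rw [en_smul (hψ n), hc]
      simp only
      rw [div_pow, Real.sq_sqrt (by positivity), div_mul_eq_mul_div, div_le_one (by
        have := hpos n; positivity)]
      exact (h1 n).le)
  have hn : ∀ n, nq q (fun x => c n * ψ n x) = Real.sqrt ε := by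
    intro n
    rw [nq_smul, abs_of_nonneg (hc0 n), hc]
    simp only
    rw [div_mul_cancel₀ _ (hpos n).ne']
  have hu0 : u =ᵐ[volume] 0 := by
    have hball : ∀ m : ℕ, ∀ᵐ x ∂(volume : Measure (EE N)), ‖x‖ < m → u x = 0 := by
      intro m
      have hz : eLpNorm ((ball (0 : EE N) m).indicator u) (ENNReal.ofReal q) volume = 0 := by
        refine le_antisymm (ge_of_tendsto hlim ?_) (zero_le)
        filter_upwards [eventually_ge_atTop m] with n hn
        refine eLpNorm_mono ?_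
        intro x
        by_cases hx : x ∈ ball (0 : EE N) m
        · rw [Set.indicator_of_mem hx]
          rw [mem_ball_zero_iff] at hx
          have h3 : ψ (ns n) x = 0 := by
            apply zero_near (hψ (ns n))
            have : (m : ℝ) ≤ ns n := by exact_mod_cast hn.trans (hns.id_le n)
            linarith
          simp only [h3, mul_zero, zero_sub, norm_neg, le_refl]
        · rw [Set.indicator_of_notMem hx, norm_zero]
          exact norm_nonneg _
      have hz2 := (eLpNorm_eq_zero_iff (hu.1.indicator measurableSet_ball) (by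
        have : 0 < q := by linarith
        simpa using this)).1 hz
      filter_upwards [hz2] with x hx hx2
      rw [Set.indicator_of_mem (by rwa [mem_ball_zero_iff])] at hx
      exact hx
    have := ae_all_iff.2 hball
    filter_upwards [this] with x hx
    obtain ⟨m, hm⟩ := exists_nat_gt ‖x‖
    exact hx m hm
  have hq0 : Tendsto (fun n => nq q (fun x => c (ns n) * ψ (ns n) x)) atTop (𝓝 0) := by
    have h3 : Tendsto (fun n => nq q (fun x => c (ns n) * ψ (ns n) x - u x)) atTop (𝓝 0) := by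
      have := (ENNReal.tendsto_toReal ENNReal.zero_ne_top).comp hlim
      exact this
    refine h3.congr fun n => ?_
    unfold nq
    congr 1
    apply eLpNorm_congr_ae
    filter_upwards [hu0] with x hx
    rw [hx]
    simp
  simp only [hn] at hq0
  have := tendsto_nhds_unique hq0 tendsto_const_nhds
  have h9 : 0 < Real.sqrt ε := Real.sqrt_pos.2 hε
  have := tendsto_nhds_unique hq0 (tendsto_const_nhds (x := Real.sqrt ε))
  linarith

theorem exp_lt {q : ℝ} (hq : 2 < q) (hq' : ((N : ℝ) - 2) * q < 2 * N) :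
    (N : ℝ) * (1 - 2 / q) < 2 := by
  have hq0 : 0 < q := by linarith
  have : (N : ℝ) * (1 - 2 / q) = (N * (q - 2)) / q := by field_simp
  rw [this, div_lt_iff₀ hq0]
  linarith

/-- Poincare inequality -/
theorem poincare {q : ℝ} (hq : 2 < q) (hq' : ((N : ℝ) - 2) * q < 2 * N) {Ω : Set (EE N)}
    (hΩ : QAdm q Ω) : ∃ K : ℝ, 0 ≤ K ∧ ∀ φ, IsTest Ω φ → sq φ ≤ K * en φ := by
  obtain ⟨κ, hκ, hemb⟩ := emb hq hΩ
  obtain ⟨C, hC, hcut⟩ := exists_cut N
  set ω : ℝ := volume.real (ball (0 : EE N) 1) with hω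
  have hω0 : 0 ≤ ω := measureReal_nonneg
  set a : ℝ := (N : ℝ) * (1 - 2 / q) with ha
  have ha2 : a < 2 := exp_lt hq hq'
  have h2q : 0 ≤ 1 - 2 / q := by
    have : 2 / q ≤ 1 := by rw [div_le_one (by linarith)]; linarith
    linarith
  have hV : ∀ R : ℝ, 0 < R → (volume.real (closedBall (0 : EE N) (2 * R))) ^ (1 - 2 / q) =
      ((2 ^ N * ω) ^ (1 - 2 / q)) * R ^ a := by
    intro R hR
    rw [Measure.addHaar_real_closedBall _ _ (by linarith), finrank_euclideanSpace_fin, mul_pow,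
      ← hω]
    have : 2 ^ N * R ^ N * ω = (2 ^ N * ω) * R ^ N := by ring
    rw [this, Real.mul_rpow (by positivity) (by positivity), ha, Real.rpow_mul hR.le,
      Real.rpow_natCast]
  set K1 : ℝ := κ * (2 ^ N * ω) ^ (1 - 2 / q) with hK1
  have hK10 : 0 ≤ K1 := by positivity
  have hlim : Tendsto (fun R : ℝ => K1 * (2 * (C ^ 2 * 2 ^ N)) * R ^ (-(2 - a))) atTop (𝓝 0) := by
    have := (tendsto_rpow_neg_atTop (show 0 < 2 - a by linarith)).const_mul
      (K1 * (2 * (C ^ 2 * 2 ^ N)))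
    simpa using this
  obtain ⟨R, hR1, hR2⟩ := ((hlim.eventually (Iic_mem_nhds (show (0:ℝ) < 1 / 2 by norm_num))).and
    (eventually_gt_atTop 0)).exists
  have hR1' : K1 * (2 * (C ^ 2 * 2 ^ N)) * R ^ (-(2 - a)) ≤ 1 / 2 := hR1
  obtain ⟨η, h1, h2, h3, h4, h5, h6, h7⟩ := hcut R hR2
  refine ⟨4 * (K1 * R ^ a), by positivity, fun φ hφ => ?_⟩
  have h8 := avg hq hC hR2 h1 h2 h3 h4 h5 h6 h7 hκ hemb hφ
  rw [hV R hR2] at h8
  have e1 : κ * ((2 ^ N * ω) ^ (1 - 2 / q) * R ^ a) *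
      (2 * en φ + 2 * (C ^ 2 * 2 ^ N / R ^ 2) * sq φ) =
      2 * (K1 * R ^ a) * en φ + (K1 * (2 * (C ^ 2 * 2 ^ N)) * (R ^ a / R ^ 2)) * sq φ := by
    rw [hK1]; ring
  have e2 : R ^ a / R ^ 2 = R ^ (-(2 - a)) := by
    rw [neg_sub, Real.rpow_sub hR2, Real.rpow_two]
  rw [e1, e2] at h8
  have h9 := mul_le_mul_of_nonneg_right hR1' (sq_nonneg' φ)
  linarith

/-- Poincare inequality far away -/
theorem poincare_far {q : ℝ} (hq : 2 < q) {Ω : Set (EE N)}
    (hΩ : QAdm q Ω) {ε : ℝ} (hε : 0 < ε) :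
    ∃ ρ : ℝ, 1 ≤ ρ ∧ ∀ φ, IsTest (far Ω ρ) φ → sq φ ≤ ε * en φ := by
  obtain ⟨C, hC, hcut⟩ := exists_cut N
  obtain ⟨η, h1, h2, h3, h4, h5, h6, h7⟩ := hcut 1 one_pos
  set V : ℝ := (volume.real (closedBall (0 : EE N) (2 * 1))) ^ (1 - 2 / q) with hV
  have hV0 : 0 ≤ V := by positivity
  set κ : ℝ := min (1 / (4 * (V + 1) * (C ^ 2 * 2 ^ N + 1))) (ε / (4 * (V + 1))) with hκ
  have hκ0 : 0 < κ := by positivity
  obtain ⟨ρ, hρ, hemb⟩ := emb_far hq hΩ hκ0
  refine ⟨ρ, hρ, fun φ hφ => ?_⟩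
  have h8 := avg hq hC one_pos h1 h2 h3 h4 h5 h6 h7 hκ0.le hemb hφ
  rw [← hV] at h8
  have e1 : κ * V ≤ ε / 4 := by
    calc κ * V ≤ ε / (4 * (V + 1)) * (V + 1) := by
          apply mul_le_mul (min_le_right _ _) (by linarith) hV0 (by positivity)
      _ = _ := by field_simp
  have e2 : κ * V * (2 * (C ^ 2 * 2 ^ N / 1 ^ 2)) ≤ 1 / 2 := by
    calc κ * V * (2 * (C ^ 2 * 2 ^ N / 1 ^ 2)) ≤
          (1 / (4 * (V + 1) * (C ^ 2 * 2 ^ N + 1))) * (V + 1) * (2 * (C ^ 2 * 2 ^ N + 1)) := by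
          rw [one_pow, div_one]
          have : κ ≤ 1 / (4 * (V + 1) * (C ^ 2 * 2 ^ N + 1)) := min_le_left _ _
          gcongr
          · linarith
          · linarith
      _ = _ := by field_simp; norm_num
  have h9 := mul_le_mul_of_nonneg_right e2 (sq_nonneg' φ)
  have h10 := mul_le_mul_of_nonneg_right e1 (en_nonneg φ)
  nlinarith

theorem en_sub {Ω : Set (EE N)} {φ ψ : EE N → ℝ} (hφ : IsTest Ω φ) (hψ : IsTest Ω ψ) :
    en (fun x => φ x - ψ x) ≤ 2 * en φ + 2 * en ψ := by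
  unfold en
  rw [← integral_const_mul, ← integral_const_mul, ← integral_add
    ((int_en hφ.1 hφ.2.1).const_mul 2) ((int_en hψ.1 hψ.2.1).const_mul 2)]
  have h := isTest_sub hφ hψ
  refine integral_mono (int_en h.1 h.2.1) (((int_en hφ.1 hφ.2.1).const_mul 2).add
    ((int_en hψ.1 hψ.2.1).const_mul 2)) ?_
  intro x
  have e1 : fderiv ℝ (fun x => φ x - ψ x) x = fderiv ℝ φ x - fderiv ℝ ψ x :=
    fderiv_fun_sub ((hφ.1.differentiable (by simp)) x) ((hψ.1.differentiable (by simp)) x)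
  show ‖fderiv ℝ (fun x => φ x - ψ x) x‖ ^ 2 ≤ 2 * ‖fderiv ℝ φ x‖ ^ 2 + 2 * ‖fderiv ℝ ψ x‖ ^ 2
  rw [e1]
  have h2 := norm_sub_le (fderiv ℝ φ x) (fderiv ℝ ψ x)
  have h3 := pow_le_pow_left₀ (norm_nonneg _) h2 2
  nlinarith [sq_nonneg (‖fderiv ℝ φ x‖ - ‖fderiv ℝ ψ x‖)]

theorem nq_comm_sub (q : ℝ) (f g : EE N → ℝ) : nq q (fun x => f x - g x) = nq q (fun x => g x - f x) := by
  unfold nq
  congr 1
  have : (fun x => f x - g x) = -(fun x => g x - f x) := by ext x; simp
  rw [this, eLpNorm_neg]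

/-- compactness in `L^2` -/
theorem comp_two {q : ℝ} (hq : 2 < q) (hq' : ((N : ℝ) - 2) * q < 2 * N) {Ω : Set (EE N)}
    (hΩ : QAdm q Ω) (φ : ℕ → EE N → ℝ) (hφ : ∀ n, IsTest Ω (φ n)) (hE : ∀ n, en (φ n) ≤ 1) :
    ∃ ns : ℕ → ℕ, StrictMono ns ∧ ∀ ε : ℝ, 0 < ε → ∃ n0, ∀ j ≥ n0, ∀ k ≥ n0,
      sq (fun x => φ (ns j) x - φ (ns k) x) ≤ ε := by
  obtain ⟨K, hK, hP⟩ := poincare hq hq' hΩ
  obtain ⟨C, hC, hcut⟩ := exists_cut N
  obtain ⟨u, ns, hns, hu, hlim⟩ := hΩ φ hφ hE
  refine ⟨ns, hns, fun ε hε => ?_⟩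
  have h3 : Tendsto (fun n => nq q (fun x => φ (ns n) x - u x)) atTop (𝓝 0) := by
    have := (ENNReal.tendsto_toReal ENNReal.zero_ne_top).comp hlim
    exact this
  set M : ℝ := 8 + 8 * C ^ 2 * K with hM
  have hM0 : 0 < M := by positivity
  obtain ⟨ρ, hρ, hfar⟩ := poincare_far hq hΩ (show 0 < ε / (4 * M) by positivity)
  have hρ0 : 0 < ρ := by linarith
  obtain ⟨η, h1, h2, h3', h4, h5, h6, h7⟩ := hcut ρ hρ0
  set V : ℝ := (volume.real (closedBall (0 : EE N) (2 * ρ))) ^ (1 - 2 / q) with hV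
  have hV0 : 0 ≤ V := by positivity
  set δ : ℝ := Real.sqrt (ε / (4 * (V + 1))) / 2 with hδ
  have hδ0 : 0 < δ := by positivity
  obtain ⟨n0, hn0⟩ := eventually_atTop.1 (h3.eventually (Iic_mem_nhds hδ0))
  refine ⟨n0, fun j hj k hk => ?_⟩
  set d : EE N → ℝ := fun x => φ (ns j) x - φ (ns k) x with hd
  have hdt : IsTest Ω d := isTest_sub (hφ _) (hφ _)
  have hden : en d ≤ 4 := by
    have := en_sub (hφ (ns j)) (hφ (ns k))
    have a1 := hE (ns j)
    have a2 := hE (ns k)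
    linarith
  have hdsq : sq d ≤ 4 * K := (hP d hdt).trans (by nlinarith)
  have hdq : nq q d ≤ 2 * δ := by
    have e1 := nq_sub_le hq (f := d) (g := fun x => u x - φ (ns k) x)
      (memLp_test hdt _) (hu.sub (memLp_test (hφ (ns k)) _))
    have e2 : (fun x => d x - (u x - φ (ns k) x)) = fun x => φ (ns j) x - u x := by
      ext x; simp only [hd]; ring
    rw [e2, nq_comm_sub q u] at e1
    have a1 : nq q (fun x => φ (ns j) x - u x) ≤ δ := hn0 j hj
    have a2 : nq q (fun x => φ (ns k) x - u x) ≤ δ := hn0 k hk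
    linarith
  -- the near part
  have hnear : sq (fun x => d x * η x) ≤ ε / 4 := by
    have ht := isTest_mul hdt h1
    have e1 := hold_sq hq (memLp_test ht 2) (memLp_test ht _) (measurableSet_closedBall (x := (0 : EE N))
      (ε := 2 * ρ)) measure_closedBall_lt_top.ne (by
        intro x hx
        rw [mem_closedBall_zero_iff, not_le] at hx
        show d x * η x = 0
        rw [h6 x hx.le, mul_zero])
    have e2 : nq q (fun x => d x * η x) ≤ nq q d := by
      unfold nq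
      refine ENNReal.toReal_mono (memLp_test hdt _).2.ne (eLpNorm_mono fun x => ?_)
      rw [norm_mul, Real.norm_of_nonneg (h3' x)]
      exact mul_le_of_le_one_right (norm_nonneg _) (h4 x)
    have e3 : nq q (fun x => d x * η x) ^ 2 ≤ ε / (4 * (V + 1)) := by
      have := pow_le_pow_left₀ (nq_nonneg _ _) (e2.trans hdq) 2
      refine this.trans (le_of_eq ?_)
      rw [hδ, mul_div_cancel₀ _ two_ne_zero, Real.sq_sqrt (by positivity)]
    calc sq (fun x => d x * η x) ≤ V * nq q (fun x => d x * η x) ^ 2 := e1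
      _ ≤ (V + 1) * (ε / (4 * (V + 1))) := by
          apply mul_le_mul (by linarith) e3 (by positivity) (by positivity)
      _ = ε / 4 := by field_simp
  -- the far part
  have hζ : ContDiff ℝ ((⊤ : ℕ∞) : WithTop ℕ∞) (fun x => 1 - η x) := contDiff_const.sub h1
  have hfart : IsTest (far Ω ρ) (fun x => d x * (1 - η x)) := by
    refine ⟨(isTest_mul hdt hζ).1, (isTest_mul hdt hζ).2.1, ?_⟩
    refine subset_inter (isTest_mul hdt hζ).2.2 ?_
    have hcl : IsClosed {x : EE N | ρ ≤ ‖x‖} := isClosed_le continuous_const continuous_norm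
    refine closure_minimal ?_ hcl
    intro x hx
    by_contra hne
    apply hx
    have : ‖x‖ ≤ ρ := (not_le.1 hne).le
    show d x * (1 - η x) = 0
    rw [h5 x this]; ring
  have hfar2 : sq (fun x => d x * (1 - η x)) ≤ ε / 4 := by
    have e1 := hfar _ hfart
    have e2 : en (fun x => d x * (1 - η x)) ≤ M := by
      have e3 : en (fun x => d x * (1 - η x)) ≤ 2 * en d + 2 * C ^ 2 * sq d := by
        unfold en sq
        rw [← integral_const_mul, ← integral_const_mul, ← integral_add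
          ((int_en hdt.1 hdt.2.1).const_mul 2) ((int_sq hdt.1.continuous hdt.2.1).const_mul _)]
        refine integral_mono (int_en hfart.1 hfart.2.1) (((int_en hdt.1 hdt.2.1).const_mul 2).add
          ((int_sq hdt.1.continuous hdt.2.1).const_mul _)) ?_
        intro x
        have e4 := norm_fderiv_mul hdt.1 hζ x
        have e5 : fderiv ℝ (fun x => 1 - η x) x = - fderiv ℝ η x := by
          rw [fderiv_const_sub]
        rw [e5, norm_neg] at e4
        have e6 : ‖fderiv ℝ η x‖ ^ 2 ≤ C ^ 2 := by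
          have : C / ρ ≤ C := div_le_self hC hρ
          exact pow_le_pow_left₀ (norm_nonneg _) ((h7 x).trans this) 2
        have e7 : (1 - η x) ^ 2 ≤ 1 := by
          have a1 := h3' x
          have a2 := h4 x
          nlinarith
        have e8 : ‖fderiv ℝ d x‖ ^ 2 * (1 - η x) ^ 2 ≤ ‖fderiv ℝ d x‖ ^ 2 :=
          mul_le_of_le_one_right (by positivity) e7
        have e9 : d x ^ 2 * ‖fderiv ℝ η x‖ ^ 2 ≤ d x ^ 2 * C ^ 2 :=
          mul_le_mul_of_nonneg_left e6 (by positivity)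
        show ‖fderiv ℝ (fun x => d x * (1 - η x)) x‖ ^ 2 ≤ 2 * ‖fderiv ℝ d x‖ ^ 2 + 2 * C ^ 2 * d x ^ 2
        linarith
      refine e3.trans ?_
      have : 2 * C ^ 2 * sq d ≤ 2 * C ^ 2 * (4 * K) :=
        mul_le_mul_of_nonneg_left hdsq (by positivity)
      rw [hM]; linarith
    calc sq (fun x => d x * (1 - η x)) ≤ ε / (4 * M) * M :=
          e1.trans (mul_le_mul_of_nonneg_left e2 (by positivity))
      _ = ε / 4 := by field_simp
  have hsum : sq d ≤ 2 * sq (fun x => d x * η x) + 2 * sq (fun x => d x * (1 - η x)) := by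
    have ht := isTest_mul hdt h1
    unfold sq
    rw [← integral_const_mul, ← integral_const_mul, ← integral_add
      ((int_sq ht.1.continuous ht.2.1).const_mul 2)
      ((int_sq hfart.1.continuous hfart.2.1).const_mul 2)]
    refine integral_mono (int_sq hdt.1.continuous hdt.2.1)
      (((int_sq ht.1.continuous ht.2.1).const_mul 2).add
      ((int_sq hfart.1.continuous hfart.2.1).const_mul 2)) ?_
    intro x
    show d x ^ 2 ≤ 2 * (d x * η x) ^ 2 + 2 * (d x * (1 - η x)) ^ 2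
    nlinarith [sq_nonneg (d x * η x - d x * (1 - η x))]
  linarith

end Pool.Agent.H456R3.Q.A1
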