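import Pool.Agent.H456R3.Q.A2
set_option autoImplicit false
set_option linter.unusedSectionVars false
set_option linter.unusedVariables false
open MeasureTheory Metric Set Filter Topology
open scoped ENNReal NNReal InnerProductSpace

namespace Pool.Agent.H456R3.Q.A1

open Pool.Agent.Helper420.QI.QEig Pool.Agent.Helper420.QI.Sob

variable {N : ℕ}

theorem fderiv_pow' {φ : EE N → ℝ} (hφ : ContDiff ℝ ((⊤ : ℕ∞) : WithTop ℕ∞) φ) (k : ℕ) (x : EE N) :
    fderiv ℝ (fun x => φ x ^ (k + 1)) x = (((k : ℝ) + 1) * φ x ^ k) • fderiv ℝ φ x := by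
  have h1 : HasFDerivAt φ (fderiv ℝ φ x) x := ((hφ.differentiable (by simp)) x).hasFDerivAt
  have h2 := (hasDerivAt_pow (k + 1) (φ x)).comp_hasFDerivAt x h1
  have h3 := h2.fderiv
  refine Eq.trans h3 ?_
  push_cast
  simp

theorem isTest_pow {Ω : Set (EE N)} {φ : EE N → ℝ} (hφ : IsTest Ω φ) (k : ℕ) :
    IsTest Ω (fun x => φ x ^ (k + 1)) := by
  have hsup : Function.support (fun x => φ x ^ (k + 1)) ⊆ Function.support φ := by
    intro x hx h0
    apply hx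
    show φ x ^ (k + 1) = 0
    rw [show φ x = 0 from h0]
    simp
  exact ⟨hφ.1.pow _, hφ.2.1.mono hsup, (closure_mono hsup).trans hφ.2.2⟩

/-- in dimension two, powers are controlled -/
theorem pow_step (hN : N = 2) : ∃ c : ℝ≥0, ∀ (Ω : Set (EE N)) (φ : EE N → ℝ), IsTest Ω φ → ∀ k : ℕ,
    eLpNorm (fun x => φ x ^ (k + 1)) 2 volume ≤ c * ((k : ℝ≥0) + 1) *
      (eLpNorm (fun x => φ x ^ k) 2 volume * eLpNorm (fderiv ℝ φ) 2 volume) := by
  refine ⟨SNormLESNormFDerivOfEqConst ℝ (volume : Measure (EE N)) (((1 : ℝ≥0) : ℝ≥0) : ℝ), ?_⟩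
  intro Ω φ hφ k
  have h1 := eLpNorm_le_eLpNorm_fderiv_of_eq (F := ℝ) (volume : Measure (EE N))
    (u := fun x => φ x ^ (k + 1)) ((hφ.1.pow _).of_le (by simp)) (isTest_pow hφ k).2.1
    (p := 1) (p' := 2) le_rfl (by rw [finrank_euclideanSpace_fin]; omega) (by
      rw [finrank_euclideanSpace_fin, hN]; norm_num)
  rw [mul_assoc]
  refine h1.trans ?_
  refine mul_le_mul_right ?_ _
  obtain ⟨g, hg⟩ : ∃ g : EE N → (EE N →L[ℝ] ℝ), g = fun x => φ x ^ k • fderiv ℝ φ x := ⟨_, rfl⟩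
  have h2 : fderiv ℝ (fun x => φ x ^ (k + 1)) = ((k : ℝ) + 1) • g := by
    ext1 x
    rw [fderiv_pow' hφ.1 k x, hg]
    simp only [Pi.smul_apply, smul_smul]
  rw [h2]
  refine (eLpNorm_const_smul ((k : ℝ) + 1) g _ _).le.trans ?_
  have h3 : ‖((k : ℝ) + 1)‖ₑ = ((k : ℝ≥0) + 1 : ℝ≥0) := by
    rw [Real.enorm_of_nonneg (by positivity)]
    rw [← ENNReal.ofReal_coe_nnreal]
    congr 1
  rw [h3]
  push_cast
  refine mul_le_mul_right ?_ _
  have h4 := eLpNorm_smul_le_mul_eLpNorm (μ := (volume : Measure (EE N))) (p := 2) (q := 2) (r := 1)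
    (f := fderiv ℝ φ) (cont_fderiv hφ.1).aestronglyMeasurable
    (φ := fun x => φ x ^ k) (hφ.1.continuous.pow k).aestronglyMeasurable
  have h5 : g = (fun x => φ x ^ k) • fderiv ℝ φ := hg
  rw [h5]
  exact h4

theorem pow_bound (hN : N = 2) {Ω : Set (EE N)} {K : ℝ≥0}
    (hK : ∀ φ, IsTest Ω φ → eLpNorm φ 2 volume ≤ K * eLpNorm (fderiv ℝ φ) 2 volume) (k : ℕ) :
    ∃ c : ℝ≥0, ∀ φ, IsTest Ω φ →
      eLpNorm (fun x => φ x ^ (k + 1)) 2 volume ≤ c * eLpNorm (fderiv ℝ φ) 2 volume ^ (k + 1) := by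
  induction k with
  | zero =>
    refine ⟨K, fun φ hφ => ?_⟩
    simpa using hK φ hφ
  | succ k ih =>
    obtain ⟨c, hc⟩ := ih
    obtain ⟨c', hc'⟩ := pow_step (N := N) hN
    refine ⟨c' * ((k : ℝ≥0) + 1 + 1) * c, fun φ hφ => ?_⟩
    refine (hc' Ω φ hφ (k + 1)).trans ?_
    have h1 := hc φ hφ
    push_cast
    calc (c' : ℝ≥0∞) * ((k : ℝ≥0∞) + 1 + 1) *
          (eLpNorm (fun x => φ x ^ (k + 1)) 2 volume * eLpNorm (fderiv ℝ φ) 2 volume)
        ≤ (c' : ℝ≥0∞) * ((k : ℝ≥0∞) + 1 + 1) *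
          ((c * eLpNorm (fderiv ℝ φ) 2 volume ^ (k + 1)) * eLpNorm (fderiv ℝ φ) 2 volume) := by
          gcongr
      _ = _ := by ring

theorem eLpNorm_two_le {Ω : Set (EE N)} {K : ℝ} (hK0 : 0 ≤ K)
    (hK : ∀ φ, IsTest Ω φ → sq φ ≤ K * en φ) {φ : EE N → ℝ} (hφ : IsTest Ω φ) :
    eLpNorm φ 2 volume ≤ (Real.sqrt K).toNNReal * eLpNorm (fderiv ℝ φ) 2 volume := by
  have hg : MemLp (fderiv ℝ φ) 2 volume :=
    (cont_fderiv hφ.1).memLp_of_hasCompactSupport (hφ.2.1.fderiv ℝ)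
  have h1 := toReal_two_sq (memLp_test hφ 2)
  have h2 : (eLpNorm (fderiv ℝ φ) 2 volume).toReal ^ 2 = en φ := by
    have h := hg.eLpNorm_eq_integral_rpow_norm (by norm_num) (by norm_num)
    rw [h, ENNReal.toReal_ofReal (by positivity)]
    simp only [ENNReal.toReal_ofNat, Real.rpow_two]
    rw [← Real.rpow_natCast, ← Real.rpow_mul (integral_nonneg fun x => by positivity)]
    norm_num
    rfl
  have h3 := hK φ hφ
  unfold sq at h3
  rw [← h1, ← h2] at h3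
  have h4 : (eLpNorm φ 2 volume).toReal ≤ Real.sqrt K * (eLpNorm (fderiv ℝ φ) 2 volume).toReal := by
    apply le_of_sq_le_sq _ (by positivity)
    rw [mul_pow, Real.sq_sqrt hK0]
    exact h3
  rw [← ENNReal.ofReal_toReal (memLp_test hφ 2).2.ne, ← ENNReal.ofReal_toReal hg.2.ne,
    ← ENNReal.ofReal_coe_nnreal, Real.coe_toNNReal _ (Real.sqrt_nonneg _),
    ← ENNReal.ofReal_mul (Real.sqrt_nonneg _)]
  exact ENNReal.ofReal_le_ofReal h4

/-- Sobolev inequality with a larger exponent -/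
theorem sob_gt (hN : 2 ≤ N) {q : ℝ} (hq : 2 < q) (hq' : ((N : ℝ) - 2) * q < 2 * N) {Ω : Set (EE N)}
    {K : ℝ} (hK0 : 0 ≤ K) (hK : ∀ φ, IsTest Ω φ → sq φ ≤ K * en φ) :
    ∃ (r : ℝ) (c : ℝ≥0), q < r ∧ ∀ φ, IsTest Ω φ →
      eLpNorm φ (ENNReal.ofReal r) volume ≤ c * eLpNorm (fderiv ℝ φ) 2 volume := by
  rcases Nat.lt_or_ge N 3 with h | h
  · have hN2 : N = 2 := by omega
    obtain ⟨k, hk⟩ := exists_nat_gt q
    obtain ⟨c, hc⟩ := pow_bound hN2 (K := (Real.sqrt K).toNNReal)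
      (fun φ hφ => eLpNorm_two_le hK0 hK hφ) k
    have hk1 : (0:ℝ) < (k:ℝ) + 1 := by positivity
    refine ⟨2 * ((k : ℝ) + 1), c ^ (1 / ((k : ℝ) + 1)), by nlinarith, fun φ hφ => ?_⟩
    have h1 := hc φ hφ
    have h2 : eLpNorm (fun x => φ x ^ (k + 1)) 2 volume =
        eLpNorm φ (ENNReal.ofReal (2 * ((k : ℝ) + 1))) volume ^ ((k : ℝ) + 1) := by
      have h3 := eLpNorm_norm_rpow (μ := (volume : Measure (EE N))) (p := 2) φ hk1
      have h4 : (2 : ℝ≥0∞) * ENNReal.ofReal ((k : ℝ) + 1) = ENNReal.ofReal (2 * ((k : ℝ) + 1)) := by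
        rw [ENNReal.ofReal_mul (by norm_num)]; norm_num
      rw [h4] at h3
      rw [← h3]
      apply eLpNorm_congr_norm_ae
      filter_upwards with x
      rw [norm_pow, Real.norm_of_nonneg (Real.rpow_nonneg (norm_nonneg _) _),
        ← Real.rpow_natCast]
      push_cast
      rfl
    rw [h2] at h1
    have h5 : eLpNorm φ (ENNReal.ofReal (2 * ((k : ℝ) + 1))) volume ≤
        (c * eLpNorm (fderiv ℝ φ) 2 volume ^ (k + 1)) ^ (1 / ((k : ℝ) + 1)) := by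
      have := ENNReal.rpow_le_rpow h1 (show 0 ≤ 1 / ((k : ℝ) + 1) by positivity)
      rwa [← ENNReal.rpow_mul, mul_one_div_cancel hk1.ne', ENNReal.rpow_one] at this
    refine h5.trans (le_of_eq ?_)
    rw [ENNReal.mul_rpow_of_nonneg _ _ (by positivity), ENNReal.coe_rpow_of_nonneg _ (by positivity)]
    congr 1
    rw [← ENNReal.rpow_natCast, ← ENNReal.rpow_mul]
    push_cast
    rw [mul_one_div_cancel hk1.ne', ENNReal.rpow_one]
  · have h3 : (3 : ℝ) ≤ N := by exact_mod_cast h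
    have hpos : (0:ℝ) < (N:ℝ) - 2 := by linarith
    set p' : ℝ≥0 := (2 * (N : ℝ) / ((N : ℝ) - 2)).toNNReal with hp'
    have hp'r : (p' : ℝ) = 2 * (N : ℝ) / ((N : ℝ) - 2) := Real.coe_toNNReal _ (by positivity)
    refine ⟨p', SNormLESNormFDerivOfEqConst ℝ (volume : Measure (EE N)) (((2 : ℝ≥0) : ℝ≥0) : ℝ), ?_, ?_⟩
    · rw [hp'r, lt_div_iff₀ hpos]; linarith
    · intro φ hφ
      have h1 := eLpNorm_le_eLpNorm_fderiv_of_eq (F := ℝ) (volume : Measure (EE N))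
        (u := φ) (hφ.1.of_le (by simp)) hφ.2.1
        (p := 2) (p' := p') (by norm_num) (by rw [finrank_euclideanSpace_fin]; omega) (by
          rw [finrank_euclideanSpace_fin, hp'r]
          push_cast
          field_simp)
      rw [ENNReal.ofReal_coe_nnreal]
      exact h1

end Pool.Agent.H456R3.Q.A1
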