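import Pool.Agent.H456R3.Q.A3
import Pool.Agent.Helper420.QI.Conc3
import Pool.Agent.Helper420.QI.Conc4
set_option autoImplicit false
set_option linter.unusedSectionVars false
set_option linter.unusedVariables false
open MeasureTheory Metric Set Filter Topology
open scoped ENNReal NNReal InnerProductSpace

namespace Pool.Agent.H456R3.Q.B1

open Pool.Agent.Helper420.QI (Dir)
open Pool.Agent.Helper420.QI
open Pool.Agent.Helper420.QI.QEig Pool.Agent.Helper420.QI.Sob Pool.Agent.Helper420.QI.Conc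
open Pool.Agent.H456R3.Q.A1

variable {N : ℕ} {Ω : Set (EE N)}

/-- Poincare inequality on the closure of the graph -/
def Poin (Ω : Set (EE N)) : Prop := ∃ C : ℝ, 0 ≤ C ∧ ∀ p ∈ DD Ω, ‖p.1‖ ≤ C * ‖p.2‖

theorem norm_fL_sq {φ : EE N → ℝ} (hφ : IsTest Ω φ) : ‖fL hφ‖ ^ 2 = A1.sq φ := by
  rw [norm_fL, toReal_two_sq (memLp_test hφ 2)]; rfl

theorem norm_gL_sq {φ : EE N → ℝ} (hφ : IsTest Ω φ) : ‖gL hφ‖ ^ 2 = en φ := by
  have hg : MemLp (fderiv ℝ φ) 2 volume :=
    (cont_fderiv hφ.1).memLp_of_hasCompactSupport (hφ.2.1.fderiv ℝ)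
  rw [norm_gL]
  have h := hg.eLpNorm_eq_integral_rpow_norm (by norm_num) (by norm_num)
  rw [h, ENNReal.toReal_ofReal (by positivity)]
  simp only [ENNReal.toReal_ofNat, Real.rpow_two]
  rw [← Real.rpow_natCast, ← Real.rpow_mul (integral_nonneg fun x => by positivity)]
  norm_num
  rfl

theorem poin_of {K : ℝ} (hK0 : 0 ≤ K) (hK : ∀ φ, IsTest Ω φ → A1.sq φ ≤ K * en φ) : Poin Ω := by
  refine ⟨Real.sqrt K, Real.sqrt_nonneg _, fun p hp => ?_⟩
  apply DD_induction (P := fun p => ‖p.1‖ ≤ Real.sqrt K * ‖p.2‖) _ _ hp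
  · exact isClosed_le (by fun_prop) (by fun_prop)
  · intro φ hφ
    have h1 := hK φ hφ
    rw [← norm_fL_sq hφ, ← norm_gL_sq hφ] at h1
    apply le_of_sq_le_sq _ (by positivity)
    rw [mul_pow, Real.sq_sqrt hK0]
    exact h1

theorem HS_closed' (hP : Poin Ω) : IsClosed (HS Ω : Set (L2v N)) := by
  obtain ⟨C, hC0, hC⟩ := hP
  apply IsSeqClosed.isClosed
  intro G g hG hg
  choose U hU using fun n => mem_HS.mp (hG n)
  have hcau : CauchySeq U := by
    have h1 := hg.cauchySeq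
    rw [Metric.cauchySeq_iff'] at h1 ⊢
    intro ε hε
    obtain ⟨n0, hn0⟩ := h1 (ε / (C + 1)) (by positivity)
    refine ⟨n0, fun n hn => ?_⟩
    have h2 := hC _ ((DD Ω).sub_mem (hU n) (hU n0))
    simp only [Prod.fst_sub, Prod.snd_sub] at h2
    have h3 := hn0 n hn
    rw [dist_eq_norm] at h3 ⊢
    calc ‖U n - U n0‖ ≤ C * ‖G n - G n0‖ := h2
      _ ≤ (C + 1) * ‖G n - G n0‖ := by gcongr; linarith
      _ < (C + 1) * (ε / (C + 1)) := by gcongr
      _ = ε := by field_simp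
  obtain ⟨u, hu⟩ := cauchySeq_tendsto_of_complete hcau
  exact mem_HS.mpr ⟨u, (DD_closed Ω).mem_of_tendsto (hu.prodMk_nhds hg) (Eventually.of_forall hU)⟩

theorem DD_unique' (hP : Poin Ω) {U V : L2f N} {G : L2v N} (h1 : (U, G) ∈ DD Ω)
    (h2 : (V, G) ∈ DD Ω) : U = V := by
  obtain ⟨C, hC0, hC⟩ := hP
  have h3 := hC _ ((DD Ω).sub_mem h1 h2)
  simp only [Prod.fst_sub, Prod.snd_sub, sub_self, norm_zero, mul_zero] at h3
  exact sub_eq_zero.mp (norm_le_zero_iff.mp h3)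

theorem prim_add' (hP : Poin Ω) (a b : HS Ω) : prim (a + b) = prim a + prim b := by
  apply DD_unique' hP (prim_mem (a + b))
  have := (DD Ω).add_mem (prim_mem a) (prim_mem b)
  rwa [Prod.mk_add_mk, ← Submodule.coe_add] at this

theorem prim_smul' (hP : Poin Ω) (c : ℝ) (a : HS Ω) : prim (c • a) = c • prim a := by
  apply DD_unique' hP (prim_mem (c • a))
  have := (DD Ω).smul_mem c (prim_mem a)
  rwa [Prod.smul_mk, ← Submodule.coe_smul] at this

theorem exists_J0' (hP : Poin Ω) : ∃ J0 : HS Ω →L[ℝ] L2f N, ∀ G : HS Ω, J0 G = prim G := by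
  have hP' := hP
  obtain ⟨C, hC0, hC⟩ := hP
  let L : HS Ω →ₗ[ℝ] L2f N :=
    { toFun := prim
      map_add' := prim_add' hP'
      map_smul' := prim_smul' hP' }
  have hb : ∀ G : HS Ω, ‖L G‖ ≤ C * ‖G‖ := by
    intro G
    have := hC _ (prim_mem G)
    exact this
  exact ⟨LinearMap.mkContinuous L C hb, fun G => rfl⟩

theorem prim_gH' (hP : Poin Ω) {φ : EE N → ℝ} (hφ : IsTest Ω φ) : prim (gH hφ) = fL hφ :=
  DD_unique' hP (prim_mem (gH hφ)) (subset_closure (mem_PS hφ))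

theorem J_gH' (hP : Poin Ω) (J0 : HS Ω →L[ℝ] L2f N) (hJ0 : ∀ G, J0 G = prim G) {φ : EE N → ℝ}
    (hφ : IsTest Ω φ) : J0 (gH hφ) =ᵐ[volume] φ := by
  rw [hJ0, prim_gH' hP]
  exact fL_coe hφ

/-- abstract limiting procedure -/
theorem limit_proc' {α : Type*} [MeasurableSpace α] {ν : Measure α}
    {H : Type*} [NormedAddCommGroup H] [InnerProductSpace ℝ H]
    (J : H →L[ℝ] Lp ℝ 2 ν) (T : ℝ → ℝ) (hT : LipschitzWith 1 T) (hT0 : T 0 = 0) (a b : ℕ → H) (G : H)
    (ha : Tendsto a atTop (𝓝 G))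
    (happ : ∀ n : ℕ, eLpNorm (fun x => J (b n) x - T (J (a n) x)) 2 ν ≤
      ENNReal.ofReal (1 / ((n : ℝ) + 1)))
    {w : H} (hw : ∀ K, w ∈ closure (convexHull ℝ (b '' Ici K))) :
    J w =ᵐ[ν] fun x => T (J G x) := by
  have hTle : ∀ t : ℝ, |T t| ≤ |t| := by
    intro t
    have h3 := hT.dist_le_mul t 0
    simpa only [NNReal.coe_one, one_mul, Real.dist_eq, sub_zero, hT0] using h3
  have hmemT : ∀ g : H, MemLp (fun x => T (J g x)) 2 ν := fun g =>
    (Lp.memLp (J g)).mono (hT.continuous.comp_aestronglyMeasurable (Lp.aestronglyMeasurable (J g)))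
      (Eventually.of_forall fun x => hTle _)
  have hmem := hmemT G
  have hconv : Tendsto (fun n => J (b n)) atTop (𝓝 (hmem.toLp (fun x => T (J G x)))) := by
    rw [tendsto_iff_norm_sub_tendsto_zero]
    have hb : ∀ n : ℕ, ‖J (b n) - hmem.toLp (fun x => T (J G x))‖ ≤
        1 / ((n : ℝ) + 1) + ‖J (a n - G)‖ := by
      intro n
      have e1 : ‖J (b n) - (hmemT (a n)).toLp _‖ ≤ 1 / ((n : ℝ) + 1) := by
        rw [Lp.norm_def]
        apply ENNReal.toReal_le_of_le_ofReal (by positivity)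
        refine le_trans (le_of_eq ?_) (happ n)
        apply eLpNorm_congr_ae
        filter_upwards [Lp.coeFn_sub (J (b n)) ((hmemT (a n)).toLp _),
          MemLp.coeFn_toLp (hmemT (a n))] with x h1 h2
        rw [h1, Pi.sub_apply, h2]
      have e2 : ‖(hmemT (a n)).toLp _ - hmem.toLp (fun x => T (J G x))‖ ≤ ‖J (a n - G)‖ := by
        apply Lp.norm_le_norm_of_ae_le
        rw [map_sub]
        filter_upwards [Lp.coeFn_sub ((hmemT (a n)).toLp _) (hmem.toLp (fun x => T (J G x))),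
          Lp.coeFn_sub (J (a n)) (J G), MemLp.coeFn_toLp hmem, MemLp.coeFn_toLp (hmemT (a n))]
          with x e1 e2 e3 e4
        rw [e1, Pi.sub_apply, e2, Pi.sub_apply, e3, e4]
        have h3 := hT.dist_le_mul (J (a n) x) (J G x)
        simpa only [NNReal.coe_one, one_mul, dist_eq_norm] using h3
      calc ‖J (b n) - hmem.toLp (fun x => T (J G x))‖
          ≤ ‖J (b n) - (hmemT (a n)).toLp _‖ + ‖(hmemT (a n)).toLp _ - hmem.toLp _‖ :=
            norm_sub_le_norm_sub_add_norm_sub _ _ _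
        _ ≤ _ := add_le_add e1 e2
    have hlim : Tendsto (fun n : ℕ => 1 / ((n : ℝ) + 1) + ‖J (a n - G)‖) atTop (𝓝 0) := by
      have l1 : Tendsto (fun n : ℕ => ‖J (a n - G)‖) atTop (𝓝 0) := by
        have := (J.continuous.tendsto (G - G)).comp (ha.sub_const G)
        have := this.norm
        simpa using this
      have := tendsto_one_div_add_atTop_nhds_zero_nat.add l1
      simpa using this
    exact squeeze_zero (fun n => norm_nonneg _) hb hlim
  rw [weak_limit_map hw J hconv]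
  exact MemLp.coeFn_toLp hmem

/-- a bound by a small constant on a compact set is small in `L^2` -/
theorem exists_eps {φ : EE N → ℝ} (hφ : IsTest Ω φ) (n : ℕ) :
    ∃ ε : ℝ, 0 < ε ∧ ∀ f : EE N → ℝ, (∀ᵐ x, |f x| ≤ (tsupport φ).indicator (fun _ => ε) x) →
      eLpNorm f 2 volume ≤ ENNReal.ofReal (1 / ((n : ℝ) + 1)) := by
  have hK : volume (tsupport φ) ≠ ∞ := (IsCompact.measure_lt_top hφ.2.1).ne
  set V : ℝ := ((volume (tsupport φ)) ^ (1 / (2 : ℝ≥0∞).toReal)).toReal with hV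
  have hVt : (volume (tsupport φ)) ^ (1 / (2 : ℝ≥0∞).toReal) ≠ ∞ :=
    ENNReal.rpow_ne_top_of_nonneg (by simp) hK
  have hV0 : 0 ≤ V := ENNReal.toReal_nonneg
  refine ⟨1 / (((n : ℝ) + 1) * (V + 1)), by positivity, fun f hf => ?_⟩
  set ε : ℝ := 1 / (((n : ℝ) + 1) * (V + 1)) with hε
  have hε0 : 0 < ε := by positivity
  have h1 : eLpNorm f 2 volume ≤ eLpNorm ((tsupport φ).indicator (fun _ => ε)) 2 volume := by
    apply eLpNorm_mono_ae
    filter_upwards [hf] with x hx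
    rw [Real.norm_eq_abs, Real.norm_eq_abs]
    exact hx.trans (le_abs_self _)
  refine h1.trans ?_
  have hm : MeasurableSet (tsupport φ) := (isClosed_tsupport φ).measurableSet
  rw [eLpNorm_indicator_const hm (by norm_num) (by norm_num), Real.enorm_of_nonneg hε0.le,
    ← ENNReal.ofReal_toReal hVt, ← ENNReal.ofReal_mul hε0.le]
  apply ENNReal.ofReal_le_ofReal
  rw [← hV, hε]
  calc 1 / (((n : ℝ) + 1) * (V + 1)) * V ≤ 1 / (((n : ℝ) + 1) * (V + 1)) * (V + 1) := by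
        gcongr; linarith
    _ = _ := by field_simp

theorem hs_cut' (hP : Poin Ω) (J0 : HS Ω →L[ℝ] L2f N) (hJ0 : ∀ G, J0 G = prim G)
    (hc : CompleteSpace (HS Ω)) (u : HS Ω) (k : ℝ) (hk : 0 ≤ k) :
    ∃ w : HS Ω, (J0 w =ᵐ[volume] fun x => max (J0 u x - k) 0) ∧ ‖w‖ ^ 2 ≤ ⟪u, w⟫_ℝ := by
  obtain ⟨φ, hφ, h1, h2⟩ := exists_seq u
  choose e he hes using fun n => exists_eps (hφ n) n
  set a : ℕ → HS Ω := fun n => gH (hφ n) with ha
  set b : ℕ → HS Ω := fun n => gH (isTest_cut (hφ n) (he n) hk) with hb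
  have hin : ∀ n, ‖b n‖ ^ 2 ≤ ⟪a n, b n⟫_ℝ := fun n => cut_ineq (hφ n) (he n) hk
  have hle : ∀ n, ‖b n‖ ≤ ‖a n‖ := by
    intro n
    have e1 := hin n
    have e2 := real_inner_le_norm (a n) (b n)
    by_contra hcon
    push Not at hcon
    have e3 : 0 ≤ ‖a n‖ := norm_nonneg _
    nlinarith
  obtain ⟨R, hR⟩ : ∃ R, ∀ n, ‖a n‖ ≤ R := by
    obtain ⟨R, hR⟩ := (h1.norm).bddAbove_range
    exact ⟨R, fun n => hR ⟨n, rfl⟩⟩
  obtain ⟨w, hw⟩ := exists_weak_limit b (R := R) fun n => (hle n).trans (hR n)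
  refine ⟨w, ?_, ?_⟩
  · apply limit_proc' J0 (fun t => max (t - k) 0) _ (by simp [hk]) a b u h1 _ hw
    · apply LipschitzWith.of_dist_le_mul
      intro s t
      rw [NNReal.coe_one, one_mul, Real.dist_eq, Real.dist_eq]
      have := abs_max_sub_max_le_abs (s - k) (t - k) 0
      simpa using this
    · intro n
      apply hes n
      filter_upwards [J_gH' hP J0 hJ0 (hφ n), J_gH' hP J0 hJ0 (isTest_cut (hφ n) (he n) hk)]
        with x e1 e2
      rw [e1, e2]
      by_cases hx : x ∈ tsupport (φ n)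
      · rw [Set.indicator_of_mem hx]
        exact hsm_abs (he n)
      · rw [Set.indicator_of_notMem hx, image_eq_zero_of_notMem_tsupport hx,
          hsm_nonpos (he n) (by linarith), max_eq_right (by linarith)]
        simp
  · have h5 : ‖w‖ ^ 2 - ⟪u, w⟫_ℝ ≤ 0 := by
      apply weak_limit_mem hw (F := fun y : HS Ω => ‖y‖ ^ 2 - ⟪u, y⟫_ℝ) (convexOn_F u)
      · fun_prop
      · intro ε hε
        have e1 : Tendsto (fun n => ‖a n - u‖ * R) atTop (𝓝 (0 * R)) :=
          (tendsto_iff_norm_sub_tendsto_zero.mp h1).mul_const R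
        rw [zero_mul] at e1
        filter_upwards [e1.eventually (gt_mem_nhds hε)] with n hn
        have e2 := hin n
        have e3 : ⟪a n, b n⟫_ℝ - ⟪u, b n⟫_ℝ = ⟪a n - u, b n⟫_ℝ := by rw [inner_sub_left]
        have e4 := real_inner_le_norm (a n - u) (b n)
        have e5 : ‖a n - u‖ * ‖b n‖ ≤ ‖a n - u‖ * R := by
          gcongr
          exact (hle n).trans (hR n)
        linarith
    linarith

theorem hs_sob' (hP : Poin Ω) {r : ℝ} {c : ℝ≥0}
    (hS : ∀ φ, IsTest Ω φ → eLpNorm φ (ENNReal.ofReal r) volume ≤ c * eLpNorm (fderiv ℝ φ) 2 volume) :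
    ∃ C : ℝ, 0 < C ∧ ∀ G : HS Ω, eLpNorm (prim G) (ENNReal.ofReal r) volume ≤
      ENNReal.ofReal (C * ‖G‖) := by
  refine ⟨c + 1, by positivity, fun G => ?_⟩
  obtain ⟨φ, hφ, h1, h2⟩ := exists_seq G
  have h3 := (tendstoInMeasure_of_tendsto_Lp h2).exists_seq_tendsto_ae
  obtain ⟨ns, hns, hae⟩ := h3
  have hb : ∀ n, eLpNorm (fL (hφ n)) (ENNReal.ofReal r) volume ≤
      ENNReal.ofReal ((c + 1) * ‖gH (hφ n)‖) := by
    intro n
    rw [eLpNorm_congr_ae (fL_coe (hφ n))]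
    refine (hS (φ n) (hφ n)).trans ?_
    rw [eLpNorm_eq_gL (hφ n), ENNReal.ofReal_mul (by positivity)]
    have e1 : ‖gH (hφ n)‖ = ‖gL (hφ n)‖ := rfl
    rw [e1]
    gcongr
    rw [← ENNReal.ofReal_coe_nnreal]
    exact ENNReal.ofReal_le_ofReal (by linarith)
  have h4 := Lp.eLpNorm_lim_le_liminf_eLpNorm (p := ENNReal.ofReal r)
    (fun n => (Lp.aestronglyMeasurable (fL (hφ (ns n))))) (prim G) hae
  refine h4.trans ?_
  have h5 : Tendsto (fun n => ENNReal.ofReal ((c + 1) * ‖gH (hφ (ns n))‖)) atTop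
      (𝓝 (ENNReal.ofReal ((c + 1) * ‖G‖))) := by
    apply (ENNReal.continuous_ofReal.tendsto _).comp
    exact (h1.norm.comp hns.tendsto_atTop).const_mul _
  rw [← h5.liminf_eq]
  exact liminf_le_liminf (Eventually.of_forall fun n => hb (ns n))

/-- compactness of the embedding -/
theorem hs_comp' {q : ℝ} (hq : 2 < q) (hq' : ((N : ℝ) - 2) * q < 2 * N) (hΩ : QAdm q Ω)
    (J0 : HS Ω →L[ℝ] L2f N) (hJ0 : ∀ G, J0 G = prim G) : IsCompactOperator J0 := by
  rw [isCompactOperator_iff_exists_mem_nhds_isCompact_closure_image]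
  refine ⟨ball 0 1, ball_mem_nhds _ one_pos, ?_⟩
  apply IsSeqCompact.isCompact
  intro y hy
  -- approximation by test functions
  have happ : ∀ n : ℕ, ∃ (φ : EE N → ℝ) (hφ : IsTest Ω φ), en φ ≤ 1 ∧
      ‖fL hφ - y n‖ ≤ 1 / ((n : ℝ) + 1) := by
    intro n
    obtain ⟨_, ⟨G, hG, rfl⟩, h2⟩ := Metric.mem_closure_iff.1 (hy n) (1 / ((n : ℝ) + 1) / 2)
      (by positivity)
    obtain ⟨φ, hφ, h3, h4⟩ := exists_seq G
    have e1 := (tendsto_iff_norm_sub_tendsto_zero.mp h4).eventually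
      (gt_mem_nhds (show 0 < 1 / ((n : ℝ) + 1) / 2 by positivity))
    rw [mem_ball_zero_iff] at hG
    have e2 := (h3.norm).eventually (gt_mem_nhds hG)
    obtain ⟨m, hm1, hm2⟩ := (e1.and e2).exists
    refine ⟨φ m, hφ m, ?_, ?_⟩
    · rw [← norm_gL_sq (hφ m)]
      have : ‖gL (hφ m)‖ < 1 := hm2
      nlinarith [norm_nonneg (gL (hφ m))]
    · rw [dist_eq_norm, hJ0] at h2
      calc ‖fL (hφ m) - y n‖ ≤ ‖fL (hφ m) - prim G‖ + ‖prim G - y n‖ :=
            norm_sub_le_norm_sub_add_norm_sub _ _ _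
        _ ≤ _ := by
          rw [norm_sub_rev (prim G)]
          linarith
  choose φ hφ hE hd using happ
  obtain ⟨ns, hns, hcau⟩ := comp_two hq hq' hΩ φ hφ hE
  have hc : CauchySeq (fun j => fL (hφ (ns j))) := by
    rw [Metric.cauchySeq_iff]
    intro ε hε
    obtain ⟨n0, hn0⟩ := hcau (ε ^ 2 / 4) (by positivity)
    refine ⟨n0, fun j hj k hk => ?_⟩
    have h1 := hn0 j hj k hk
    have h2 : ‖fL (hφ (ns j)) - fL (hφ (ns k))‖ ^ 2 =
        A1.sq (fun x => φ (ns j) x - φ (ns k) x) := by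
      rw [← norm_fL_sq (isTest_sub (hφ (ns j)) (hφ (ns k)))]
      congr 2
    rw [dist_eq_norm]
    rw [← h2] at h1
    have h3 : ‖fL (hφ (ns j)) - fL (hφ (ns k))‖ ≤ ε / 2 := by
      apply le_of_sq_le_sq _ (by positivity)
      refine h1.trans (le_of_eq ?_)
      ring
    linarith
  obtain ⟨z, hz⟩ := cauchySeq_tendsto_of_complete hc
  have hyz : Tendsto (fun j => y (ns j)) atTop (𝓝 z) := by
    have h1 : Tendsto (fun j => fL (hφ (ns j)) - y (ns j)) atTop (𝓝 0) := by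
      rw [tendsto_zero_iff_norm_tendsto_zero]
      refine squeeze_zero (fun n => norm_nonneg _) (fun n => hd (ns n)) ?_
      exact tendsto_one_div_add_atTop_nhds_zero_nat.comp hns.tendsto_atTop
    have h2 := hz.sub h1
    simpa using h2
  exact ⟨z, isClosed_closure.mem_of_tendsto hyz (Eventually.of_forall fun j => hy (ns j)), ns, hns, hyz⟩

end Pool.Agent.H456R3.Q.B1
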