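import Pool.Agent.H456R3.Q.B1
set_option autoImplicit false
set_option linter.unusedSectionVars false
set_option linter.unusedVariables false
open MeasureTheory Metric Set Filter Topology
open scoped ENNReal NNReal InnerProductSpace

namespace Pool.Agent.H456R3.Q.B2

open Pool.Agent.Helper420.QI (Dir)
open Pool.Agent.Helper420.QI
open Pool.Agent.Helper420.QI.QEig Pool.Agent.Helper420.QI.Sob Pool.Agent.Helper420.QI.Conc
open Pool.Agent.H456R3.Q.A1 Pool.Agent.H456R3.Q.B1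

variable {N : ℕ} {Ω : Set (EE N)}

theorem grad_cont {w : EE N → ℝ} (hw : ContDiff ℝ ((⊤ : ℕ∞) : WithTop ℕ∞) w) :
    Continuous (gradient w) :=
  (LinearIsometryEquiv.continuous _).comp (hw.continuous_fderiv (by simp))

theorem grad_mul {φ w : EE N → ℝ} (hφ : ContDiff ℝ ((⊤ : ℕ∞) : WithTop ℕ∞) φ)
    (hw : ContDiff ℝ ((⊤ : ℕ∞) : WithTop ℕ∞) w) (x : EE N) :
    gradient (fun x => φ x * w x) x = w x • gradient φ x + φ x • gradient w x := by
  rw [gradient, fderiv_mul' hφ hw, map_add, add_comm]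
  congr 1
  · rw [gradient, map_smul]
  · rw [gradient, map_smul]

/-- multiplication of elements of the Hilbert space by smooth bounded functions -/
theorem mul_mem (hP : Poin Ω) {w : EE N → ℝ} (hw : ContDiff ℝ ((⊤ : ℕ∞) : WithTop ℕ∞) w)
    {M : ℝ} (hM : ∀ x, |w x| ≤ M) (hM' : ∀ x, ‖gradient w x‖ ≤ M) (u : HS Ω) :
    ∃ v : HS Ω, (prim v =ᵐ[volume] fun x => w x * prim u x) ∧
      ((v : L2v N) =ᵐ[volume] fun x => w x • (u : L2v N) x + prim u x • gradient w x) := by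
  have m1 : MemLp w ∞ (volume : Measure (EE N)) :=
    memLp_top_of_bound hw.continuous.aestronglyMeasurable M (Eventually.of_forall fun x => hM x)
  have m2 : MemLp (gradient w) ∞ (volume : Measure (EE N)) :=
    memLp_top_of_bound (grad_cont hw).aestronglyMeasurable M (Eventually.of_forall fun x => hM' x)
  set wL : Lp ℝ ∞ (volume : Measure (EE N)) := m1.toLp w with hwL
  set gL' : Lp (EE N) ∞ (volume : Measure (EE N)) := m2.toLp (gradient w) with hgL'
  have cw : wL =ᵐ[volume] w := m1.coeFn_toLp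
  have cg : gL' =ᵐ[volume] gradient w := m2.coeFn_toLp
  set A : L2f N →L[ℝ] L2f N :=
    (ContinuousLinearMap.lsmul ℝ ℝ : ℝ →L[ℝ] ℝ →L[ℝ] ℝ).holderL volume ∞ 2 2 wL with hA
  set B : L2v N →L[ℝ] L2v N :=
    (ContinuousLinearMap.lsmul ℝ ℝ : ℝ →L[ℝ] EE N →L[ℝ] EE N).holderL volume ∞ 2 2 wL with hB
  set D : L2f N →L[ℝ] L2v N :=
    (ContinuousLinearMap.lsmul ℝ ℝ : ℝ →L[ℝ] EE N →L[ℝ] EE N).flip.holderL volume ∞ 2 2 gL' with hD
  have cA : ∀ f : L2f N, A f =ᵐ[volume] fun x => w x * f x := by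
    intro f
    have h1 := (ContinuousLinearMap.lsmul ℝ ℝ : ℝ →L[ℝ] ℝ →L[ℝ] ℝ).coeFn_holder (r := 2) wL f
    filter_upwards [h1, cw] with x e1 e2
    have e3 : A f = (ContinuousLinearMap.lsmul ℝ ℝ : ℝ →L[ℝ] ℝ →L[ℝ] ℝ).holder 2 wL f := rfl
    rw [e3, e1, e2]
    rfl
  have cB : ∀ f : L2v N, B f =ᵐ[volume] fun x => w x • f x := by
    intro f
    have h1 := (ContinuousLinearMap.lsmul ℝ ℝ : ℝ →L[ℝ] EE N →L[ℝ] EE N).coeFn_holder (r := 2) wL f
    filter_upwards [h1, cw] with x e1 e2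
    have e3 : B f = (ContinuousLinearMap.lsmul ℝ ℝ : ℝ →L[ℝ] EE N →L[ℝ] EE N).holder 2 wL f := rfl
    rw [e3, e1, e2]
    rfl
  have cD : ∀ f : L2f N, D f =ᵐ[volume] fun x => f x • gradient w x := by
    intro f
    have h1 := (ContinuousLinearMap.lsmul ℝ ℝ : ℝ →L[ℝ] EE N →L[ℝ] EE N).flip.coeFn_holder
      (r := 2) gL' f
    filter_upwards [h1, cg] with x e1 e2
    have e3 : D f = (ContinuousLinearMap.lsmul ℝ ℝ : ℝ →L[ℝ] EE N →L[ℝ] EE N).flip.holder 2 gL' f := rfl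
    rw [e3, e1, e2]
    rfl
  have key : ∀ p ∈ DD Ω, (A p.1, B p.2 + D p.1) ∈ DD Ω := by
    intro p hp
    apply DD_induction (P := fun p => (A p.1, B p.2 + D p.1) ∈ DD Ω) _ _ hp
    · have hcont : Continuous (fun p : L2f N × L2v N => (A p.1, B p.2 + D p.1)) := by fun_prop
      exact (DD_closed Ω).preimage hcont
    · intro φ hφ
      have ht := isTest_mul hφ hw
      have e1 : A (fL hφ) = fL ht := by
        apply Lp.ext
        filter_upwards [cA (fL hφ), fL_coe hφ, fL_coe ht] with x a1 a2 a3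
        rw [a1, a2, a3]; ring
      have e2 : B (gL hφ) + D (fL hφ) = gL ht := by
        apply Lp.ext
        filter_upwards [Lp.coeFn_add (B (gL hφ)) (D (fL hφ)), cB (gL hφ), cD (fL hφ), fL_coe hφ,
          gL_coe hφ, gL_coe ht] with x a1 a2 a3 a4 a5 a6
        rw [a1, Pi.add_apply, a2, a3, a4, a5, a6, grad_mul hφ.1 hw]
      show (A (fL hφ), B (gL hφ) + D (fL hφ)) ∈ DD Ω
      rw [e1, e2]
      exact subset_closure (mem_PS ht)
  have h1 := key _ (prim_mem u)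
  refine ⟨⟨B (u : L2v N) + D (prim u), mem_HS.mpr ⟨_, h1⟩⟩, ?_, ?_⟩
  · have h2 : prim (⟨B (u : L2v N) + D (prim u), mem_HS.mpr ⟨_, h1⟩⟩ : HS Ω) = A (prim u) :=
      DD_unique' hP (prim_mem _) h1
    rw [h2]
    exact cA _
  · show (B (u : L2v N) + D (prim u) : L2v N) =ᵐ[volume] _
    filter_upwards [Lp.coeFn_add (B (u : L2v N)) (D (prim u)), cB (u : L2v N), cD (prim u)]
      with x a1 a2 a3
    rw [a1, Pi.add_apply, a2, a3]

/-- the basic identity with weights -/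
theorem weight_id (hP : Poin Ω) {w : EE N → ℝ} (hw : ContDiff ℝ ((⊤ : ℕ∞) : WithTop ℕ∞) w)
    {M : ℝ} (hM : ∀ x, |w x| ≤ M) (hM' : ∀ x, ‖gradient w x‖ ≤ M) (u : HS Ω) :
    ∃ a b : HS Ω, (prim a =ᵐ[volume] fun x => w x * prim u x) ∧
      (prim b =ᵐ[volume] fun x => w x ^ 2 * prim u x) ∧
      ‖a‖ ^ 2 = ⟪u, b⟫_ℝ + ∫ x, (prim u x) ^ 2 * ‖gradient w x‖ ^ 2 := by
  have hM0 : 0 ≤ M := (abs_nonneg _).trans (hM 0)
  obtain ⟨a, ha1, ha2⟩ := mul_mem hP hw hM hM' u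
  have hw2 : ContDiff ℝ ((⊤ : ℕ∞) : WithTop ℕ∞) (fun x => w x * w x) := hw.mul hw
  have hg2 : ∀ x, gradient (fun x => w x * w x) x = (2 * w x) • gradient w x := by
    intro x
    rw [grad_mul hw hw, ← add_smul]; congr 1; ring
  obtain ⟨b, hb1, hb2⟩ := mul_mem hP hw2 (M := 2 * M ^ 2) (by
      intro x
      rw [abs_mul]
      have := mul_le_mul (hM x) (hM x) (abs_nonneg _) hM0
      nlinarith) (by
      intro x
      rw [hg2, norm_smul, Real.norm_eq_abs, abs_mul, abs_two]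
      have := mul_le_mul (hM x) (hM' x) (norm_nonneg _) hM0
      nlinarith) u
  refine ⟨a, b, ha1, ?_, ?_⟩
  · filter_upwards [hb1] with x hx
    rw [hx]; ring
  · have e1 : ‖a‖ ^ 2 = ∫ x, ⟪(a : L2v N) x, (a : L2v N) x⟫_ℝ := by
      rw [← real_inner_self_eq_norm_sq, Submodule.coe_inner, L2.inner_def]
    have e2 : ⟪u, b⟫_ℝ = ∫ x, ⟪(u : L2v N) x, (b : L2v N) x⟫_ℝ := by
      rw [Submodule.coe_inner, L2.inner_def]
    rw [e1, e2, ← integral_add]
    · apply integral_congr_ae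
      filter_upwards [ha2, hb2] with x h1 h2
      rw [h1, h2, hg2]
      simp only [inner_add_left, inner_add_right, inner_smul_left, inner_smul_right,
        RCLike.conj_to_real, real_inner_self_eq_norm_sq, real_inner_comm (gradient w x)]
      ring
    · exact L2.integrable_inner _ _
    · have h1 : MemLp (prim u) 2 volume := Lp.memLp _
      have h2 := h1.integrable_sq
      refine (h2.mul_const (M ^ 2)).mono' ?_ (Eventually.of_forall fun x => ?_)
      · exact (h1.1.pow 2).mul ((grad_cont hw).norm.pow 2).aestronglyMeasurable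
      · rw [Real.norm_of_nonneg (by positivity)]
        exact mul_le_mul_of_nonneg_left (pow_le_pow_left₀ (norm_nonneg _) (hM' x) 2) (by positivity)

/-- one variable profile of the weights -/
noncomputable def prof (c : ℝ) (k : ℕ) (t : ℝ) : ℝ := (t * c / (c + t)) ^ k

theorem prof_nonneg {c t : ℝ} (hc : 0 < c) (ht : 0 ≤ t) (k : ℕ) : 0 ≤ prof c k t := by
  unfold prof; positivity

theorem prof_le {c t : ℝ} (hc : 0 < c) (ht : 0 ≤ t) (k : ℕ) : prof c k t ≤ t ^ k := by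
  unfold prof
  refine pow_le_pow_left₀ (by positivity) ?_ k
  rw [div_le_iff₀ (by positivity)]
  nlinarith [mul_nonneg ht ht]

theorem prof_le' {c t : ℝ} (hc : 0 < c) (ht : 0 ≤ t) (k : ℕ) : prof c k t ≤ c ^ k := by
  unfold prof
  refine pow_le_pow_left₀ (by positivity) ?_ k
  rw [div_le_iff₀ (by positivity)]
  nlinarith [mul_nonneg hc.le hc.le]

theorem prof_deriv {c t : ℝ} (hc : 0 < c) (ht : 0 < t) (k : ℕ) :
    ∃ d : ℝ, HasDerivAt (prof c k) d t ∧ |d| * t ≤ k * prof c k t := by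
  have hct : c + t ≠ 0 := by positivity
  have h1 : HasDerivAt (fun t : ℝ => t * c / (c + t)) (c ^ 2 / (c + t) ^ 2) t := by
    have e1 : HasDerivAt (fun t : ℝ => t * c) c t := by
      simpa using (hasDerivAt_id t).mul_const c
    have e2 : HasDerivAt (fun t : ℝ => c + t) 1 t := by
      simpa using (hasDerivAt_id t).const_add c
    have := e1.div e2 hct
    refine this.congr_deriv ?_
    congr 1
    ring
  have h2 := h1.pow k
  refine ⟨_, h2, ?_⟩
  rcases Nat.eq_zero_or_pos k with h0 | h0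
  · rw [h0]; simp
  · have e3 : 0 ≤ t * c / (c + t) := by positivity
    rw [abs_of_nonneg (by positivity)]
    unfold prof
    have e4 : c ^ 2 / (c + t) ^ 2 * t ≤ t * c / (c + t) := by
      rw [div_mul_eq_mul_div, div_le_div_iff₀ (by positivity) (by positivity)]
      have : 0 ≤ c * t * t * (c + t) := by positivity
      nlinarith
    have e5 : (t * c / (c + t)) ^ k = (t * c / (c + t)) ^ (k - 1) * (t * c / (c + t)) := by
      rw [← pow_succ]; congr 1; omega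
    rw [e5]
    calc (k : ℝ) * (t * c / (c + t)) ^ (k - 1) * (c ^ 2 / (c + t) ^ 2) * t
        = (k : ℝ) * ((t * c / (c + t)) ^ (k - 1) * (c ^ 2 / (c + t) ^ 2 * t)) := by ring
      _ ≤ (k : ℝ) * ((t * c / (c + t)) ^ (k - 1) * (t * c / (c + t))) := by gcongr

/-- the weights -/
noncomputable def wt (N k n : ℕ) (x : EE N) : ℝ := prof ((n : ℝ) + 1) k (1 + ‖x‖ ^ 2)

theorem wt_contDiff (k n : ℕ) : ContDiff ℝ ((⊤ : ℕ∞) : WithTop ℕ∞) (wt N k n) := by
  unfold wt prof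
  have h1 : ContDiff ℝ ((⊤ : ℕ∞) : WithTop ℕ∞) (fun x : EE N => 1 + ‖x‖ ^ 2) :=
    contDiff_const.add (contDiff_norm_sq ℝ)
  refine ContDiff.pow ?_ k
  refine (h1.mul contDiff_const).div (contDiff_const.add h1) ?_
  intro x
  positivity

theorem wt_nonneg (k n : ℕ) (x : EE N) : 0 ≤ wt N k n x :=
  prof_nonneg (by positivity) (by positivity) k

theorem wt_grad (k n : ℕ) (x : EE N) :
    ‖gradient (wt N k n) x‖ * (1 + ‖x‖ ^ 2) ≤ 2 * k * ‖x‖ * wt N k n x := by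
  have hpos : 0 < 1 + ‖x‖ ^ 2 := by positivity
  obtain ⟨d, hd, hd2⟩ := prof_deriv (c := (n : ℝ) + 1) (t := 1 + ‖x‖ ^ 2) (by positivity) hpos k
  have h1 : HasFDerivAt (fun x : EE N => 1 + ‖x‖ ^ 2) (2 • (innerSL ℝ x)) x :=
    (hasStrictFDerivAt_norm_sq x).hasFDerivAt.const_add 1
  have h2 := hd.comp_hasFDerivAt x h1
  have h3 : fderiv ℝ (wt N k n) x = d • (2 • innerSL ℝ x) := h2.fderiv
  rw [gradient_norm, h3]
  have h4 : ‖d • (2 • innerSL ℝ x)‖ = |d| * (2 * ‖x‖) := by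
    rw [norm_smul, Real.norm_eq_abs, ← Nat.cast_smul_eq_nsmul ℝ, norm_smul]
    simp
  rw [h4]
  calc |d| * (2 * ‖x‖) * (1 + ‖x‖ ^ 2) = (|d| * (1 + ‖x‖ ^ 2)) * (2 * ‖x‖) := by ring
    _ ≤ (k * prof ((n : ℝ) + 1) k (1 + ‖x‖ ^ 2)) * (2 * ‖x‖) := by gcongr
    _ = _ := by unfold wt; ring

theorem wt_grad1 (k n : ℕ) (x : EE N) : ‖gradient (wt N k n) x‖ ≤ k * wt N k n x := by
  have h1 := wt_grad k n x
  have h2 := wt_nonneg k n x
  have h3 : 0 ≤ ‖gradient (wt N k n) x‖ := norm_nonneg _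
  have hpos : 0 < 1 + ‖x‖ ^ 2 := by positivity
  have h4 : 2 * ‖x‖ ≤ 1 + ‖x‖ ^ 2 := by nlinarith [sq_nonneg (‖x‖ - 1)]
  have h5 : 2 * k * ‖x‖ * wt N k n x ≤ (k * wt N k n x) * (1 + ‖x‖ ^ 2) := by
    have : 0 ≤ (k:ℝ) * wt N k n x := by positivity
    nlinarith
  exact le_of_mul_le_mul_right (h1.trans h5) hpos

theorem wt_grad2 (k n : ℕ) {ρ : ℝ} (hρ : 0 < ρ) (x : EE N) (hx : ρ ≤ ‖x‖) :
    ‖gradient (wt N k n) x‖ ≤ (2 * k / ρ) * wt N k n x := by
  have h1 := wt_grad k n x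
  have h2 := wt_nonneg k n x
  have hpos : 0 < 1 + ‖x‖ ^ 2 := by positivity
  have h5 : 2 * k * ‖x‖ * wt N k n x ≤ ((2 * k / ρ) * wt N k n x) * (1 + ‖x‖ ^ 2) := by
    have e1 : ‖x‖ ≤ (1 + ‖x‖ ^ 2) / ρ := by
      rw [le_div_iff₀ hρ]
      nlinarith [norm_nonneg x]
    calc 2 * k * ‖x‖ * wt N k n x ≤ 2 * k * ((1 + ‖x‖ ^ 2) / ρ) * wt N k n x := by gcongr
      _ = _ := by ring
  exact le_of_mul_le_mul_right (h1.trans h5) hpos

theorem wt_lim (k : ℕ) (x : EE N) :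
    Tendsto (fun n : ℕ => wt N k n x) atTop (𝓝 ((1 + ‖x‖ ^ 2) ^ k)) := by
  unfold wt prof
  set t : ℝ := 1 + ‖x‖ ^ 2 with ht
  have h1 : Tendsto (fun n : ℕ => t / (1 + t * (1 / ((n : ℝ) + 1)))) atTop
      (𝓝 (t / (1 + t * 0))) := by
    refine Tendsto.div tendsto_const_nhds ?_ (by simp)
    exact tendsto_const_nhds.add (tendsto_one_div_add_atTop_nhds_zero_nat.const_mul t)
  rw [mul_zero, add_zero, div_one] at h1
  refine (h1.congr fun n => ?_).pow k
  have ht0 : 0 < t := by positivity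
  field_simp

end Pool.Agent.H456R3.Q.B2
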