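import Pool.Agent.H456R3.Q.Energy
set_option autoImplicit false
set_option linter.unusedSectionVars false
set_option linter.unusedVariables false
open MeasureTheory Filter Topology Set
open scoped ENNReal NNReal InnerProductSpace
open Pool.Agent.Helper420.QI (Dir)
open Pool.Agent.H456R3.Q.Energy

namespace Pool.Agent.H456R3.Q

/-- the superlevel sets of solutions have measure growing slower than any negative power -/
def Dec {α : Type*} [MeasurableSpace α] {μ : Measure α}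
    {H : Type*} [NormedAddCommGroup H] [InnerProductSpace ℝ H]
    (J : H →L[ℝ] Lp ℝ 2 μ) (q : ℝ) : Prop :=
  ∀ u : H, (∀ φ : H, ⟪u, φ⟫_ℝ = ∫ x, |J u x| ^ (q - 2) * J u x * J φ x ∂μ) →
    ∀ s : ℝ, 0 < s → ∃ C : ℝ, 0 ≤ C ∧ ∀ t : ℝ, 0 < t → t ≤ 1 →
      μ.real {x | t < |J u x|} ≤ C * t ^ (-s)

theorem dec_abs {α : Type*} [MeasurableSpace α] {μ : Measure α}
    {H : Type*} [NormedAddCommGroup H] [InnerProductSpace ℝ H]
    {J : H →L[ℝ] Lp ℝ 2 μ} {q : ℝ} (hDec : Dec J q) {u v : H}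
    (hu : ∀ φ : H, ⟪u, φ⟫_ℝ = ∫ x, |J u x| ^ (q - 2) * J u x * J φ x ∂μ)
    (hv : J v =ᵐ[μ] fun x => |J u x|) :
    ∀ s : ℝ, 0 < s → ∃ C : ℝ, 0 ≤ C ∧ ∀ t : ℝ, 0 < t → t ≤ 1 →
      μ.real {x | t < J v x} ≤ C * t ^ (-s) := by
  intro s hs
  obtain ⟨C, hC, h⟩ := hDec u hu s hs
  refine ⟨C, hC, fun t ht ht1 => ?_⟩
  refine le_trans (le_of_eq ?_) (h t ht ht1)
  refine measureReal_congr ?_
  filter_upwards [hv] with x hx
  show (t < J v x) = (t < |J u x|)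
  rw [hx]

namespace V1

variable {α : Type*} [MeasurableSpace α] {μ : Measure α}
  {H : Type*} [NormedAddCommGroup H] [InnerProductSpace ℝ H] [CompleteSpace H]
  {J : H →L[ℝ] Lp ℝ 2 μ} {q r : ℝ}

section aux

theorem pow_eLp {f : α → ℝ} {s : ℝ} (hs : 0 < s) :
    eLpNorm f (ENNReal.ofReal s) μ ^ s = ∫⁻ x, ‖f x‖ₑ ^ s ∂μ := by
  rw [eLpNorm_eq_lintegral_rpow_enorm_toReal (by simpa using hs) ENNReal.ofReal_ne_top,
    ENNReal.toReal_ofReal hs.le, ← ENNReal.rpow_mul, one_div, inv_mul_cancel₀ hs.ne',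
    ENNReal.rpow_one]

theorem memq (hD : Dir μ J q r) (u : H) : MemLp (J u) (ENNReal.ofReal q) μ := by
  obtain ⟨C, hC, hs⟩ := hD.sob
  have h1 : MemLp (J u) (ENNReal.ofReal r) μ :=
    ⟨Lp.aestronglyMeasurable _, (hs u).trans_lt ENNReal.ofReal_lt_top⟩
  exact W1.memLp_q hD.two_lt hD.q_lt (Lp.memLp (J u)) h1

/-- the `L^q` norm of `J u` -/
noncomputable def NN (J : H →L[ℝ] Lp ℝ 2 μ) (q : ℝ) (u : H) : ℝ :=
  (eLpNorm (J u) (ENNReal.ofReal q) μ).toReal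

theorem NN_nonneg (u : H) : 0 ≤ NN J q u := ENNReal.toReal_nonneg

theorem one_le_q (hD : Dir μ J q r) : (1 : ℝ≥0∞) ≤ ENNReal.ofReal q := by
  rw [← ENNReal.ofReal_one]
  exact ENNReal.ofReal_le_ofReal (by linarith [hD.two_lt])

theorem NN_add (hD : Dir μ J q r) (u v : H) : NN J q (u + v) ≤ NN J q u + NN J q v := by
  unfold NN
  rw [← ENNReal.toReal_add (memq hD u).2.ne (memq hD v).2.ne]
  refine ENNReal.toReal_mono (ENNReal.add_ne_top.2 ⟨(memq hD u).2.ne, (memq hD v).2.ne⟩) ?_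
  rw [map_add, eLpNorm_congr_ae (Lp.coeFn_add (J u) (J v))]
  exact eLpNorm_add_le (Lp.aestronglyMeasurable _) (Lp.aestronglyMeasurable _) (one_le_q hD)

theorem NN_smul (c : ℝ) (u : H) : NN J q (c • u) = |c| * NN J q u := by
  unfold NN
  rw [map_smul, eLpNorm_congr_ae (Lp.coeFn_smul c (J u)), eLpNorm_const_smul, ENNReal.toReal_mul]
  simp

theorem NN_sub (hD : Dir μ J q r) (u v : H) : |NN J q u - NN J q v| ≤ NN J q (u - v) := by
  rw [abs_sub_le_iff]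
  constructor
  · have := NN_add hD (u - v) v
    rw [sub_add_cancel] at this
    linarith
  · have h1 := NN_add hD (v - u) u
    rw [sub_add_cancel] at h1
    have h2 : NN J q (v - u) = NN J q (u - v) := by
      rw [← neg_sub, ← neg_one_smul ℝ, NN_smul]; simp
    linarith

theorem NN_pow (hD : Dir μ J q r) (u : H) : NN J q u ^ q = ∫ x, |J u x| ^ q ∂μ := by
  have hq : 0 < q := by linarith [hD.two_lt]
  have h := (memq hD u).eLpNorm_eq_integral_rpow_norm (by simpa using hq) ENNReal.ofReal_ne_top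
  rw [ENNReal.toReal_ofReal hq.le] at h
  have hnn : 0 ≤ ∫ x, ‖J u x‖ ^ q ∂μ := integral_nonneg fun x => by positivity
  unfold NN
  rw [h, ENNReal.toReal_ofReal (by positivity), ← Real.rpow_mul hnn, inv_mul_cancel₀ hq.ne',
    Real.rpow_one]
  rfl

theorem interp (hD : Dir μ J q r) {C : ℝ} (hC : 0 < C)
    (hs : ∀ u : H, eLpNorm (J u) (ENNReal.ofReal r) μ ≤ ENNReal.ofReal (C * ‖u‖)) (u : H) :
    NN J q u ^ q ≤ (‖J u‖ ^ (2 : ℝ)) ^ ((r - q) / (r - 2)) *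
      ((C * ‖u‖) ^ r) ^ ((q - 2) / (r - 2)) := by
  have hq := hD.two_lt
  have hr := hD.q_lt
  have hq0 : 0 < q := by linarith
  have hr0 : 0 < r := by linarith
  have hr2 : 0 < r - 2 := by linarith
  have ht1 : 0 ≤ (r - q) / (r - 2) := div_nonneg (by linarith) (by linarith)
  have ht2 : 0 ≤ (q - 2) / (r - 2) := div_nonneg (by linarith) (by linarith)
  have hm : AEMeasurable (fun x => ‖J u x‖ₑ) μ := (Lp.aestronglyMeasurable (J u)).enorm
  have h1 : ∫⁻ x, ‖J u x‖ₑ ^ q ∂μ ≤ (∫⁻ x, ‖J u x‖ₑ ^ (2 : ℝ) ∂μ) ^ ((r - q) / (r - 2)) *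
      (∫⁻ x, ‖J u x‖ₑ ^ r ∂μ) ^ ((q - 2) / (r - 2)) := by
    have := ENNReal.lintegral_mul_norm_pow_le (μ := μ) (f := fun x => ‖J u x‖ₑ ^ (2 : ℝ))
      (g := fun x => ‖J u x‖ₑ ^ r) (hm.pow_const _) (hm.pow_const _) ht1 ht2
      (by field_simp; ring)
    refine le_trans (le_of_eq ?_) this
    refine lintegral_congr fun x => ?_
    rw [← ENNReal.rpow_mul, ← ENNReal.rpow_mul,
      ← ENNReal.rpow_add_of_nonneg _ _ (by positivity) (by positivity)]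
    congr 1
    field_simp
    ring
  have h2 : ∫⁻ x, ‖J u x‖ₑ ^ (2 : ℝ) ∂μ = ENNReal.ofReal (‖J u‖ ^ (2 : ℝ)) := by
    have h := pow_eLp (μ := μ) (f := J u) (s := 2) two_pos
    rw [← h]
    have h3 : eLpNorm (J u) (ENNReal.ofReal 2) μ = ENNReal.ofReal ‖J u‖ := by
      rw [Lp.norm_def, ENNReal.ofReal_toReal (Lp.eLpNorm_ne_top (J u))]
      congr 1
      simp
    rw [h3, ENNReal.ofReal_rpow_of_nonneg (norm_nonneg _) (by norm_num)]
  have h4 : ∫⁻ x, ‖J u x‖ₑ ^ r ∂μ ≤ ENNReal.ofReal ((C * ‖u‖) ^ r) := by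
    rw [← pow_eLp hr0, ← ENNReal.ofReal_rpow_of_nonneg (by positivity) hr0.le]
    exact ENNReal.rpow_le_rpow (hs u) hr0.le
  have h5 : eLpNorm (J u) (ENNReal.ofReal q) μ ^ q ≤ ENNReal.ofReal ((‖J u‖ ^ (2 : ℝ)) ^ ((r - q) / (r - 2)) *
      ((C * ‖u‖) ^ r) ^ ((q - 2) / (r - 2))) := by
    rw [pow_eLp hq0, ENNReal.ofReal_mul (by positivity),
      ← ENNReal.ofReal_rpow_of_nonneg (by positivity) ht1,
      ← ENNReal.ofReal_rpow_of_nonneg (by positivity) ht2, ← h2]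
    exact h1.trans (mul_le_mul_right (ENNReal.rpow_le_rpow h4 ht2) _)
  have h6 := ENNReal.toReal_le_of_le_ofReal (by positivity) h5
  unfold NN
  rwa [← ENNReal.toReal_rpow] at h6

theorem conv_pt {q : ℝ} (hq : 2 < q) (a b : ℝ) :
    |a| ^ q + q * (|a| ^ (q - 2) * a * b) ≤ |a + b| ^ q := by
  have hq1 : 0 < q - 1 := by linarith
  have hc : (q / (q - 1)).HolderConjugate q := by
    rw [Real.holderConjugate_comm]
    exact Real.HolderConjugate.conjExponent (by linarith)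
  have hy := Real.young_inequality_of_nonneg (a := |a| ^ (q - 1)) (b := |a + b|)
    (by positivity) (abs_nonneg _) hc
  have h1 : (|a| ^ (q - 1)) ^ (q / (q - 1)) = |a| ^ q := by
    rw [← Real.rpow_mul (abs_nonneg _)]
    congr 1
    field_simp
  rw [h1] at hy
  have h2 : |a| ^ (q - 2) * a * (a + b) ≤ |a| ^ (q - 1) * |a + b| := by
    calc |a| ^ (q - 2) * a * (a + b) ≤ |(|a| ^ (q - 2) * a * (a + b))| := le_abs_self _
      _ = |a| ^ (q - 2) * |a| * |a + b| := by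
        rw [abs_mul, abs_mul, abs_of_nonneg (Real.rpow_nonneg (abs_nonneg a) _)]
      _ = |a| ^ (q - 1) * |a + b| := by
        congr 1
        rcases eq_or_ne a 0 with rfl | ha
        · rw [abs_zero, Real.zero_rpow (by linarith), Real.zero_rpow (by linarith)]; simp
        · rw [← Real.rpow_add_one (abs_ne_zero.2 ha)]
          congr 1; ring
  have h3 : |a| ^ (q - 2) * a * a = |a| ^ q := by
    rcases eq_or_ne a 0 with rfl | ha
    · rw [abs_zero, Real.zero_rpow (by linarith), Real.zero_rpow (by linarith)]; simp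
    · rw [mul_assoc, ← abs_mul_abs_self a, ← mul_assoc, ← Real.rpow_add_one (abs_ne_zero.2 ha),
        ← Real.rpow_add_one (abs_ne_zero.2 ha)]
      congr 1; ring
  have h4 : |a| ^ (q - 2) * a * b ≤ |a| ^ q / (q / (q - 1)) + |a + b| ^ q / q - |a| ^ q := by
    have : |a| ^ (q - 2) * a * b = |a| ^ (q - 2) * a * (a + b) - |a| ^ (q - 2) * a * a := by ring
    rw [this, h3]
    linarith
  have h5 : q * (|a| ^ q / (q / (q - 1)) + |a + b| ^ q / q - |a| ^ q) = |a + b| ^ q - |a| ^ q := by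
    field_simp
    ring
  have h6 := mul_le_mul_of_nonneg_left h4 (by linarith : (0 : ℝ) ≤ q)
  linarith

theorem int_pow (hD : Dir μ J q r) (u : H) : Integrable (fun x => |J u x| ^ q) μ := by
  have hq : 0 < q := by linarith [hD.two_lt]
  have := (memq hD u).integrable_norm_rpow (by simpa using hq) ENNReal.ofReal_ne_top
  rw [ENNReal.toReal_ofReal hq.le] at this
  exact this

theorem mix_pt {q : ℝ} (hq : 2 < q) (a b : ℝ) : |(|a| ^ (q - 2) * a * b)| ≤ |a| ^ q + |b| ^ q := by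
  have hm : |(|a| ^ (q - 2) * a * b)| = |a| ^ (q - 2) * |a| * |b| := by
    rw [abs_mul, abs_mul, abs_of_nonneg (Real.rpow_nonneg (abs_nonneg a) _)]
  rw [hm]
  set m := max |a| |b| with hmdef
  have hm0 : 0 ≤ m := (abs_nonneg a).trans (le_max_left _ _)
  have h1 : |a| ^ (q - 2) * |a| * |b| ≤ m ^ (q - 2) * m * m := by
    gcongr
    · exact le_max_left _ _
    · exact le_max_left _ _
    · exact le_max_right _ _
  have h2 : m ^ (q - 2) * m * m = m ^ q := by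
    rcases eq_or_ne m 0 with h | h
    · rw [h, Real.zero_rpow (by linarith), Real.zero_rpow (by linarith)]; simp
    · rw [← Real.rpow_add_one h, ← Real.rpow_add_one h]; congr 1; ring
  have h3 : m ^ q ≤ |a| ^ q + |b| ^ q := by
    rcases max_choice |a| |b| with h | h
    · rw [hmdef, h]; have : 0 ≤ |b| ^ q := by positivity
      linarith
    · rw [hmdef, h]; have : 0 ≤ |a| ^ q := by positivity
      linarith
  linarith

theorem int_mix (hD : Dir μ J q r) (u v : H) :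
    Integrable (fun x => |J u x| ^ (q - 2) * J u x * J v x) μ := by
  have hm : AEStronglyMeasurable (fun x => |J u x| ^ (q - 2) * J u x * J v x) μ := by
    have h1 : AEMeasurable (fun x => J u x) μ := (Lp.aestronglyMeasurable (J u)).aemeasurable
    have h2 : AEMeasurable (fun x => J v x) μ := (Lp.aestronglyMeasurable (J v)).aemeasurable
    exact (((h1.norm.pow_const (q - 2)).mul h1).mul h2).aestronglyMeasurable
  refine ((int_pow hD u).add (int_pow hD v)).mono' hm (Filter.Eventually.of_forall fun x => ?_)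
  exact mix_pt hD.two_lt _ _

theorem EL (hD : Dir μ J q r) {l1 : ℝ} (hl : ∀ v : H, l1 * NN J q v ^ 2 ≤ ‖v‖ ^ 2) {w : H}
    (hw : NN J q w = 1) (hwl : ‖w‖ ^ 2 = l1) (φ : H) :
    ⟪w, φ⟫_ℝ = l1 * ∫ x, |J w x| ^ (q - 2) * J w x * J φ x ∂μ := by
  have hq := hD.two_lt
  have hq0 : 0 < q := by linarith
  set c := ∫ x, |J w x| ^ (q - 2) * J w x * J φ x ∂μ with hc
  have hl0 : 0 ≤ l1 := by rw [← hwl]; positivity
  have hI : ∀ t : ℝ, 1 + q * t * c ≤ NN J q (w + t • φ) ^ q := by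
    intro t
    have e1 : (1 : ℝ) = ∫ x, |J w x| ^ q ∂μ := by rw [← NN_pow hD, hw, Real.one_rpow]
    have e2 : 1 + q * t * c = ∫ x, (|J w x| ^ q + q * t * (|J w x| ^ (q - 2) * J w x * J φ x)) ∂μ := by
      rw [integral_add (int_pow hD w) ((int_mix hD w φ).const_mul _), integral_const_mul, ← e1]
    rw [e2, NN_pow hD]
    refine integral_mono_ae ((int_pow hD w).add ((int_mix hD w φ).const_mul _)) (int_pow hD _) ?_
    have h1 : J (w + t • φ) =ᵐ[μ] fun x => J w x + t * J φ x := by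
      rw [map_add, map_smul]
      filter_upwards [Lp.coeFn_add (J w) (t • J φ), Lp.coeFn_smul t (J φ)] with x hx hx'
      rw [hx, Pi.add_apply, hx', Pi.smul_apply, smul_eq_mul]
    filter_upwards [h1] with x hx
    show |J w x| ^ q + q * t * (|J w x| ^ (q - 2) * J w x * J φ x) ≤ |J (w + t • φ) x| ^ q
    rw [hx]
    have := conv_pt hq (J w x) (t * J φ x)
    calc |J w x| ^ q + q * t * (|J w x| ^ (q - 2) * J w x * J φ x) =
        |J w x| ^ q + q * (|J w x| ^ (q - 2) * J w x * (t * J φ x)) := by ring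
      _ ≤ _ := this
  let F : ℝ → ℝ := fun t => (‖w‖ ^ 2 + 2 * (t * ⟪w, φ⟫_ℝ) + t ^ 2 * ‖φ‖ ^ 2) -
    l1 * (1 + q * t * c) ^ (2 / q)
  have hF0 : F 0 = 0 := by
    simp [F, hwl]
  have hmin : IsLocalMin F 0 := by
    have hev : ∀ᶠ t in 𝓝 (0 : ℝ), 0 < 1 + q * t * c := by
      have : Continuous (fun t : ℝ => 1 + q * t * c) := by fun_prop
      exact (this.tendsto 0).eventually_const_lt (by simp)
    filter_upwards [hev] with t ht
    rw [hF0]
    have h1 : ‖w + t • φ‖ ^ 2 = ‖w‖ ^ 2 + 2 * (t * ⟪w, φ⟫_ℝ) + t ^ 2 * ‖φ‖ ^ 2 := by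
      rw [norm_add_sq_real, inner_smul_right, norm_smul, mul_pow, Real.norm_eq_abs, sq_abs]
    have h2 : (1 + q * t * c) ^ (2 / q) ≤ NN J q (w + t • φ) ^ 2 := by
      calc (1 + q * t * c) ^ (2 / q) ≤ (NN J q (w + t • φ) ^ q) ^ (2 / q) :=
            Real.rpow_le_rpow ht.le (hI t) (by positivity)
        _ = NN J q (w + t • φ) ^ 2 := by
            rw [← Real.rpow_mul (NN_nonneg _), mul_div_cancel₀ _ hq0.ne']
            norm_num
    have h3 := hl (w + t • φ)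
    have h4 := mul_le_mul_of_nonneg_left h2 hl0
    show 0 ≤ (‖w‖ ^ 2 + 2 * (t * ⟪w, φ⟫_ℝ) + t ^ 2 * ‖φ‖ ^ 2) - l1 * (1 + q * t * c) ^ (2 / q)
    rw [← h1]
    linarith
  have hder : HasDerivAt F ((0 + 2 * (1 * ⟪w, φ⟫_ℝ) + (2 * (0:ℝ) ^ 1 * 1) * ‖φ‖ ^ 2) -
      l1 * ((0 + q * 1 * c) * (2 / q) * (1 + q * 0 * c) ^ (2 / q - 1))) 0 := by
    have hid : HasDerivAt (fun t : ℝ => t) 1 0 := hasDerivAt_id 0
    have h1 : HasDerivAt (fun t : ℝ => ‖w‖ ^ 2 + 2 * (t * ⟪w, φ⟫_ℝ) + t ^ 2 * ‖φ‖ ^ 2)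
        (0 + 2 * (1 * ⟪w, φ⟫_ℝ) + (2 * (0:ℝ) ^ 1 * 1) * ‖φ‖ ^ 2) 0 := by
      refine ((hasDerivAt_const _ _).add ((hid.mul_const _).const_mul _)).add ?_
      exact (hid.pow 2).mul_const _
    have h2 : HasDerivAt (fun t : ℝ => 1 + q * t * c) (0 + q * 1 * c) 0 :=
      (hasDerivAt_const _ _).add ((hid.const_mul q).mul_const c)
    exact h1.sub ((h2.rpow_const (p := 2 / q) (Or.inl (by simp))).const_mul l1)
  have := hmin.hasDerivAt_eq_zero hder
  simp only [mul_zero, zero_mul, add_zero, Real.one_rpow, mul_one, one_mul, zero_add, pow_one] at this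
  have e : q * c * (2 / q) = 2 * c := by field_simp
  rw [e] at this
  linarith

theorem weak_lim (𝒰 : Ultrafilter ℕ) (u : ℕ → H) {K : ℝ} (hK : ∀ n, ‖u n‖ ≤ K) :
    ∃ u0 : H, ∀ φ : H, Tendsto (fun n => ⟪u n, φ⟫_ℝ) 𝒰 (𝓝 ⟪u0, φ⟫_ℝ) := by
  have hc := WeakDual.isCompact_closedBall (0 : StrongDual ℝ H) K
  let g : ℕ → WeakDual ℝ H := fun n => StrongDual.toWeakDual (InnerProductSpace.toDual ℝ H (u n))
  have hg : ((𝒰.map g : Ultrafilter (WeakDual ℝ H)) : Filter (WeakDual ℝ H)) ≤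
      𝓟 (WeakDual.toStrongDual ⁻¹' Metric.closedBall (0 : StrongDual ℝ H) K) := by
    rw [Filter.le_principal_iff]
    refine Filter.mem_map.2 (Filter.univ_mem' fun n => ?_)
    show WeakDual.toStrongDual (g n) ∈ Metric.closedBall (0 : StrongDual ℝ H) K
    rw [mem_closedBall_zero_iff]
    show ‖InnerProductSpace.toDual ℝ H (u n)‖ ≤ K
    rw [LinearIsometryEquiv.norm_map]
    exact hK n
  obtain ⟨x, -, hx⟩ := hc.ultrafilter_le_nhds _ hg
  refine ⟨(InnerProductSpace.toDual ℝ H).symm (WeakDual.toStrongDual x), fun φ => ?_⟩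
  rw [InnerProductSpace.toDual_symm_apply]
  have h1 : Tendsto g 𝒰 (𝓝 x) := hx
  exact ((WeakDual.eval_continuous φ).tendsto x).comp h1

end aux



theorem sub_conv (hD : Dir μ J q r) {l1 : ℝ}
    (hl : ∀ v : H, l1 * NN J q v ^ 2 ≤ ‖v‖ ^ 2) (u : ℕ → H) (hu1 : ∀ n, NN J q (u n) = 1)
    (hul : Tendsto (fun n => ‖u n‖ ^ 2) atTop (𝓝 l1)) (𝒰 : Ultrafilter ℕ)
    (h𝒰 : (𝒰 : Filter ℕ) ≤ atTop) :
    ∃ u0 : H, Tendsto u 𝒰 (𝓝 u0) ∧ NN J q u0 = 1 ∧ ‖u0‖ ^ 2 = l1 := by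
  obtain ⟨K, hK⟩ : ∃ K, ∀ n, ‖u n‖ ≤ K := by
    obtain ⟨K, hK⟩ := hul.bddAbove_range
    refine ⟨K + 1, fun n => ?_⟩
    have h1 : ‖u n‖ ^ 2 ≤ K := hK ⟨n, rfl⟩
    nlinarith [norm_nonneg (u n), sq_nonneg (‖u n‖ - 1)]
  obtain ⟨u0, hu0⟩ := weak_lim 𝒰 u hK
  -- strong convergence in `L²`
  have hJ : Tendsto (fun n => J (u n)) 𝒰 (𝓝 (J u0)) := by
    have hc : IsCompact (closure (J '' Metric.closedBall 0 K)) :=
      IsCompactOperator.isCompact_closure_image_closedBall (f := (J : H →ₗ[ℝ] Lp ℝ 2 μ)) hD.comp K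
    have hle : ((𝒰.map (fun n => J (u n)) : Ultrafilter (Lp ℝ 2 μ)) : Filter (Lp ℝ 2 μ)) ≤
        𝓟 (closure (J '' Metric.closedBall 0 K)) := by
      rw [Filter.le_principal_iff]
      refine Filter.mem_map.2 (Filter.univ_mem' fun n => ?_)
      exact subset_closure ⟨u n, by rw [mem_closedBall_zero_iff]; exact hK n, rfl⟩
    obtain ⟨y, -, hy⟩ := hc.ultrafilter_le_nhds _ hle
    have hy' : Tendsto (fun n => J (u n)) 𝒰 (𝓝 y) := hy
    have : y = J u0 := by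
      refine ext_inner_right ℝ fun g => ?_
      have h1 : Tendsto (fun n => ⟪J (u n), g⟫_ℝ) 𝒰 (𝓝 ⟪y, g⟫_ℝ) :=
        hy'.inner tendsto_const_nhds
      have h2 : Tendsto (fun n => ⟪J (u n), g⟫_ℝ) 𝒰 (𝓝 ⟪J u0, g⟫_ℝ) := by
        have := hu0 (ContinuousLinearMap.adjoint J g)
        simpa only [ContinuousLinearMap.adjoint_inner_right] using this
      exact tendsto_nhds_unique h1 h2
    rwa [this] at hy'
  obtain ⟨C, hC, hs⟩ := hD.sob
  have hq := hD.two_lt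
  have hr := hD.q_lt
  have hq0 : 0 < q := by linarith
  -- strong convergence in `L^q`
  have hN : Tendsto (fun n => NN J q (u n - u0)) 𝒰 (𝓝 0) := by
    have h1 : Tendsto (fun n => NN J q (u n - u0) ^ q) 𝒰 (𝓝 0) := by
      have hb : ∀ n, NN J q (u n - u0) ^ q ≤ (‖J (u n) - J u0‖ ^ (2 : ℝ)) ^ ((r - q) / (r - 2)) *
          ((C * (K + ‖u0‖)) ^ r) ^ ((q - 2) / (r - 2)) := by
        intro n
        refine (interp hD hC hs (u n - u0)).trans ?_
        rw [map_sub]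
        have h2 : ‖u n - u0‖ ≤ K + ‖u0‖ := (norm_sub_le _ _).trans (by linarith [hK n])
        have h3 : (C * ‖u n - u0‖) ^ r ≤ (C * (K + ‖u0‖)) ^ r :=
          Real.rpow_le_rpow (by positivity) (mul_le_mul_of_nonneg_left h2 hC.le) (by linarith)
        exact mul_le_mul_of_nonneg_left (Real.rpow_le_rpow (by positivity) h3
          (div_nonneg (by linarith) (by linarith))) (by positivity)
      have hz : Tendsto (fun n => (‖J (u n) - J u0‖ ^ (2 : ℝ)) ^ ((r - q) / (r - 2)) *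
          ((C * (K + ‖u0‖)) ^ r) ^ ((q - 2) / (r - 2))) 𝒰 (𝓝 0) := by
        have h3 : Tendsto (fun n => ‖J (u n) - J u0‖) 𝒰 (𝓝 0) := by
          have := (hJ.sub_const (J u0)).norm
          simpa using this
        have h4 : Tendsto (fun n => ‖J (u n) - J u0‖ ^ (2 : ℝ)) 𝒰 (𝓝 0) := by
          have := h3.rpow_const (p := 2) (Or.inr (by norm_num))
          simpa using this
        have ht : 0 < (r - q) / (r - 2) := div_pos (by linarith) (by linarith)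
        have h5 : Tendsto (fun n => (‖J (u n) - J u0‖ ^ (2 : ℝ)) ^ ((r - q) / (r - 2))) 𝒰 (𝓝 0) := by
          have := h4.rpow_const (p := (r - q) / (r - 2)) (Or.inr ht.le)
          rwa [Real.zero_rpow ht.ne'] at this
        simpa using h5.mul_const (((C * (K + ‖u0‖)) ^ r) ^ ((q - 2) / (r - 2)))
      exact squeeze_zero (fun n => Real.rpow_nonneg (NN_nonneg _) _) hb hz
    have h2 := h1.rpow_const (p := q⁻¹) (Or.inr (by positivity))
    rw [Real.zero_rpow (by positivity)] at h2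
    refine h2.congr fun n => ?_
    rw [← Real.rpow_mul (NN_nonneg _), mul_inv_cancel₀ hq0.ne', Real.rpow_one]
  have hN0 : NN J q u0 = 1 := by
    have h1 : Tendsto (fun _ : ℕ => |1 - NN J q u0|) (𝒰 : Filter ℕ) (𝓝 0) := by
      refine squeeze_zero (fun n => abs_nonneg _) (fun n => ?_) hN
      have := NN_sub hD (u n) u0
      rwa [hu1 n] at this
    have h2 := tendsto_nhds_unique h1 tendsto_const_nhds
    have h3 : 1 - NN J q u0 = 0 := abs_eq_zero.1 h2.symm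
    linarith
  have hnu : Tendsto (fun n => ‖u n‖ ^ 2) 𝒰 (𝓝 l1) := hul.mono_left h𝒰
  have hge : l1 ≤ ‖u0‖ ^ 2 := by
    have := hl u0
    rwa [hN0, one_pow, mul_one] at this
  have hle : ‖u0‖ ^ 2 ≤ l1 := by
    have h1 : Tendsto (fun n => 2 * ⟪u n, u0⟫_ℝ - ‖u n‖ ^ 2) 𝒰 (𝓝 (2 * ⟪u0, u0⟫_ℝ - l1)) :=
      ((hu0 u0).const_mul 2).sub hnu
    have h2 : 2 * ⟪u0, u0⟫_ℝ - l1 ≤ ‖u0‖ ^ 2 := by
      refine le_of_tendsto h1 (Filter.Eventually.of_forall fun n => ?_)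
      have := norm_sub_sq_real (u n) u0
      nlinarith [sq_nonneg ‖u n - u0‖]
    rw [real_inner_self_eq_norm_sq] at h2
    linarith
  have heq : ‖u0‖ ^ 2 = l1 := le_antisymm hle hge
  refine ⟨u0, ?_, hN0, heq⟩
  have h1 : Tendsto (fun n => ‖u n - u0‖ ^ 2) 𝒰 (𝓝 0) := by
    have h2 : Tendsto (fun n => ‖u n‖ ^ 2 - 2 * ⟪u n, u0⟫_ℝ + ‖u0‖ ^ 2) 𝒰
        (𝓝 (l1 - 2 * ⟪u0, u0⟫_ℝ + ‖u0‖ ^ 2)) :=
      (hnu.sub ((hu0 u0).const_mul 2)).add tendsto_const_nhds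
    have h3 : l1 - 2 * ⟪u0, u0⟫_ℝ + ‖u0‖ ^ 2 = 0 := by
      rw [real_inner_self_eq_norm_sq]; linarith
    rw [h3] at h2
    refine h2.congr fun n => ?_
    rw [norm_sub_sq_real]
  rw [tendsto_iff_norm_sub_tendsto_zero]
  have h2 := h1.sqrt
  rw [Real.sqrt_zero] at h2
  refine h2.congr fun n => ?_
  rw [Real.sqrt_sq (norm_nonneg _)]


theorem scale_eq (hq : 2 < q) {l : ℝ} (hl : 0 < l) {w : H}
    (h : ∀ φ : H, ⟪w, φ⟫_ℝ = l * ∫ x, |J w x| ^ (q - 2) * J w x * J φ x ∂μ) (φ : H) :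
    ⟪l ^ (1 / (q - 2)) • w, φ⟫_ℝ =
      ∫ x, |J (l ^ (1 / (q - 2)) • w) x| ^ (q - 2) * J (l ^ (1 / (q - 2)) • w) x * J φ x ∂μ := by
  set a := l ^ (1 / (q - 2)) with ha
  have ha0 : 0 < a := Real.rpow_pos_of_pos hl _
  have hap : a ^ (q - 2) = l := by
    rw [ha, ← Real.rpow_mul hl.le, one_div, inv_mul_cancel₀ (by linarith), Real.rpow_one]
  have h1 : ∫ x, |J (a • w) x| ^ (q - 2) * J (a • w) x * J φ x ∂μ =
      ∫ x, (a ^ (q - 2) * a) * (|J w x| ^ (q - 2) * J w x * J φ x) ∂μ := by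
    refine integral_congr_ae ?_
    rw [map_smul]
    filter_upwards [Lp.coeFn_smul a (J w)] with x hx
    show |(a • J w : Lp ℝ 2 μ) x| ^ (q - 2) * (a • J w : Lp ℝ 2 μ) x * J φ x = _
    rw [hx, Pi.smul_apply, smul_eq_mul, abs_mul, abs_of_pos ha0,
      Real.mul_rpow ha0.le (abs_nonneg _)]
    ring
  rw [h1, integral_const_mul, hap, real_inner_smul_left, h φ]
  ring

/-- abstract isolation of the first critical value -/
theorem isolated (hD : Dir μ J q r) (hDec : Dec J q)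
    (habs : ∀ u : H, ∃ v : H, (J v =ᵐ[μ] fun x => |J u x|) ∧ ‖v‖ ≤ ‖u‖)
    {l1 : ℝ} (hl1 : l1 = sInf {t : ℝ | ∃ u : H, eLpNorm (J u) (ENNReal.ofReal q) μ = 1 ∧ t = ‖u‖ ^ 2}) :
    ∃ ε : ℝ, 0 < ε ∧ ∀ u : H, eLpNorm (J u) (ENNReal.ofReal q) μ = 1 →
      (∀ φ : H, ⟪u, φ⟫_ℝ = ‖u‖ ^ 2 * ∫ x, |J u x| ^ (q - 2) * J u x * J φ x ∂μ) →
      ‖u‖ ^ 2 < l1 + ε → ‖u‖ ^ 2 = l1 := by
  by_contra hcon
  push Not at hcon
  have hq := hD.two_lt
  have hbdd : BddBelow {t : ℝ | ∃ u : H, eLpNorm (J u) (ENNReal.ofReal q) μ = 1 ∧ t = ‖u‖ ^ 2} :=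
    ⟨0, by rintro t ⟨u, -, rfl⟩; positivity⟩
  have hle : ∀ v : H, NN J q v = 1 → l1 ≤ ‖v‖ ^ 2 := by
    intro v hv
    rw [hl1]
    exact csInf_le hbdd ⟨v, (ENNReal.toReal_eq_one_iff _).1 hv, rfl⟩
  have hl : ∀ v : H, l1 * NN J q v ^ 2 ≤ ‖v‖ ^ 2 := by
    intro v
    rcases eq_or_ne (NN J q v) 0 with h | h
    · rw [h]; simp
    · have hpos : 0 < NN J q v := lt_of_le_of_ne (NN_nonneg _) (Ne.symm h)
      have h1 := hle ((NN J q v)⁻¹ • v) (by
        rw [NN_smul, abs_of_pos (inv_pos.2 hpos), inv_mul_cancel₀ h])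
      rw [norm_smul, mul_pow, Real.norm_eq_abs, sq_abs, inv_pow] at h1
      have h2 : 0 < NN J q v ^ 2 := by positivity
      calc l1 * NN J q v ^ 2 ≤ ((NN J q v ^ 2)⁻¹ * ‖v‖ ^ 2) * NN J q v ^ 2 :=
            mul_le_mul_of_nonneg_right h1 h2.le
        _ = ‖v‖ ^ 2 := by field_simp
  have hpos_of : ∀ v : H, NN J q v = 1 → 0 < ‖v‖ ^ 2 := by
    intro v hv
    have : v ≠ 0 := by
      rintro rfl
      have h0 := NN_smul (J := J) (q := q) 0 (0 : H)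
      rw [smul_zero, hv] at h0
      simp at h0
    positivity
  choose u hu1 hu2 hu3 hu4 using fun n : ℕ => hcon (1 / ((n : ℝ) + 1)) (by positivity)
  have hu1' : ∀ n, NN J q (u n) = 1 := fun n => (ENNReal.toReal_eq_one_iff _).2 (hu1 n)
  have hul : Tendsto (fun n => ‖u n‖ ^ 2) atTop (𝓝 l1) := by
    have h1 : Tendsto (fun n : ℕ => l1 + 1 / ((n : ℝ) + 1)) atTop (𝓝 (l1 + 0)) :=
      tendsto_const_nhds.add tendsto_one_div_add_atTop_nhds_zero_nat
    rw [add_zero] at h1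
    exact tendsto_of_tendsto_of_tendsto_of_le_of_le tendsto_const_nhds h1
      (fun n => hle _ (hu1' n)) (fun n => (hu3 n).le)
  let 𝒰 : Ultrafilter ℕ := Ultrafilter.of atTop
  have h𝒰 : (𝒰 : Filter ℕ) ≤ atTop := Ultrafilter.of_le _
  obtain ⟨u0, hlim, hN0, hn0⟩ := sub_conv hD hl u hu1' hul 𝒰 h𝒰
  have hl1pos : 0 < l1 := hn0 ▸ hpos_of u0 hN0
  obtain ⟨v0, hv0, hv0n⟩ := habs u0
  have hNv : NN J q v0 = 1 := by
    rw [← hN0]
    unfold NN
    rw [eLpNorm_congr_ae hv0]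
    have : (fun x => |J u0 x|) = fun x => ‖J u0 x‖ := rfl
    rw [this, eLpNorm_norm]
  have hnv : ‖v0‖ ^ 2 = l1 := by
    refine le_antisymm ?_ (hle v0 hNv)
    rw [← hn0]
    exact pow_le_pow_left₀ (norm_nonneg _) hv0n 2
  have ELu := EL hD hl hN0 hn0
  have ELv := EL hD hl hNv hnv
  set p1 := 1 / (q - 2) with hp1
  have hp1pos : 0 < p1 := by rw [hp1]; exact one_div_pos.2 (by linarith)
  let U : ℕ → H := fun n => ((‖u n‖ ^ 2) ^ p1) • u n
  have hU : Tendsto U (𝒰 : Filter ℕ) (𝓝 (l1 ^ p1 • u0)) :=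
    ((hul.mono_left h𝒰).rpow_const (Or.inr hp1pos.le)).smul hlim
  have hex : ∀ k : ℕ, ∃ n, dist (U n) (l1 ^ p1 • u0) < 1 / ((k : ℝ) + 1) := by
    intro k
    exact ((Metric.tendsto_nhds.1 hU) (1 / ((k : ℝ) + 1)) (by positivity)).exists
  choose m hm using hex
  have hUm : Tendsto (fun k => U (m k)) atTop (𝓝 (l1 ^ p1 • u0)) := by
    rw [tendsto_iff_dist_tendsto_zero]
    exact squeeze_zero (fun k => dist_nonneg) (fun k => (hm k).le)
      tendsto_one_div_add_atTop_nhds_zero_nat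
  have hap : 0 < l1 ^ p1 := Real.rpow_pos_of_pos hl1pos _
  have hv0' : J (l1 ^ p1 • v0) =ᵐ[μ] fun x => |J (l1 ^ p1 • u0) x| := by
    rw [map_smul, map_smul]
    filter_upwards [Lp.coeFn_smul (l1 ^ p1) (J v0), Lp.coeFn_smul (l1 ^ p1) (J u0), hv0]
      with x h1 h2 h3
    rw [h1, h2, Pi.smul_apply, Pi.smul_apply, h3, smul_eq_mul, smul_eq_mul, abs_mul,
      abs_of_pos hap]
  have hsup : ∀ φ : H, 0 ≤ᵐ[μ] J φ →
      ∫ x, (J (l1 ^ p1 • v0) x) ^ (q - 1) * J φ x ∂μ ≤ ⟪l1 ^ p1 • v0, φ⟫_ℝ := by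
    intro φ _
    rw [scale_eq hq hl1pos ELv φ]
    refine le_of_eq (integral_congr_ae ?_)
    filter_upwards [hv0'] with x hx
    have h0 : 0 ≤ J (l1 ^ p1 • v0) x := by rw [hx]; exact abs_nonneg _
    rw [abs_of_nonneg h0]
    congr 1
    rcases eq_or_ne (J (l1 ^ p1 • v0) x) 0 with h | h
    · rw [h, Real.zero_rpow (by linarith), Real.zero_rpow (by linarith)]; simp
    · rw [← Real.rpow_add_one h]; congr 1; ring
  have hev := energy_const hD (l1 ^ p1 • u0) (l1 ^ p1 • v0) (scale_eq hq hl1pos ELu) hv0' hsup (dec_abs hDec (scale_eq hq hl1pos ELu) hv0')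
    (fun k => U (m k)) (fun k => scale_eq hq (hpos_of _ (hu1' (m k))) (hu2 (m k))) hUm
  obtain ⟨k, hk⟩ := hev.exists
  have hgt : l1 < ‖u (m k)‖ ^ 2 := lt_of_le_of_ne (hle _ (hu1' _)) (Ne.symm (hu4 _))
  have e1 : ‖U (m k)‖ = (‖u (m k)‖ ^ 2) ^ p1 * ‖u (m k)‖ := by
    show ‖((‖u (m k)‖ ^ 2) ^ p1) • u (m k)‖ = _
    rw [norm_smul, Real.norm_of_nonneg (by positivity)]
  have e2 : ‖l1 ^ p1 • u0‖ = l1 ^ p1 * ‖u0‖ := by
    rw [norm_smul, Real.norm_of_nonneg (by positivity)]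
  have hk' : ‖U (m k)‖ = ‖l1 ^ p1 • u0‖ := hk
  rw [e1, e2] at hk'
  have h1 : l1 ^ p1 < (‖u (m k)‖ ^ 2) ^ p1 := Real.rpow_lt_rpow hl1pos.le hgt hp1pos
  have h2 : ‖u0‖ < ‖u (m k)‖ := by
    rw [← hn0] at hgt
    exact lt_of_pow_lt_pow_left₀ 2 (norm_nonneg _) hgt
  have h3 : l1 ^ p1 * ‖u0‖ < (‖u (m k)‖ ^ 2) ^ p1 * ‖u (m k)‖ :=
    mul_lt_mul'' h1 h2 hap.le (norm_nonneg _)
  linarith


end V1

end Pool.Agent.H456R3.Q
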