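import Pool.Agent.H456R3.Q.B2
import Pool.Agent.H456R3.Q.V1
set_option autoImplicit false
set_option linter.unusedSectionVars false
set_option linter.unusedVariables false
open MeasureTheory Metric Set Filter Topology
open scoped ENNReal NNReal InnerProductSpace

namespace Pool.Agent.H456R3.Q.B3

open Pool.Agent.Helper420.QI (Dir)
open Pool.Agent.Helper420.QI
open Pool.Agent.Helper420.QI.QEig Pool.Agent.Helper420.QI.Sob Pool.Agent.Helper420.QI.Conc
open Pool.Agent.H456R3.Q.A1 Pool.Agent.H456R3.Q.B1 Pool.Agent.H456R3.Q.B2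

variable {N : ℕ} {Ω : Set (EE N)}

/-- Hoelder inequality for the nonlinearity -/
theorem hold_nl {α : Type*} [MeasurableSpace α] {μ : Measure α} {q : ℝ} (hq : 2 < q) {U V : α → ℝ}
    (hU : MemLp U (ENNReal.ofReal q) μ) (hV : MemLp V (ENNReal.ofReal q) μ) {S : Set α}
    (hS : MeasurableSet S) :
    ∫ x in S, |U x| ^ (q - 2) * V x ^ 2 ∂μ ≤
      (∫ x in S, |U x| ^ q ∂μ) ^ ((q - 2) / q) * (eLpNorm V (ENNReal.ofReal q) μ).toReal ^ 2 := by
  have hq0 : 0 < q := by linarith
  have hq2 : 0 < q - 2 := by linarith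
  have hpq : (q / (q - 2)).HolderConjugate (q / 2) := by
    refine Real.holderConjugate_iff.2 ⟨?_, ?_⟩
    · rw [lt_div_iff₀ hq2]; linarith
    · field_simp; ring
  have hUq : Integrable (fun x => |U x| ^ q) μ := by
    have := hU.integrable_norm_rpow (by simpa using hq0) ENNReal.ofReal_ne_top
    rw [ENNReal.toReal_ofReal hq0.le] at this
    simpa using this
  have hVq : Integrable (fun x => |V x| ^ q) μ := by
    have := hV.integrable_norm_rpow (by simpa using hq0) ENNReal.ofReal_ne_top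
    rw [ENNReal.toReal_ofReal hq0.le] at this
    simpa using this
  have e1 : ∀ x, (|U x| ^ (q - 2)) ^ (q / (q - 2)) = |U x| ^ q := by
    intro x
    rw [← Real.rpow_mul (abs_nonneg _)]
    congr 1; field_simp
  have e2 : ∀ x, (V x ^ 2) ^ (q / 2) = |V x| ^ q := by
    intro x
    rw [← sq_abs, ← Real.rpow_natCast, ← Real.rpow_mul (abs_nonneg _)]
    congr 1; push_cast; field_simp
  have m1 : MemLp (fun x => |U x| ^ (q - 2)) (ENNReal.ofReal (q / (q - 2))) (μ.restrict S) := by
    have hp : 0 < q / (q - 2) := by positivity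
    have mm : AEStronglyMeasurable (fun x => |U x| ^ (q - 2)) (μ.restrict S) :=
      ((hU.1.norm.aemeasurable.pow_const (q - 2)).aestronglyMeasurable).restrict
    rw [← integrable_norm_rpow_iff mm
      (by simpa using hp) ENNReal.ofReal_ne_top, ENNReal.toReal_ofReal hp.le]
    refine (hUq.restrict (s := S)).congr ?_
    filter_upwards with x
    rw [Real.norm_of_nonneg (Real.rpow_nonneg (abs_nonneg _) _), e1]
  have m2 : MemLp (fun x => V x ^ 2) (ENNReal.ofReal (q / 2)) (μ.restrict S) := by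
    have hp : 0 < q / 2 := by positivity
    have mm : AEStronglyMeasurable (fun x => V x ^ 2) (μ.restrict S) := (hV.1.pow 2).restrict
    rw [← integrable_norm_rpow_iff mm
      (by simpa using hp) ENNReal.ofReal_ne_top, ENNReal.toReal_ofReal hp.le]
    refine (hVq.restrict (s := S)).congr ?_
    filter_upwards with x
    rw [Real.norm_of_nonneg (by positivity), e2]
  have h1 := integral_mul_le_Lp_mul_Lq_of_nonneg hpq (μ := μ.restrict S)
    (f := fun x => |U x| ^ (q - 2)) (g := fun x => V x ^ 2)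
    (Eventually.of_forall fun x => Real.rpow_nonneg (abs_nonneg _) _)
    (Eventually.of_forall fun x => by positivity) m1 m2
  simp only [e1, e2] at h1
  refine h1.trans ?_
  have e3 : 1 / (q / (q - 2)) = (q - 2) / q := by field_simp
  rw [e3]
  refine mul_le_mul_of_nonneg_left ?_ (Real.rpow_nonneg (integral_nonneg fun x =>
    Real.rpow_nonneg (abs_nonneg _) _) _)
  have h2 : (eLpNorm V (ENNReal.ofReal q) μ).toReal ^ 2 = (∫ x, |V x| ^ q ∂μ) ^ (1 / (q / 2)) := by
    have h := hV.eLpNorm_eq_integral_rpow_norm (by simpa using hq0) ENNReal.ofReal_ne_top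
    rw [ENNReal.toReal_ofReal hq0.le] at h
    have hnn : 0 ≤ ∫ x, |V x| ^ q ∂μ := integral_nonneg fun x => by positivity
    rw [h, ENNReal.toReal_ofReal (by positivity), ← Real.rpow_natCast, ← Real.rpow_mul (by
      exact integral_nonneg fun x => by positivity)]
    congr 1
    push_cast
    field_simp
  rw [h2]
  exact Real.rpow_le_rpow (integral_nonneg fun x => by positivity)
    (setIntegral_le_integral hVq (Eventually.of_forall fun x => by positivity)) (by positivity)

/-- tails of integrable functions -/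
theorem tail_small {f : EE N → ℝ} (hf : Integrable f volume) (hf0 : ∀ x, 0 ≤ f x) {ε : ℝ}
    (hε : 0 < ε) : ∃ n : ℕ, 1 ≤ n ∧ ∀ m : ℕ, n ≤ m → ∫ x in {x : EE N | (m : ℝ) ≤ ‖x‖}, f x ≤ ε := by
  have hm : ∀ n : ℕ, MeasurableSet {x : EE N | (n : ℝ) ≤ ‖x‖} := fun n =>
    (isClosed_le continuous_const continuous_norm).measurableSet
  have h1 : Tendsto (fun n : ℕ => ∫ x in {x : EE N | (n : ℝ) ≤ ‖x‖}, f x) atTop
      (𝓝 (∫ x in ⋂ n : ℕ, {x : EE N | (n : ℝ) ≤ ‖x‖}, f x)) := by
    apply tendsto_setIntegral_of_antitone hm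
    · intro a b hab x hx
      have : (a : ℝ) ≤ b := by exact_mod_cast hab
      exact this.trans hx
    · exact ⟨0, hf.integrableOn⟩
  have h2 : (⋂ n : ℕ, {x : EE N | (n : ℝ) ≤ ‖x‖}) = ∅ := by
    ext x
    simp only [mem_iInter, Set.mem_ofPred_eq, mem_empty_iff_false, iff_false, not_forall, not_le]
    exact exists_nat_gt ‖x‖
  rw [h2, setIntegral_empty] at h1
  obtain ⟨n, hn⟩ := eventually_atTop.1 (h1.eventually (Iic_mem_nhds hε))
  exact ⟨max n 1, le_max_right _ _, fun m hm => hn m ((le_max_left _ _).trans hm)⟩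

/-- weighted estimate for solutions -/
theorem agmon (hP : Poin Ω) {q : ℝ} (hq : 2 < q) (J0 : HS Ω →L[ℝ] L2f N) (hJ0 : ∀ G, J0 G = prim G)
    {CP CQ : ℝ} (hCP : 0 ≤ CP) (hCQ : 0 ≤ CQ) (hP1 : ∀ G : HS Ω, ‖prim G‖ ≤ CP * ‖G‖)
    (hQm : ∀ G : HS Ω, MemLp (prim G) (ENNReal.ofReal q) volume)
    (hQ : ∀ G : HS Ω, (eLpNorm (prim G) (ENNReal.ofReal q) volume).toReal ≤ CQ * ‖G‖)
    (u : HS Ω) (hu : ∀ φ : HS Ω, ⟪u, φ⟫_ℝ = ∫ x, |prim u x| ^ (q - 2) * prim u x * prim φ x)
    (k : ℕ) : ∃ K : ℝ, 0 ≤ K ∧ ∀ n : ℕ, Integrable (fun x => (wt N k n x * prim u x) ^ 2) volume ∧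
      ∫ x, (wt N k n x * prim u x) ^ 2 ≤ K := by
  have hq0 : 0 < q := by linarith
  have hq2 : 0 < q - 2 := by linarith
  have hUq : Integrable (fun x => |prim u x| ^ q) volume := by
    have := (hQm u).integrable_norm_rpow (by simpa using hq0) ENNReal.ofReal_ne_top
    rw [ENNReal.toReal_ofReal hq0.le] at this
    simpa using this
  have hU2 : Integrable (fun x => (prim u x) ^ 2) volume := (Lp.memLp (prim u)).integrable_sq
  -- choose the radius
  set ε : ℝ := (1 / (4 * (CQ ^ 2 + 1))) ^ (q / (q - 2)) with hε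
  have hε0 : 0 < ε := by positivity
  obtain ⟨n0, hn01, hn0⟩ := tail_small hUq (fun x => by positivity) hε0
  obtain ⟨n1, hn1⟩ := exists_nat_gt (4 * k * (CP + 1))
  set m : ℕ := max n0 (n1 + 1) with hm
  have hm0 : (0 : ℝ) < m := by
    have : 1 ≤ m := hn01.trans (le_max_left _ _)
    exact_mod_cast this
  have hm1 : 4 * k * (CP + 1) ≤ m := by
    have : (n1 : ℝ) + 1 ≤ m := by exact_mod_cast (le_max_right n0 (n1 + 1))
    linarith
  have htail := hn0 m (le_max_left _ _)
  set S : Set (EE N) := {x : EE N | (m : ℝ) ≤ ‖x‖} with hSdef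
  have hS : MeasurableSet S := (isClosed_le continuous_const continuous_norm).measurableSet
  have hIU : 0 ≤ ∫ x, |prim u x| ^ q := integral_nonneg fun x => by positivity
  have hIU2 : 0 ≤ ∫ x, (prim u x) ^ 2 := integral_nonneg fun x => by positivity
  set W : ℝ := ((1 + (m : ℝ) ^ 2) ^ k) ^ 2 with hW
  set K1 : ℝ := W * (∫ x, |prim u x| ^ q) + (k : ℝ) ^ 2 * W * ∫ x, (prim u x) ^ 2 with hK1
  have hK10 : 0 ≤ K1 := by positivity
  refine ⟨CP ^ 2 * (2 * K1), by positivity, fun n => ?_⟩
  have hwb : ∀ x : EE N, wt N k n x ≤ ((n : ℝ) + 1) ^ k := fun x =>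
    prof_le' (by positivity) (by positivity) k
  have hwb2 : ∀ x : EE N, |wt N k n x| ≤ ((k : ℝ) + 1) * ((n : ℝ) + 1) ^ k := by
    intro x
    rw [abs_of_nonneg (wt_nonneg k n x)]
    refine (hwb x).trans ?_
    have : (0:ℝ) ≤ ((n : ℝ) + 1) ^ k := by positivity
    nlinarith [Nat.cast_nonneg (α := ℝ) k]
  have hwb3 : ∀ x : EE N, ‖gradient (wt N k n) x‖ ≤ ((k : ℝ) + 1) * ((n : ℝ) + 1) ^ k := by
    intro x
    refine (wt_grad1 k n x).trans ?_
    have h1 := hwb x
    have h2 := wt_nonneg k n x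
    have : (0:ℝ) ≤ ((n : ℝ) + 1) ^ k := by positivity
    have h3 : (k : ℝ) * wt N k n x ≤ k * ((n : ℝ) + 1) ^ k := by gcongr
    linarith
  obtain ⟨a, b, ha, hb, hab⟩ := weight_id hP (wt_contDiff k n) hwb2 hwb3 u
  have haI : Integrable (fun x => (wt N k n x * prim u x) ^ 2) volume := by
    refine (Lp.memLp (prim a)).integrable_sq.congr ?_
    filter_upwards [ha] with x hx
    rw [hx]
  have haN : ∫ x, (wt N k n x * prim u x) ^ 2 = ‖prim a‖ ^ 2 := by
    rw [← real_inner_self_eq_norm_sq, L2.inner_def]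
    apply integral_congr_ae
    filter_upwards [ha] with x hx
    simp only [RCLike.inner_apply, conj_trivial]
    rw [hx]; ring
  refine ⟨haI, ?_⟩
  -- first term
  have hcm : (fun x => |prim u x| ^ (q - 2) * (wt N k n x * prim u x) ^ 2) =ᵐ[volume]
      fun x => |prim u x| ^ (q - 2) * prim u x * prim b x := by
    filter_upwards [hb] with x hx
    rw [hx]; ring
  have hUU : ∀ t : ℝ, |t| ^ (q - 2) * t ^ 2 = |t| ^ q := by
    intro t
    rw [← sq_abs, ← Real.rpow_natCast, ← Real.rpow_add_of_nonneg (abs_nonneg _) (by linarith)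
      (by norm_num)]
    congr 1; push_cast; ring
  have hi1 : Integrable (fun x => |prim u x| ^ (q - 2) * (wt N k n x * prim u x) ^ 2) volume := by
    refine (hUq.const_mul ((((n : ℝ) + 1) ^ k) ^ 2)).mono' ?_ (Eventually.of_forall fun x => ?_)
    · have hum := (Lp.aestronglyMeasurable (prim u) : AEStronglyMeasurable (prim u) volume)
      exact ((hum.norm.aemeasurable.pow_const (q - 2)).aestronglyMeasurable).mul
        (((wt_contDiff k n).continuous.aestronglyMeasurable.mul hum).pow 2)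
    · rw [Real.norm_of_nonneg (by positivity)]
      have e1 : |prim u x| ^ (q - 2) * (wt N k n x * prim u x) ^ 2 =
          wt N k n x ^ 2 * |prim u x| ^ q := by
        rw [← hUU]; ring
      rw [e1]
      have := pow_le_pow_left₀ (wt_nonneg k n x) (hwb x) 2
      gcongr
  have hterm1 : ⟪u, b⟫_ℝ ≤ W * (∫ x, |prim u x| ^ q) + 1 / 4 * ‖a‖ ^ 2 := by
    rw [hu b, ← integral_congr_ae hcm, ← integral_add_compl hS hi1, add_comm]
    refine add_le_add ?_ ?_
    · have e1 : ∫ x in Sᶜ, |prim u x| ^ (q - 2) * (wt N k n x * prim u x) ^ 2 ≤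
          ∫ x in Sᶜ, W * |prim u x| ^ q := by
        refine setIntegral_mono_on hi1.integrableOn (hUq.const_mul W).integrableOn hS.compl ?_
        intro x hx
        have hx' : ‖x‖ < m := not_le.1 hx
        have e2 : |prim u x| ^ (q - 2) * (wt N k n x * prim u x) ^ 2 =
            wt N k n x ^ 2 * |prim u x| ^ q := by
          rw [← hUU]; ring
        rw [e2]
        have e3 : wt N k n x ≤ (1 + (m : ℝ) ^ 2) ^ k := by
          refine (prof_le (by positivity) (by positivity) k).trans ?_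
          gcongr
        have := pow_le_pow_left₀ (wt_nonneg k n x) e3 2
        gcongr
      refine e1.trans ?_
      rw [integral_const_mul]
      have : 0 ≤ W := by positivity
      exact mul_le_mul_of_nonneg_left (setIntegral_le_integral hUq
        (Eventually.of_forall fun x => by positivity)) this
    · have hVm : MemLp (fun x => wt N k n x * prim u x) (ENNReal.ofReal q) volume :=
        (hQm a).ae_eq ha
      have e1 := hold_nl hq (hQm u) hVm hS
      have e2 : (eLpNorm (fun x => wt N k n x * prim u x) (ENNReal.ofReal q) volume).toReal ≤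
          CQ * ‖a‖ := by
        rw [← eLpNorm_congr_ae ha]; exact hQ a
      have e3 : (∫ x in S, |prim u x| ^ q) ^ ((q - 2) / q) ≤ 1 / (4 * (CQ ^ 2 + 1)) := by
        have h0 : 0 ≤ ∫ x in S, |prim u x| ^ q := integral_nonneg fun x => by positivity
        have := Real.rpow_le_rpow h0 htail (show 0 ≤ (q - 2) / q by positivity)
        refine this.trans (le_of_eq ?_)
        rw [hε, ← Real.rpow_mul (by positivity)]
        have : q / (q - 2) * ((q - 2) / q) = 1 := by field_simp
        rw [this, Real.rpow_one]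
      refine e1.trans ?_
      calc (∫ x in S, |prim u x| ^ q) ^ ((q - 2) / q) *
            (eLpNorm (fun x => wt N k n x * prim u x) (ENNReal.ofReal q) volume).toReal ^ 2
          ≤ 1 / (4 * (CQ ^ 2 + 1)) * (CQ * ‖a‖) ^ 2 := by gcongr
        _ = 1 / 4 * (CQ ^ 2 / (CQ ^ 2 + 1)) * ‖a‖ ^ 2 := by field_simp
        _ ≤ 1 / 4 * 1 * ‖a‖ ^ 2 := by
          gcongr
          rw [div_le_one (by positivity)]; linarith
        _ = _ := by ring
  -- second term
  have hi2 : Integrable (fun x => (prim u x) ^ 2 * ‖gradient (wt N k n) x‖ ^ 2) volume := by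
    refine (hU2.mul_const ((((k : ℝ) + 1) * ((n : ℝ) + 1) ^ k) ^ 2)).mono' ?_
      (Eventually.of_forall fun x => ?_)
    · exact (((Lp.aestronglyMeasurable (prim u)).pow 2)).mul
        ((grad_cont (wt_contDiff k n)).norm.pow 2).aestronglyMeasurable
    · rw [Real.norm_of_nonneg (by positivity)]
      exact mul_le_mul_of_nonneg_left (pow_le_pow_left₀ (norm_nonneg _) (hwb3 x) 2) (by positivity)
  have hterm2 : ∫ x, (prim u x) ^ 2 * ‖gradient (wt N k n) x‖ ^ 2 ≤
      (k : ℝ) ^ 2 * W * (∫ x, (prim u x) ^ 2) + 1 / 4 * ‖a‖ ^ 2 := by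
    rw [← integral_add_compl hS hi2, add_comm]
    refine add_le_add ?_ ?_
    · have e1 : ∫ x in Sᶜ, (prim u x) ^ 2 * ‖gradient (wt N k n) x‖ ^ 2 ≤
          ∫ x in Sᶜ, ((k : ℝ) ^ 2 * W) * (prim u x) ^ 2 := by
        refine setIntegral_mono_on hi2.integrableOn (hU2.const_mul _).integrableOn hS.compl ?_
        intro x hx
        have hx' : ‖x‖ < m := not_le.1 hx
        have e3 : wt N k n x ≤ (1 + (m : ℝ) ^ 2) ^ k := by
          refine (prof_le (by positivity) (by positivity) k).trans ?_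
          gcongr
        have e4 : ‖gradient (wt N k n) x‖ ≤ k * (1 + (m : ℝ) ^ 2) ^ k := by
          refine (wt_grad1 k n x).trans ?_
          gcongr
        have e5 := pow_le_pow_left₀ (norm_nonneg _) e4 2
        calc (prim u x) ^ 2 * ‖gradient (wt N k n) x‖ ^ 2
            ≤ (prim u x) ^ 2 * (k * (1 + (m : ℝ) ^ 2) ^ k) ^ 2 := by gcongr
          _ = _ := by rw [hW]; ring
      refine e1.trans ?_
      rw [integral_const_mul]
      have : 0 ≤ (k : ℝ) ^ 2 * W := by positivity
      exact mul_le_mul_of_nonneg_left (setIntegral_le_integral hU2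
        (Eventually.of_forall fun x => by positivity)) this
    · have e1 : ∫ x in S, (prim u x) ^ 2 * ‖gradient (wt N k n) x‖ ^ 2 ≤
          ∫ x in S, (2 * k / (m : ℝ)) ^ 2 * (wt N k n x * prim u x) ^ 2 := by
        refine setIntegral_mono_on hi2.integrableOn (haI.const_mul _).integrableOn hS ?_
        intro x hx
        have e5 := pow_le_pow_left₀ (norm_nonneg _) (wt_grad2 k n hm0 x hx) 2
        calc (prim u x) ^ 2 * ‖gradient (wt N k n) x‖ ^ 2
            ≤ (prim u x) ^ 2 * ((2 * k / (m : ℝ)) * wt N k n x) ^ 2 := by gcongr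
          _ = _ := by ring
      refine e1.trans ?_
      rw [integral_const_mul]
      have e2 : ∫ x in S, (wt N k n x * prim u x) ^ 2 ≤ (CP * ‖a‖) ^ 2 := by
        refine (setIntegral_le_integral haI (Eventually.of_forall fun x => by positivity)).trans ?_
        rw [haN]
        exact pow_le_pow_left₀ (norm_nonneg _) (hP1 a) 2
      calc (2 * k / (m : ℝ)) ^ 2 * ∫ x in S, (wt N k n x * prim u x) ^ 2
          ≤ (2 * k / (m : ℝ)) ^ 2 * (CP * ‖a‖) ^ 2 := by gcongr
        _ = (2 * k * CP / m) ^ 2 * ‖a‖ ^ 2 := by ring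
        _ ≤ (1 / 2) ^ 2 * ‖a‖ ^ 2 := by
          have e6 : 2 * k * CP / m ≤ 1 / 2 := by
            rw [div_le_iff₀ hm0]
            have : (0:ℝ) ≤ k := Nat.cast_nonneg k
            nlinarith
          exact mul_le_mul_of_nonneg_right (pow_le_pow_left₀ (by positivity) e6 2) (by positivity)
        _ = _ := by ring
  have hfin : ‖a‖ ^ 2 ≤ 2 * K1 := by
    rw [hK1]
    rw [hab]
    rw [hab] at hterm1 hterm2
    linarith
  rw [haN]
  calc ‖prim a‖ ^ 2 ≤ (CP * ‖a‖) ^ 2 := pow_le_pow_left₀ (norm_nonneg _) (hP1 a) 2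
    _ = CP ^ 2 * ‖a‖ ^ 2 := by ring
    _ ≤ CP ^ 2 * (2 * K1) := by gcongr

end Pool.Agent.H456R3.Q.B3
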