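import Pool.Agent.H456R3.Q.B3
set_option autoImplicit false
set_option linter.unusedSectionVars false
set_option linter.unusedVariables false
open MeasureTheory Metric Set Filter Topology
open scoped ENNReal NNReal InnerProductSpace

namespace Pool.Agent.H456R3.Q.B4

open Pool.Agent.Helper420.QI (Dir)
open Pool.Agent.Helper420.QI
open Pool.Agent.Helper420.QI.QEig Pool.Agent.Helper420.QI.Sob Pool.Agent.Helper420.QI.Conc
open Pool.Agent.H456R3.Q.A1 Pool.Agent.H456R3.Q.B1 Pool.Agent.H456R3.Q.B2 Pool.Agent.H456R3.Q.B3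
open Pool.Agent.H456R3.Q

variable {N : ℕ} {Ω : Set (EE N)}

theorem level {U : EE N → ℝ} (hU : Measurable U) {k : ℕ} (hk : 1 ≤ k) {K : ℝ} (hK0 : 0 ≤ K)
    (hI : ∀ n : ℕ, Integrable (fun x => (wt N k n x * U x) ^ 2) volume)
    (hK : ∀ n : ℕ, ∫ x, (wt N k n x * U x) ^ 2 ≤ K) {s : ℝ} (hs : 0 < s)
    (hks : (N : ℝ) / (2 * k) ≤ s) :
    ∃ C : ℝ, 0 ≤ C ∧ ∀ t : ℝ, 0 < t → t ≤ 1 → volume.real {x | t < |U x|} ≤ C * t ^ (-s) := by
  have hk0 : (0 : ℝ) < k := by exact_mod_cast hk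
  -- Fatou
  have hF : ∫⁻ x, ENNReal.ofReal (((1 + ‖x‖ ^ 2) ^ k * U x) ^ 2) ≤ ENNReal.ofReal K := by
    have h1 : ∀ x : EE N, ENNReal.ofReal (((1 + ‖x‖ ^ 2) ^ k * U x) ^ 2) =
        liminf (fun n : ℕ => ENNReal.ofReal ((wt N k n x * U x) ^ 2)) atTop := by
      intro x
      have h2 : Tendsto (fun n : ℕ => ENNReal.ofReal ((wt N k n x * U x) ^ 2)) atTop
          (𝓝 (ENNReal.ofReal (((1 + ‖x‖ ^ 2) ^ k * U x) ^ 2))) :=
        (ENNReal.continuous_ofReal.tendsto _).comp (((wt_lim k x).mul_const _).pow 2)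
      exact h2.liminf_eq.symm
    simp only [h1]
    refine (lintegral_liminf_le fun n => ?_).trans ?_
    · exact (((wt_contDiff k n).continuous.measurable.mul hU).pow_const 2).ennreal_ofReal
    · refine (liminf_le_liminf (v := fun _ => ENNReal.ofReal K) (Eventually.of_forall fun n => ?_)).trans
        (le_of_eq (by simp))
      rw [← ofReal_integral_eq_lintegral_ofReal (hI n) (Eventually.of_forall fun x => by positivity)]
      exact ENNReal.ofReal_le_ofReal (hK n)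
  set ω : ℝ := volume.real (ball (0 : EE N) 1) with hω
  refine ⟨ω + K, by positivity, fun t ht ht1 => ?_⟩
  set ρ : ℝ := t ^ (-(1 / (2 * (k : ℝ)))) with hρ
  have hρ0 : 0 < ρ := by positivity
  have hρk : ρ ^ (2 * k) = t⁻¹ := by
    rw [hρ, ← Real.rpow_natCast, ← Real.rpow_mul ht.le]
    have : -(1 / (2 * (k : ℝ))) * ((2 * k : ℕ) : ℝ) = -1 := by push_cast; field_simp
    rw [this, Real.rpow_neg_one]
  have hsub : {x | t < |U x|} ⊆ ball (0 : EE N) ρ ∪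
      {x | (1 : ℝ≥0∞) ≤ ENNReal.ofReal (((1 + ‖x‖ ^ 2) ^ k * U x) ^ 2)} := by
    intro x hx
    have hx' : t < |U x| := hx
    by_cases h : ‖x‖ < ρ
    · left; rwa [mem_ball_zero_iff]
    · right
      push Not at h
      show (1 : ℝ≥0∞) ≤ ENNReal.ofReal (((1 + ‖x‖ ^ 2) ^ k * U x) ^ 2)
      rw [← ENNReal.ofReal_one]
      apply ENNReal.ofReal_le_ofReal
      have e1 : ρ ^ (2 * k) ≤ (1 + ‖x‖ ^ 2) ^ k := by
        rw [pow_mul]
        have : ρ ^ 2 ≤ 1 + ‖x‖ ^ 2 := by nlinarith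
        exact pow_le_pow_left₀ (by positivity) this k
      rw [hρk] at e1
      have e2 : 1 ≤ (1 + ‖x‖ ^ 2) ^ k * |U x| := by
        calc (1 : ℝ) = t⁻¹ * t := by field_simp
          _ ≤ (1 + ‖x‖ ^ 2) ^ k * |U x| := by gcongr
      have e3 : ((1 + ‖x‖ ^ 2) ^ k * U x) ^ 2 = ((1 + ‖x‖ ^ 2) ^ k * |U x|) ^ 2 := by
        rw [mul_pow, mul_pow, sq_abs]
      rw [e3]
      exact one_le_pow₀ e2
  have hmeas2 : volume {x | (1 : ℝ≥0∞) ≤ ENNReal.ofReal (((1 + ‖x‖ ^ 2) ^ k * U x) ^ 2)} ≤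
      ENNReal.ofReal K := by
    have h1 := mul_meas_ge_le_lintegral₀ (μ := (volume : Measure (EE N)))
      (f := fun x => ENNReal.ofReal (((1 + ‖x‖ ^ 2) ^ k * U x) ^ 2)) (by
        refine AEMeasurable.ennreal_ofReal ?_
        refine (AEMeasurable.mul ?_ hU.aemeasurable).pow_const 2
        exact (by fun_prop : Continuous fun x : EE N => (1 + ‖x‖ ^ 2) ^ k).measurable.aemeasurable) 1
    rw [one_mul] at h1
    exact h1.trans hF
  have hball : volume (ball (0 : EE N) ρ) = ENNReal.ofReal (ρ ^ N * ω) := by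
    rw [Measure.addHaar_ball_of_pos _ _ hρ0, finrank_euclideanSpace_fin,
      ENNReal.ofReal_mul (by positivity), hω]
    congr 1
    rw [Measure.real, ENNReal.ofReal_toReal measure_ball_lt_top.ne]
  have h3 : volume {x | t < |U x|} ≤ ENNReal.ofReal (ρ ^ N * ω + K) := by
    refine (measure_mono hsub).trans ((measure_union_le _ _).trans ?_)
    rw [ENNReal.ofReal_add (by positivity) hK0, hball]
    gcongr
  have h4 : volume.real {x | t < |U x|} ≤ ρ ^ N * ω + K :=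
    ENNReal.toReal_le_of_le_ofReal (by positivity) h3
  have h5 : ρ ^ N ≤ t ^ (-s) := by
    rw [hρ, ← Real.rpow_natCast, ← Real.rpow_mul ht.le]
    apply Real.rpow_le_rpow_of_exponent_ge ht ht1
    have : -(1 / (2 * (k : ℝ))) * (N : ℝ) = -((N : ℝ) / (2 * k)) := by ring
    rw [this]
    linarith
  have h6 : 1 ≤ t ^ (-s) := Real.one_le_rpow_of_pos_of_le_one_of_nonpos ht ht1 (by linarith)
  have hω0 : 0 ≤ ω := measureReal_nonneg
  nlinarith

theorem dec_of (hP : Poin Ω) {q : ℝ} (hq : 2 < q) (J0 : HS Ω →L[ℝ] L2f N) (hJ0 : ∀ G, J0 G = prim G)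
    {CP CQ : ℝ} (hCP : 0 ≤ CP) (hCQ : 0 ≤ CQ) (hP1 : ∀ G : HS Ω, ‖prim G‖ ≤ CP * ‖G‖)
    (hQm : ∀ G : HS Ω, MemLp (prim G) (ENNReal.ofReal q) volume)
    (hQ : ∀ G : HS Ω, (eLpNorm (prim G) (ENNReal.ofReal q) volume).toReal ≤ CQ * ‖G‖) :
    Dec J0 q := by
  intro u hu s hs
  simp only [hJ0] at hu ⊢
  obtain ⟨k, hk⟩ := exists_nat_gt ((N : ℝ) / (2 * s))
  have hk1 : (N : ℝ) / (2 * ((k + 1 : ℕ) : ℝ)) ≤ s := by
    rw [div_lt_iff₀ (by positivity)] at hk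
    rw [div_le_iff₀ (by positivity)]
    push_cast
    nlinarith
  obtain ⟨K, hK0, hK⟩ := agmon hP hq J0 hJ0 hCP hCQ hP1 hQm hQ u hu (k + 1)
  exact level ((Lp.stronglyMeasurable (prim u)).measurable) (by omega) hK0 (fun n => (hK n).1)
    (fun n => (hK n).2) hs hk1

end Pool.Agent.H456R3.Q.B4
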