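import Pool.Agent.H456R3.Q.Pos2
set_option autoImplicit false
set_option linter.unusedSectionVars false
set_option linter.unusedVariables false
open MeasureTheory Filter Topology Set
open scoped ENNReal NNReal InnerProductSpace
open Pool.Agent.Helper420.QI (Dir)

namespace Pool.Agent.H456R3.Q.Fin

section
variable {α : Type*} [MeasurableSpace α] {μ : Measure α}
  {H : Type*} [NormedAddCommGroup H] [InnerProductSpace ℝ H] [CompleteSpace H]
  {J : H →L[ℝ] Lp ℝ 2 μ} {q r : ℝ}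

theorem functional_bound (hD : Dir μ J q r) (w : H) :
    ∃ K : ℝ, 0 ≤ K ∧ ∀ φ : H, |∫ x, |J w x| ^ (q - 2) * J w x * J φ x ∂μ| ≤ K * ‖φ‖ := by
  obtain ⟨C, hC, hs⟩ := hD.sob
  set A : ℝ := V1.NN J q w ^ q with hA
  set K : ℝ := (‖J‖ ^ (2 : ℝ)) ^ ((r - q) / (r - 2)) * ((C * 1) ^ r) ^ ((q - 2) / (r - 2)) with hK
  have hq := hD.two_lt
  have hr := hD.q_lt
  have hA0 : 0 ≤ A := Real.rpow_nonneg (V1.NN_nonneg w) _
  have hK0 : 0 ≤ K := by positivity
  have hunit : ∀ φ : H, ‖φ‖ ≤ 1 → |∫ x, |J w x| ^ (q - 2) * J w x * J φ x ∂μ| ≤ A + K := by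
    intro φ hφ
    have h1 : V1.NN J q φ ^ q ≤ K := by
      refine (V1.interp hD hC hs φ).trans ?_
      have e1 : 0 ≤ (r - q) / (r - 2) := div_nonneg (by linarith) (by linarith)
      have e2 : 0 ≤ (q - 2) / (r - 2) := div_nonneg (by linarith) (by linarith)
      have e3 : ‖J φ‖ ≤ ‖J‖ := by
        refine (J.le_opNorm φ).trans ?_
        calc ‖J‖ * ‖φ‖ ≤ ‖J‖ * 1 := by gcongr
          _ = ‖J‖ := mul_one _
      have e4 : 0 ≤ r := by linarith
      rw [hK]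
      gcongr
    calc |∫ x, |J w x| ^ (q - 2) * J w x * J φ x ∂μ|
        ≤ ∫ x, |(|J w x| ^ (q - 2) * J w x * J φ x)| ∂μ := abs_integral_le_integral_abs
      _ ≤ ∫ x, (|J w x| ^ q + |J φ x| ^ q) ∂μ := by
          apply integral_mono (V1.int_mix hD w φ).abs ((V1.int_pow hD w).add (V1.int_pow hD φ))
          intro x
          exact V1.mix_pt hq _ _
      _ = A + V1.NN J q φ ^ q := by
          rw [integral_add (V1.int_pow hD w) (V1.int_pow hD φ), hA, V1.NN_pow hD w, V1.NN_pow hD φ]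
      _ ≤ A + K := by linarith
  refine ⟨A + K, by positivity, fun φ => ?_⟩
  rcases eq_or_ne φ 0 with h0 | h0
  · rw [h0, norm_zero, mul_zero]
    have : ∫ x, |J w x| ^ (q - 2) * J w x * J (0 : H) x ∂μ = 0 := by
      rw [map_zero]
      rw [← integral_zero α ℝ (μ := μ)]
      apply integral_congr_ae
      filter_upwards [Lp.coeFn_zero ℝ 2 μ] with x hx
      rw [hx]; simp
    rw [this, abs_zero]
  · have hn : 0 < ‖φ‖ := norm_pos_iff.mpr h0
    have h1 := hunit (‖φ‖⁻¹ • φ) (by rw [norm_smul, norm_inv, norm_norm, inv_mul_cancel₀ hn.ne'])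
    have h2 : ∫ x, |J w x| ^ (q - 2) * J w x * J (‖φ‖⁻¹ • φ) x ∂μ =
        ‖φ‖⁻¹ * ∫ x, |J w x| ^ (q - 2) * J w x * J φ x ∂μ := by
      rw [map_smul, ← integral_const_mul]
      apply integral_congr_ae
      filter_upwards [Lp.coeFn_smul (‖φ‖⁻¹) (J φ)] with x hx
      rw [hx, Pi.smul_apply, smul_eq_mul]; ring
    rw [h2, abs_mul, abs_inv, abs_norm] at h1
    rw [inv_mul_le_iff₀ hn] at h1
    linarith

theorem functional_sub (hD : Dir μ J q r) (w a b : H) :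
    ∫ x, |J w x| ^ (q - 2) * J w x * J (a - b) x ∂μ =
      ∫ x, |J w x| ^ (q - 2) * J w x * J a x ∂μ - ∫ x, |J w x| ^ (q - 2) * J w x * J b x ∂μ := by
  rw [← integral_sub (V1.int_mix hD w a) (V1.int_mix hD w b), map_sub]
  apply integral_congr_ae
  filter_upwards [Lp.coeFn_sub (J a) (J b)] with x hx
  rw [hx, Pi.sub_apply]; ring

/-- the equation extends from a dense set of test elements -/
theorem extend_eq (hD : Dir μ J q r) (w : H) (l : ℝ) (S : Set H)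
    (hS : ∀ (v : H) (ε : ℝ), 0 < ε → ∃ h ∈ S, ‖v - h‖ < ε)
    (heq : ∀ h ∈ S, ⟪w, h⟫_ℝ = l * ∫ x, |J w x| ^ (q - 2) * J w x * J h x ∂μ) (φ : H) :
    ⟪w, φ⟫_ℝ = l * ∫ x, |J w x| ^ (q - 2) * J w x * J φ x ∂μ := by
  obtain ⟨K, hK0, hK⟩ := functional_bound hD w
  by_contra hne
  set d := ⟪w, φ⟫_ℝ - l * ∫ x, |J w x| ^ (q - 2) * J w x * J φ x ∂μ with hd
  have hd0 : 0 < |d| := abs_pos.mpr (sub_ne_zero.mpr hne)
  have hB : 0 < ‖w‖ + |l| * K + 1 := by positivity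
  obtain ⟨h, hhS, hh⟩ := hS φ (|d| / (‖w‖ + |l| * K + 1)) (by positivity)
  have h1 : d = ⟪w, φ - h⟫_ℝ - l * ∫ x, |J w x| ^ (q - 2) * J w x * J (φ - h) x ∂μ := by
    rw [functional_sub hD, inner_sub_right, heq h hhS, hd]; ring
  have h2 : |d| ≤ (‖w‖ + |l| * K) * ‖φ - h‖ := by
    rw [h1]
    refine (abs_sub _ _).trans ?_
    rw [abs_mul]
    have e1 := abs_real_inner_le_norm w (φ - h)
    have e2 := hK (φ - h)
    have e3 : |l| * |∫ x, |J w x| ^ (q - 2) * J w x * J (φ - h) x ∂μ| ≤ |l| * (K * ‖φ - h‖) := by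
      gcongr
    linarith
  have h3 : (‖w‖ + |l| * K) * ‖φ - h‖ < |d| := by
    have e1 : (‖w‖ + |l| * K) * ‖φ - h‖ ≤ (‖w‖ + |l| * K + 1) * ‖φ - h‖ := by
      have := norm_nonneg (φ - h)
      nlinarith
    have e2 : (‖w‖ + |l| * K + 1) * ‖φ - h‖ < (‖w‖ + |l| * K + 1) * (|d| / (‖w‖ + |l| * K + 1)) := by
      gcongr
    have e3 : (‖w‖ + |l| * K + 1) * (|d| / (‖w‖ + |l| * K + 1)) = |d| := by field_simp
    linarith
  linarith

end

end Pool.Agent.H456R3.Q.Fin
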