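import Pool.Agent.H456R3.Q.B4
import Pool.Agent.H456R3.Q.Fin
set_option autoImplicit false
set_option linter.unusedSectionVars false
set_option linter.unusedVariables false
open MeasureTheory Metric Set Filter Topology
open scoped ENNReal NNReal InnerProductSpace

namespace Pool.Agent.H456R3.Q.C1

open Pool.Agent.Helper420.QI (Dir)
open Pool.Agent.Helper420.QI
open Pool.Agent.Helper420.QI.QEig Pool.Agent.Helper420.QI.Sob Pool.Agent.Helper420.QI.Conc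
open Pool.Agent.H456R3.Q.A1 Pool.Agent.H456R3.Q.B1 Pool.Agent.H456R3.Q.B2 Pool.Agent.H456R3.Q.B3
  Pool.Agent.H456R3.Q.B4
open Pool.Agent.H456R3.Q

variable {N : ℕ} {Ω : Set (EE N)}

/-- the functional setting attached to a `q`-admissible set -/
theorem exists_all (hN : 2 ≤ N) {q : ℝ} (hq : 2 < q) (hq' : ((N : ℝ) - 2) * q < 2 * N)
    (hΩ : QAdm q Ω) :
    ∃ (J0 : HS Ω →L[ℝ] L2f N) (r : ℝ), (∀ G, J0 G = prim G) ∧ CompleteSpace (HS Ω) ∧ Poin Ω ∧
      Dir volume J0 q r ∧ Dec J0 q := by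
  obtain ⟨K, hK0, hK⟩ := poincare hq hq' hΩ
  have hP : Poin Ω := poin_of hK0 hK
  obtain ⟨J0, hJ0⟩ := exists_J0' hP
  have hc : CompleteSpace (HS Ω) := (HS_closed' hP).completeSpace_coe
  obtain ⟨r, c, hqr, hS⟩ := sob_gt hN hq hq' hK0 hK
  have hD : Dir volume J0 q r := by
    refine ⟨hq, hqr, hs_cut' hP J0 hJ0 hc, ?_, hs_comp' hq hq' hΩ J0 hJ0⟩
    obtain ⟨C, hC0, hC⟩ := hs_sob' hP hS
    exact ⟨C, hC0, fun u => by rw [hJ0]; exact hC u⟩
  obtain ⟨CQ, hCQ, hQ⟩ := Pos.NN_le hD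
  refine ⟨J0, r, hJ0, hc, hP, hD, ?_⟩
  refine dec_of hP hq J0 hJ0 (norm_nonneg J0) hCQ ?_ ?_ ?_
  · intro G
    rw [← hJ0]
    exact J0.le_opNorm G
  · intro G
    rw [← hJ0]
    exact V1.memq hD G
  · intro G
    rw [← hJ0]
    exact hQ G

section
variable {α : Type*} [MeasurableSpace α] {μ : Measure α}
  {H : Type*} [NormedAddCommGroup H] [InnerProductSpace ℝ H] [CompleteSpace H]
  {J : H →L[ℝ] Lp ℝ 2 μ} {q r : ℝ}

theorem low_bound (hD : Dir μ J q r) {l1 : ℝ}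
    (hl1 : l1 = sInf {t : ℝ | ∃ u : H, V1.NN J q u = 1 ∧ t = ‖u‖ ^ 2}) :
    ∀ v : H, l1 * V1.NN J q v ^ 2 ≤ ‖v‖ ^ 2 := by
  have hbdd : BddBelow {t : ℝ | ∃ u : H, V1.NN J q u = 1 ∧ t = ‖u‖ ^ 2} :=
    ⟨0, by rintro t ⟨u, -, rfl⟩; positivity⟩
  have hle : ∀ v : H, V1.NN J q v = 1 → l1 ≤ ‖v‖ ^ 2 := by
    intro v hv
    rw [hl1]
    exact csInf_le hbdd ⟨v, hv, rfl⟩
  intro v
  rcases eq_or_ne (V1.NN J q v) 0 with h | h
  · rw [h]; simp
  · have hpos : 0 < V1.NN J q v := lt_of_le_of_ne (V1.NN_nonneg _) (Ne.symm h)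
    have h1 := hle ((V1.NN J q v)⁻¹ • v) (by
      rw [V1.NN_smul, abs_of_pos (inv_pos.2 hpos), inv_mul_cancel₀ h])
    rw [norm_smul, mul_pow, Real.norm_eq_abs, sq_abs, inv_pow] at h1
    have h2 : 0 < V1.NN J q v ^ 2 := by positivity
    calc l1 * V1.NN J q v ^ 2 ≤ ((V1.NN J q v ^ 2)⁻¹ * ‖v‖ ^ 2) * V1.NN J q v ^ 2 :=
          mul_le_mul_of_nonneg_right h1 h2.le
      _ = ‖v‖ ^ 2 := by field_simp

/-- existence of a minimiser, which is a critical point -/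
theorem exists_min (hD : Dir μ J q r) {l1 : ℝ}
    (hl1 : l1 = sInf {t : ℝ | ∃ u : H, V1.NN J q u = 1 ∧ t = ‖u‖ ^ 2})
    (hne : ∃ u : H, V1.NN J q u = 1) : ∃ u : H, Pos.Crit J q u ∧ ‖u‖ ^ 2 = l1 ∧ 0 < l1 := by
  set A : Set ℝ := {t : ℝ | ∃ u : H, V1.NN J q u = 1 ∧ t = ‖u‖ ^ 2} with hA
  have hbdd : BddBelow A := ⟨0, by rintro t ⟨u, -, rfl⟩; positivity⟩
  have hAne : A.Nonempty := by
    obtain ⟨u, hu⟩ := hne
    exact ⟨_, u, hu, rfl⟩
  have hl := low_bound hD hl1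
  have hex : ∀ n : ℕ, ∃ u : H, V1.NN J q u = 1 ∧ ‖u‖ ^ 2 < l1 + 1 / ((n : ℝ) + 1) := by
    intro n
    obtain ⟨t, ⟨u, hu, rfl⟩, ht⟩ := exists_lt_of_csInf_lt hAne (b := l1 + 1 / ((n : ℝ) + 1)) (by
      rw [← hl1]
      have : 0 < 1 / ((n : ℝ) + 1) := by positivity
      linarith)
    exact ⟨u, hu, ht⟩
  choose u hu1 hu2 using hex
  have hge : ∀ n, l1 ≤ ‖u n‖ ^ 2 := by
    intro n
    have := hl (u n)
    rw [hu1] at this
    simpa using this
  have hul : Tendsto (fun n => ‖u n‖ ^ 2) atTop (𝓝 l1) := by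
    have h1 : Tendsto (fun n : ℕ => l1 + 1 / ((n : ℝ) + 1)) atTop (𝓝 (l1 + 0)) :=
      tendsto_const_nhds.add tendsto_one_div_add_atTop_nhds_zero_nat
    rw [add_zero] at h1
    exact tendsto_of_tendsto_of_tendsto_of_le_of_le tendsto_const_nhds h1 hge (fun n => (hu2 n).le)
  obtain ⟨u0, -, h1, h2⟩ := V1.sub_conv hD hl u hu1 hul (Ultrafilter.of atTop) (Ultrafilter.of_le _)
  refine ⟨u0, ⟨h1, fun φ => ?_⟩, h2, ?_⟩
  · have := V1.EL hD hl h1 h2 φ
    rw [h2]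
    exact this
  · rw [← h2]
    exact Pos.crit_pos hD h1

end

theorem finite_gap {F : Set ℝ} (hF : F.Finite) {l : ℝ} (h : ∀ x ∈ F, l < x) :
    ∃ δ : ℝ, 0 < δ ∧ ∀ x ∈ F, l + δ ≤ x := by
  induction F, hF using Set.Finite.induction_on with
  | empty => exact ⟨1, one_pos, by simp⟩
  | @insert a s ha hs ih =>
    obtain ⟨δ, hδ, h1⟩ := ih (fun x hx => h x (mem_insert_of_mem _ hx))
    refine ⟨min δ (a - l), lt_min hδ (sub_pos.2 (h a (mem_insert _ _))), ?_⟩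
    rintro x (rfl | hx)
    · have := min_le_right δ (x - l)
      linarith
    · have := min_le_left δ (a - l)
      have := h1 x hx
      linarith

/-- pairs (function, gradient) of the space `D^{1,2}_0` -/
def InD (q : ℝ) (Ω : Set (EE N)) (u : EE N → ℝ) (G : EE N → EE N) : Prop :=
  MemLp u (ENNReal.ofReal q) volume ∧ MemLp G 2 volume ∧
  ∃ φ : ℕ → EE N → ℝ, (∀ n, IsTest Ω (φ n)) ∧
    Tendsto (fun n => eLpNorm (fun x => φ n x - u x) (ENNReal.ofReal q) volume) atTop (𝓝 0) ∧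
    Tendsto (fun n => eLpNorm (fun x => gradient (φ n) x - G x) 2 volume) atTop (𝓝 0)

theorem inD_to {q : ℝ} (hq : 2 < q) (hP : Poin Ω) {u : EE N → ℝ} {G : EE N → EE N}
    (h : InD q Ω u G) : ∃ w : HS Ω, (u =ᵐ[volume] prim w) ∧ (G =ᵐ[volume] (w : L2v N)) := by
  obtain ⟨hu, hG, φ, hφ, h1, h2⟩ := h
  have e2 : Tendsto (fun n => gL (hφ n)) atTop (𝓝 (hG.toLp G)) :=
    (Lp.tendsto_Lp_iff_tendsto_eLpNorm'' _ (fun n => memLp_grad (hφ n) 2) _ hG).mpr h2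
  have hP' := hP
  obtain ⟨C, hC0, hC⟩ := hP'
  have hcau : CauchySeq (fun n => fL (hφ n)) := by
    have h3 := e2.cauchySeq
    rw [Metric.cauchySeq_iff'] at h3 ⊢
    intro ε hε
    obtain ⟨n0, hn0⟩ := h3 (ε / (C + 1)) (by positivity)
    refine ⟨n0, fun n hn => ?_⟩
    have m1 : (fL (hφ n), gL (hφ n)) ∈ DD Ω := subset_closure (mem_PS (hφ n))
    have m2 : (fL (hφ n0), gL (hφ n0)) ∈ DD Ω := subset_closure (mem_PS (hφ n0))
    have h4 := hC _ ((DD Ω).sub_mem m1 m2)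
    simp only [Prod.fst_sub, Prod.snd_sub] at h4
    have h5 := hn0 n hn
    rw [dist_eq_norm] at h5 ⊢
    calc ‖fL (hφ n) - fL (hφ n0)‖ ≤ C * ‖gL (hφ n) - gL (hφ n0)‖ := h4
      _ ≤ (C + 1) * ‖gL (hφ n) - gL (hφ n0)‖ := by gcongr; linarith
      _ < (C + 1) * (ε / (C + 1)) := by gcongr
      _ = ε := by field_simp
  obtain ⟨U, hU⟩ := cauchySeq_tendsto_of_complete hcau
  have hmem : (U, hG.toLp G) ∈ DD Ω :=
    (DD_closed Ω).mem_of_tendsto (hU.prodMk_nhds e2)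
      (Eventually.of_forall fun n => subset_closure (mem_PS (hφ n)))
  set w : HS Ω := ⟨hG.toLp G, mem_HS.mpr ⟨_, hmem⟩⟩ with hw
  have e4 : prim w = U := DD_unique' hP (prim_mem w) hmem
  refine ⟨w, ?_, hG.coeFn_toLp.symm⟩
  rw [e4]
  -- both limits
  have m1 : TendstoInMeasure volume (fun n => φ n) atTop u := by
    refine tendstoInMeasure_of_tendsto_eLpNorm (p := ENNReal.ofReal q) (by
      have : 0 < q := by linarith
      simpa using this) (fun n => (hφ n).1.continuous.aestronglyMeasurable) hu.1 h1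
  have m2 : TendstoInMeasure volume (fun n => φ n) atTop U := by
    have m3 : TendstoInMeasure volume (fun n => (fL (hφ n) : EE N → ℝ)) atTop U :=
      tendstoInMeasure_of_tendsto_Lp hU
    exact m3.congr_left (fun n => fL_coe (hφ n))
  exact tendstoInMeasure_ae_unique m1 m2

theorem inD_of {q r : ℝ} (hP : Poin Ω) (J0 : HS Ω →L[ℝ] L2f N) (hJ0 : ∀ G, J0 G = prim G)
    (hc : CompleteSpace (HS Ω)) (hD : Dir volume J0 q r) (w : HS Ω) :
    InD q Ω (prim w) (w : L2v N) := by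
  obtain ⟨K, hK0, hK⟩ := Pos.NN_le hD
  obtain ⟨φ, hφ, h1, h2⟩ := exists_seq w
  refine ⟨?_, Lp.memLp _, φ, hφ, ?_, ?_⟩
  · rw [← hJ0]; exact V1.memq hD w
  · have e1 : ∀ n, eLpNorm (fun x => φ n x - prim w x) (ENNReal.ofReal q) volume ≤
        ENNReal.ofReal (K * ‖gH (hφ n) - w‖) := by
      intro n
      have e2 := hK (gH (hφ n) - w)
      have e3 : eLpNorm (fun x => φ n x - prim w x) (ENNReal.ofReal q) volume =
          eLpNorm (J0 (gH (hφ n) - w)) (ENNReal.ofReal q) volume := by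
        apply eLpNorm_congr_ae
        rw [map_sub]
        filter_upwards [Lp.coeFn_sub (J0 (gH (hφ n))) (J0 w), J_gH' hP J0 hJ0 (hφ n)] with x a1 a2
        rw [a1, Pi.sub_apply, a2, hJ0]
      rw [e3]
      unfold V1.NN at e2
      rw [← ENNReal.ofReal_toReal (V1.memq hD (gH (hφ n) - w)).2.ne]
      exact ENNReal.ofReal_le_ofReal e2
    have e4 : Tendsto (fun n => ENNReal.ofReal (K * ‖gH (hφ n) - w‖)) atTop (𝓝 0) := by
      have := (tendsto_iff_norm_sub_tendsto_zero.mp h1).const_mul K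
      rw [mul_zero] at this
      have h3 := (ENNReal.continuous_ofReal.tendsto 0).comp this
      rw [ENNReal.ofReal_zero] at h3
      exact h3
    exact tendsto_of_tendsto_of_tendsto_of_le_of_le tendsto_const_nhds e4 (fun n => zero_le) e1
  · have e3 : Tendsto (fun n => gL (hφ n)) atTop (𝓝 (w : L2v N)) :=
      (continuous_subtype_val.tendsto w).comp h1
    have e2 : (w : L2v N) = (Lp.memLp (w : L2v N)).toLp (w : L2v N) := (Lp.toLp_coeFn _ _).symm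
    rw [e2] at e3
    exact (Lp.tendsto_Lp_iff_tendsto_eLpNorm'' _ (fun n => memLp_grad (hφ n) 2) _ (Lp.memLp _)).mp e3

end Pool.Agent.H456R3.Q.C1
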