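import Pool.Agent.H456R3.Q.C1
set_option autoImplicit false
set_option linter.unusedSectionVars false
set_option linter.unusedVariables false
open MeasureTheory Metric Set Filter Topology
open scoped ENNReal NNReal InnerProductSpace

namespace Pool.Agent.H456R3.Q.C1

open Pool.Agent.Helper420.QI (Dir)
open Pool.Agent.Helper420.QI
open Pool.Agent.Helper420.QI.QEig Pool.Agent.Helper420.QI.Sob Pool.Agent.Helper420.QI.Conc
open Pool.Agent.H456R3.Q.A1 Pool.Agent.H456R3.Q.B1 Pool.Agent.H456R3.Q.B2 Pool.Agent.H456R3.Q.B3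
  Pool.Agent.H456R3.Q.B4
open Pool.Agent.H456R3.Q

variable {N : ℕ} {Ω : Set (EE N)}

/-- the eigenvalue problem -/
def Eig (q : ℝ) (Ω : Set (EE N)) (lam : ℝ) : Prop :=
  ∃ (u : EE N → ℝ) (G : EE N → EE N), InD q Ω u G ∧ ¬ (u =ᵐ[volume] 0) ∧
    ∀ ψ : EE N → ℝ, IsTest Ω ψ → ∫ x, inner ℝ (G x) (gradient ψ x) =
      lam * ((eLpNorm u (ENNReal.ofReal q) volume).toReal) ^ (2 - q) *
        ∫ x, |u x| ^ (q - 2) * u x * ψ x

theorem norm_sq_int (w : HS Ω) {G : EE N → EE N} (hG : G =ᵐ[volume] (w : L2v N)) :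
    ∫ x, ‖G x‖ ^ 2 = ‖w‖ ^ 2 := by
  rw [← real_inner_self_eq_norm_sq w, Submodule.coe_inner, L2.inner_def]
  apply integral_congr_ae
  filter_upwards [hG] with x hx
  rw [hx, real_inner_self_eq_norm_sq]

theorem nn_eq {q : ℝ} (J0 : HS Ω →L[ℝ] L2f N) (hJ0 : ∀ G, J0 G = prim G) (w : HS Ω)
    {u : EE N → ℝ} (hu : u =ᵐ[volume] prim w) :
    V1.NN J0 q w = (eLpNorm u (ENNReal.ofReal q) volume).toReal := by
  unfold V1.NN
  rw [hJ0, eLpNorm_congr_ae hu]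

theorem inner_test (w : HS Ω) {G : EE N → EE N} (hG : G =ᵐ[volume] (w : L2v N))
    {ψ : EE N → ℝ} (hψ : IsTest Ω ψ) :
    ∫ x, inner ℝ (G x) (gradient ψ x) = ⟪w, gH hψ⟫_ℝ := by
  rw [Submodule.coe_inner, L2.inner_def]
  apply integral_congr_ae
  filter_upwards [hG, gL_coe hψ] with x h1 h2
  rw [h1, gH_coe, h2]

theorem eig_iff {q r : ℝ} (hP : Poin Ω) (J0 : HS Ω →L[ℝ] L2f N) (hJ0 : ∀ G, J0 G = prim G)
    (hc : CompleteSpace (HS Ω)) (hD : Dir volume J0 q r) (lam : ℝ) :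
    Eig q Ω lam ↔ ∃ w : HS Ω, Pos.Crit J0 q w ∧ ‖w‖ ^ 2 = lam := by
  have hq := hD.two_lt
  have hq0 : 0 < q := by linarith
  constructor
  · rintro ⟨u, G, hIn, hne, heq⟩
    obtain ⟨w, huw, hGw⟩ := inD_to hq hP hIn
    set n : ℝ := (eLpNorm u (ENNReal.ofReal q) volume).toReal with hn
    have hnN : V1.NN J0 q w = n := nn_eq J0 hJ0 w huw
    have hn0 : 0 < n := by
      rcases (V1.NN_nonneg w : 0 ≤ V1.NN J0 q w).eq_or_lt with h | h
      · exfalso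
        apply hne
        have h1 : J0 w =ᵐ[volume] 0 := by
          apply Pos.ae_zero_of_NN hD
          rw [← h, Real.zero_rpow hq0.ne']
        rw [hJ0] at h1
        exact huw.trans h1
      · rwa [hnN] at h
    have heq' : ∀ φ : HS Ω, ⟪w, φ⟫_ℝ = lam * n ^ (2 - q) * Pos.I J0 q w φ := by
      intro φ
      refine Fin.extend_eq hD w (lam * n ^ (2 - q))
        {h : HS Ω | ∃ (ψ : EE N → ℝ) (hψ : IsTest Ω ψ), h = gH hψ} ?_ ?_ φ
      · intro v ε' hε'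
        obtain ⟨ψ, hψ, h1, -⟩ := exists_seq v
        have e1 := (tendsto_iff_norm_sub_tendsto_zero.mp h1).eventually (gt_mem_nhds hε')
        obtain ⟨m, hm⟩ := e1.exists
        refine ⟨gH (hψ m), ⟨ψ m, hψ m, rfl⟩, ?_⟩
        rw [norm_sub_rev]
        exact hm
      · rintro h ⟨ψ, hψ, rfl⟩
        have h6 := heq ψ hψ
        rw [inner_test w hGw hψ] at h6
        rw [h6]
        congr 1
        apply integral_congr_ae
        filter_upwards [huw, J_gH' hP J0 hJ0 hψ] with x e1 e2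
        rw [e1, e2, hJ0]
    have hnv : V1.NN J0 q (n⁻¹ • w) = 1 := by
      rw [V1.NN_smul, abs_of_pos (inv_pos.mpr hn0), hnN, inv_mul_cancel₀ hn0.ne']
    have hv : ∀ φ : HS Ω, ⟪n⁻¹ • w, φ⟫_ℝ = lam * Pos.I J0 q (n⁻¹ • w) φ := by
      intro φ
      have h5 : ⟪n⁻¹ • w, φ⟫_ℝ = n⁻¹ * ⟪w, φ⟫_ℝ := real_inner_smul_left w φ n⁻¹
      rw [h5, heq' φ, Pos.I_smul_left hq _ _ (inv_pos.mpr hn0)]
      have h4 : n⁻¹ ^ (q - 1) = n⁻¹ * n ^ (2 - q) := by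
        rw [Real.inv_rpow hn0.le, ← Real.rpow_neg hn0.le, ← Real.rpow_neg_one n, ← Real.rpow_add hn0]
        congr 1; ring
      rw [h4]; ring
    have hI1 : Pos.I J0 q (n⁻¹ • w) (n⁻¹ • w) = 1 := by
      have h1 : V1.NN J0 q (n⁻¹ • w) ^ q = 1 := by rw [hnv, Real.one_rpow]
      rw [← h1, V1.NN_pow hD]
      unfold Pos.I
      apply integral_congr_ae
      refine Eventually.of_forall fun x => ?_
      simp only
      set t := J0 (n⁻¹ • w) x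
      have h2 : |t| ^ (q - 2) * t * t = |t| ^ (q - 2) * (|t| * |t|) := by
        rw [abs_mul_abs_self]; ring
      rw [h2]
      rcases eq_or_ne |t| 0 with h0 | h0
      · rw [h0, Real.zero_rpow hq0.ne']; simp
      · rw [← mul_assoc, ← Real.rpow_add_one h0, ← Real.rpow_add_one h0]; congr 1; ring
    have hlam : ‖n⁻¹ • w‖ ^ 2 = lam := by
      rw [← real_inner_self_eq_norm_sq, hv, hI1, mul_one]
    refine ⟨n⁻¹ • w, ⟨hnv, fun φ => ?_⟩, hlam⟩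
    rw [hlam]; exact hv φ
  · rintro ⟨w, hw, rfl⟩
    have hNN : (eLpNorm (prim w) (ENNReal.ofReal q) volume).toReal = 1 := by
      rw [← nn_eq J0 hJ0 w (EventuallyEq.rfl), hw.1]
    refine ⟨prim w, (w : L2v N), inD_of hP J0 hJ0 hc hD w, ?_, ?_⟩
    · intro h
      rw [eLpNorm_congr_ae h] at hNN
      simp at hNN
    · intro ψ hψ
      rw [inner_test w (EventuallyEq.rfl) hψ, hw.2, hNN, Real.one_rpow, mul_one]
      congr 1
      unfold Pos.I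
      apply integral_congr_ae
      filter_upwards [J_gH' hP J0 hJ0 hψ] with x e2
      rw [e2, hJ0]

theorem lam_set {q r : ℝ} (hP : Poin Ω) (J0 : HS Ω →L[ℝ] L2f N) (hJ0 : ∀ G, J0 G = prim G)
    (hc : CompleteSpace (HS Ω)) (hD : Dir volume J0 q r) :
    {t : ℝ | ∃ (u : EE N → ℝ) (G : EE N → EE N), InD q Ω u G ∧
      eLpNorm u (ENNReal.ofReal q) volume = 1 ∧ t = ∫ x, ‖G x‖ ^ 2} =
    {t : ℝ | ∃ u : HS Ω, V1.NN J0 q u = 1 ∧ t = ‖u‖ ^ 2} := by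
  ext t
  constructor
  · rintro ⟨u, G, hIn, h1, rfl⟩
    obtain ⟨w, huw, hGw⟩ := inD_to hD.two_lt hP hIn
    refine ⟨w, ?_, norm_sq_int w hGw⟩
    rw [nn_eq J0 hJ0 w huw, h1]
    simp
  · rintro ⟨w, hw, rfl⟩
    refine ⟨prim w, (w : L2v N), inD_of hP J0 hJ0 hc hD w, ?_, (norm_sq_int w EventuallyEq.rfl).symm⟩
    rw [nn_eq J0 hJ0 w (EventuallyEq.rfl)] at hw
    exact (ENNReal.toReal_eq_one_iff _).1 hw

/-- a nonzero element of the space when `Ω` is nonempty -/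
theorem exists_unit {q r : ℝ} (hP : Poin Ω) (J0 : HS Ω →L[ℝ] L2f N) (hJ0 : ∀ G, J0 G = prim G)
    (hc : CompleteSpace (HS Ω)) (hD : Dir volume J0 q r) (hΩ : IsOpen Ω) (hne : Ω.Nonempty) :
    ∃ u : HS Ω, V1.NN J0 q u = 1 := by
  have hq := hD.two_lt
  obtain ⟨x0, hx0⟩ := hne
  obtain ⟨φ, h1, h2, h3, h4, h5⟩ := exists_contDiff_tsupport_subset (n := (⊤ : ℕ∞)) (hΩ.mem_nhds hx0)
  have hφ : IsTest Ω φ := ⟨h3, h2, h1⟩
  have hpos : 0 < V1.NN J0 q (gH hφ) := by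
    rcases (V1.NN_nonneg (gH hφ) : 0 ≤ V1.NN J0 q (gH hφ)).eq_or_lt with h | h
    · exfalso
      have h6 : J0 (gH hφ) =ᵐ[volume] 0 := by
        apply Pos.ae_zero_of_NN hD
        rw [← h, Real.zero_rpow (by linarith)]
      have h7 : φ =ᵐ[volume] (fun _ => (0:ℝ)) := (J_gH' hP J0 hJ0 hφ).symm.trans h6
      have h8 := (h3.continuous.ae_eq_iff_eq volume continuous_const).1 h7
      have : φ x0 = 0 := by rw [h8]
      rw [h5] at this
      norm_num at this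
    · exact h
  refine ⟨(V1.NN J0 q (gH hφ))⁻¹ • gH hφ, ?_⟩
  rw [V1.NN_smul, abs_of_pos (inv_pos.2 hpos), inv_mul_cancel₀ hpos.ne']

/-- main theorem -/
theorem main (hN : 2 ≤ N) {q : ℝ} (hq : 2 < q) (hq' : ((N : ℝ) - 2) * q < 2 * N)
    (hΩo : IsOpen Ω) (hΩ : QAdm q Ω) {l1 : ℝ}
    (hl1 : l1 = sInf {t : ℝ | ∃ (u : EE N → ℝ) (G : EE N → EE N), InD q Ω u G ∧
      eLpNorm u (ENNReal.ofReal q) volume = 1 ∧ t = ∫ x, ‖G x‖ ^ 2}) :
    (Ω.Nonempty → IsLeast {lam | Eig q Ω lam} l1 ∧ 0 < l1) ∧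
    ∃ ε : ℝ, 0 < ε ∧ (∀ lam, Eig q Ω lam → l1 < lam → l1 + ε ≤ lam) ∧
      {lam | Eig q Ω lam ∧ lam ≤ 2 ^ (1 - 2 / q) * l1 + ε}.Finite := by
  obtain ⟨J0, r, hJ0, hc, hP, hD, hDec⟩ := exists_all hN hq hq' hΩ
  have hiff := fun lam => eig_iff hP J0 hJ0 hc hD lam
  rw [lam_set hP J0 hJ0 hc hD] at hl1
  have hl := C1.low_bound hD hl1
  have hge : ∀ w : HS Ω, Pos.Crit J0 q w → l1 ≤ ‖w‖ ^ 2 := by
    intro w hw
    have := hl w
    rw [hw.1] at this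
    simpa using this
  have hl0 : 0 ≤ l1 := by
    rw [hl1]
    apply Real.sInf_nonneg
    rintro t ⟨u, -, rfl⟩
    positivity
  refine ⟨fun hne => ?_, ?_⟩
  · obtain ⟨u, hu, hu2, hu3⟩ := C1.exists_min hD hl1 (exists_unit hP J0 hJ0 hc hD hΩo hne)
    refine ⟨⟨(hiff l1).2 ⟨u, hu, hu2⟩, ?_⟩, hu3⟩
    rintro lam hlam
    obtain ⟨w, hw, rfl⟩ := (hiff lam).1 hlam
    exact hge w hw
  · obtain ⟨ε, hε, hfin⟩ := Pos.low_finite hD hDec hl
    have hpow : (1 : ℝ) ≤ 2 ^ (1 - 2 / q) := by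
      apply Real.one_le_rpow (by norm_num)
      have : 2 / q ≤ 1 := by rw [div_le_one (by linarith)]; linarith
      linarith
    have hbig : l1 + ε ≤ 2 ^ (1 - 2 / q) * l1 + ε := by nlinarith
    have hfin2 : {lam | Eig q Ω lam ∧ lam ≤ 2 ^ (1 - 2 / q) * l1 + ε}.Finite := by
      refine hfin.subset ?_
      rintro lam ⟨h1, h2⟩
      exact ⟨h2, (hiff lam).1 h1⟩
    obtain ⟨δ, hδ, hgap⟩ := finite_gap
      (F := {lam | (Eig q Ω lam ∧ lam ≤ 2 ^ (1 - 2 / q) * l1 + ε) ∧ l1 < lam})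
      (hfin2.subset (fun x hx => hx.1)) (l := l1) (fun x hx => hx.2)
    refine ⟨min δ ε, lt_min hδ hε, ?_, ?_⟩
    · intro lam hlam hlt
      by_cases h : lam ≤ 2 ^ (1 - 2 / q) * l1 + ε
      · have := hgap lam ⟨⟨hlam, h⟩, hlt⟩
        have := min_le_left δ ε
        linarith
      · push Not at h
        have := min_le_right δ ε
        linarith
    · refine hfin2.subset ?_
      rintro lam ⟨h1, h2⟩
      have := min_le_right δ ε
      exact ⟨h1, by linarith⟩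

end Pool.Agent.H456R3.Q.C1
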