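import Pool.Agent.H456R3.Q.W3
import Pool.Agent.H456R3.Q.W4
import Pool.Agent.Helper420.QI.Z3
set_option autoImplicit false
set_option linter.unusedSectionVars false
set_option linter.unusedVariables false
open MeasureTheory Filter Topology Set
open scoped ENNReal NNReal InnerProductSpace

open Pool.Agent.Helper420.QI (Dir)
open Pool.Agent.Helper420.QI

namespace Pool.Agent.H456R3.Q.Energy

variable {α : Type*} [MeasurableSpace α] {μ : Measure α}
  {H : Type*} [NormedAddCommGroup H] [InnerProductSpace ℝ H] [CompleteSpace H]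
  {J : H →L[ℝ] Lp ℝ 2 μ} {q r : ℝ}

theorem norm_sq_eq (hD : Dir μ J q r) (u : H)
    (hu : ∀ φ : H, ⟪u, φ⟫_ℝ = ∫ x, |J u x| ^ (q - 2) * J u x * J φ x ∂μ) :
    ‖u‖ ^ 2 = ∫ x, |J u x| ^ q ∂μ := by
  rw [← real_inner_self_eq_norm_sq, hu u]
  apply integral_congr_ae
  refine Eventually.of_forall fun x => ?_
  have hq := hD.two_lt
  simp only
  rw [mul_assoc, ← pow_two, ← sq_abs, ← Real.rpow_natCast, ← Real.rpow_add' (abs_nonneg _)]
  · norm_num
  · push_cast; linarith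

theorem energy_aux (hD : Dir μ J q r) (u0 v0 : H)
    (hu0 : ∀ φ : H, ⟪u0, φ⟫_ℝ = ∫ x, |J u0 x| ^ (q - 2) * J u0 x * J φ x ∂μ)
    (hv0 : J v0 =ᵐ[μ] fun x => |J u0 x|)
    (hsup : ∀ φ : H, 0 ≤ᵐ[μ] J φ → ∫ x, (J v0 x) ^ (q - 1) * J φ x ∂μ ≤ ⟪v0, φ⟫_ℝ)
    (hdec : ∀ s : ℝ, 0 < s → ∃ C : ℝ, 0 ≤ C ∧ ∀ t : ℝ, 0 < t → t ≤ 1 →
      μ.real {x | t < J v0 x} ≤ C * t ^ (-s))
    (u : ℕ → H)
    (hu : ∀ n, ∀ φ : H, ⟪u n, φ⟫_ℝ = ∫ x, |J (u n) x| ^ (q - 2) * J (u n) x * J φ x ∂μ)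
    (hlim : Tendsto u atTop (𝓝 u0)) (m : Measure α)
    (hm : m = μ.withDensity fun x => ENNReal.ofReal (|J u0 x| ^ q))
    (haeof : ∀ p : α → Prop, (∀ᵐ x ∂m, p x) → ∀ᵐ x ∂μ, J u0 x ≠ 0 → p x)
    (haeto : ∀ p : α → Prop, (∀ᵐ x ∂μ, J u0 x ≠ 0 → p x) → ∀ᵐ x ∂m, p x)
    (hintm : ∀ F : α → ℝ, ∫ t, F t ∂m = ∫ x, |J u0 x| ^ q * F x ∂μ)
    (T : Lp ℝ ∞ m →L[ℝ] Lp ℝ ∞ m)
    (hTc : IsCompactOperator T) (hTs : ∀ y z, ∫ t, T y t * z t ∂m = ∫ t, y t * T z t ∂m)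
    (hTg : ∀ y, ∃ g : H, (∀ φ : H, ⟪g, φ⟫_ℝ = ∫ x, |J u0 x| ^ (q - 2) * J u0 x * y x * J φ x ∂μ) ∧
        J g =ᵐ[μ] fun x => J u0 x * T y x) :
    ∀ᶠ n in atTop, ‖u n‖ = ‖u0‖ := by
  have hq := hD.two_lt
  have hq0 : 0 < q := by linarith
  have hint : Integrable (fun x => |J u0 x| ^ q) μ := Pool.Agent.H456R3.Q.W4.intq hD u0
  have hfin : IsFiniteMeasure m := by
    rw [hm]
    exact isFiniteMeasure_withDensity_ofReal hint.2
  -- elements determined by their right hand side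
  have huniq : ∀ (F : α → ℝ) (g w : H), (∀ φ : H, ⟪g, φ⟫_ℝ = ∫ x, F x * J φ x ∂μ) →
      (∀ φ : H, ⟪w, φ⟫_ℝ = ∫ x, F x * J φ x ∂μ) → g = w := by
    intro F g w h1 h2
    apply ext_inner_right ℝ
    intro φ
    rw [h1, h2]
  have hkey : ∀ (y : Lp ℝ ∞ m) (w : H), (∀ φ : H, ⟪w, φ⟫_ℝ = ∫ x, |J w x| ^ (q - 2) * J w x * J φ x ∂μ) →
      (∀ᵐ x ∂μ, |J w x| ^ (q - 2) * J w x = |J u0 x| ^ (q - 2) * J u0 x * y x) →
      ∀ᵐ x ∂μ, J w x = J u0 x * T y x := by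
    intro y w hw he
    obtain ⟨g, hg1, hg2⟩ := hTg y
    have h1 : g = w := by
      apply huniq (fun x => |J u0 x| ^ (q - 2) * J u0 x * y x) g w hg1
      intro φ
      rw [hw φ]
      apply integral_congr_ae
      filter_upwards [he] with x hx
      rw [hx]
    rw [← h1]
    exact hg2
  have hT1 : ∀ x : Lp ℝ ∞ m, (x =ᵐ[m] fun _ => (1 : ℝ)) → T x =ᵐ[m] fun _ => (1 : ℝ) := by
    intro y hy
    have h1 := haeof _ hy
    have h2 := hkey y u0 hu0 (by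
      filter_upwards [h1] with x hx
      by_cases h0 : J u0 x = 0
      · simp [h0]
      · rw [hx h0, mul_one])
    apply haeto
    filter_upwards [h2] with x hx h0
    have : J u0 x * (T y x) = J u0 x * 1 := by rw [mul_one]; exact hx.symm
    exact mul_left_cancel₀ h0 this
  -- the sequence of relative perturbations
  classical
  set f : ℕ → α → ℝ := fun n x => J (u n) x / J u0 x - 1 with hf
  have hfm : ∀ n, AEStronglyMeasurable (f n) m := by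
    intro n
    have h1 : Measurable (fun x => J (u n) x / J u0 x - 1) :=
      ((Lp.stronglyMeasurable (J (u n))).measurable.div
        (Lp.stronglyMeasurable (J u0)).measurable).sub_const 1
    exact h1.aestronglyMeasurable
  have hnear : ∀ ε : ℝ, 0 < ε → ∀ᶠ n in atTop, ∀ᵐ x ∂μ, |J (u n) x - J u0 x| ≤ ε * |J u0 x| :=
    fun ε hε => Pool.Agent.H456R3.Q.W3.near hD u0 v0 hu0 hv0 hsup hdec u hu hlim hε
  have hfb : ∀ ε : ℝ, 0 < ε → ∀ᶠ n in atTop, ∀ᵐ x ∂m, |f n x| ≤ ε := by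
    intro ε hε
    filter_upwards [hnear ε hε] with n hn
    apply haeto
    filter_upwards [hn] with x hx h0
    have h1 : f n x = (J (u n) x - J u0 x) / J u0 x := by
      rw [hf]; field_simp
    rw [h1, abs_div, div_le_iff₀ (abs_pos.mpr h0)]
    exact hx
  have hmemLp : ∀ n, (∀ᵐ x ∂m, |f n x| ≤ 1) → MemLp (f n) ∞ m := by
    intro n hn
    exact memLp_top_of_bound (hfm n) 1 hn
  set φ : ℕ → Lp ℝ ∞ m := fun n => if h : MemLp (f n) ∞ m then h.toLp (f n) else 0 with hφdef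
  have hφcoe : ∀ᶠ n in atTop, φ n =ᵐ[m] f n := by
    filter_upwards [hfb 1 one_pos] with n hn
    have h := hmemLp n hn
    rw [hφdef]
    simp only [dif_pos h]
    exact h.coeFn_toLp
  have hφ : Tendsto φ atTop (𝓝 0) := by
    rw [Metric.tendsto_atTop']
    intro ε hε
    obtain ⟨n0, hn0⟩ := eventually_atTop.mp (hφcoe.and (hfb (ε / 2) (by positivity)))
    refine ⟨n0, fun n hn => ?_⟩
    obtain ⟨h1, h2⟩ := hn0 n hn.le
    rw [dist_zero_right]
    have h3 : ‖φ n‖ ≤ ε / 2 := by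
      rw [Lp.norm_def, eLpNorm_exponent_top]
      apply ENNReal.toReal_le_of_le_ofReal (by positivity)
      apply eLpNormEssSup_le_of_ae_bound
      filter_upwards [h1, h2] with x e1 e2
      rw [e1, Real.norm_eq_abs]
      exact e2
    linarith
  -- pointwise relation
  have hrel : ∀ᶠ n in atTop, ∀ᵐ x ∂μ, (J u0 x = 0 → J (u n) x = 0) ∧
      (J u0 x ≠ 0 → J (u n) x = J u0 x * (1 + f n x) ∧ 0 ≤ 1 + f n x) := by
    filter_upwards [hnear 1 one_pos] with n hn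
    filter_upwards [hn] with x hx
    constructor
    · intro h0
      rw [h0] at hx
      simp only [sub_zero, abs_zero, mul_zero] at hx
      exact abs_eq_zero.mp (le_antisymm hx (abs_nonneg _))
    · intro h0
      have h1 : 1 + f n x = J (u n) x / J u0 x := by rw [hf]; ring
      constructor
      · rw [h1]; field_simp
      · have h2 : |f n x| ≤ 1 := by
          have h3 : f n x = (J (u n) x - J u0 x) / J u0 x := by
            rw [hf]; field_simp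
          rw [h3, abs_div, div_le_iff₀ (abs_pos.mpr h0)]
          exact hx
        have := (abs_le.mp h2).1
        linarith
  have hsol : ∀ᶠ n in atTop, ∀ x : Lp ℝ ∞ m, (x =ᵐ[m] fun t => (1 + φ n t) ^ (q - 1)) →
      T x =ᵐ[m] fun t => 1 + φ n t := by
    filter_upwards [hrel, hφcoe] with n hn hc y hy
    have h1 := haeof _ hy
    have h2 := haeof _ hc
    have h3 := hkey y (u n) (hu n) (by
      filter_upwards [h1, h2, hn] with x e1 e2 e3
      by_cases h0 : J u0 x = 0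
      · rw [h0, e3.1 h0]; simp
      · obtain ⟨e4, e5⟩ := e3.2 h0
        rw [e1 h0, e2 h0, e4, abs_mul, abs_of_nonneg e5, Real.mul_rpow (abs_nonneg _) e5]
        have e6 : (1 + f n x) ^ (q - 1) = (1 + f n x) ^ (q - 2) * (1 + f n x) := by
          rcases e5.eq_or_lt with e7 | e7
          · rw [← e7, mul_zero, Real.zero_rpow (by linarith)]
          · rw [← Real.rpow_add_one e7.ne']
            congr 1; ring
        rw [e6]; ring)
    apply haeto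
    filter_upwards [h2, h3, hn] with x e2 e3 e4 h0
    rw [e2 h0]
    obtain ⟨e5, e6⟩ := e4.2 h0
    rw [e5] at e3
    exact (mul_left_cancel₀ h0 e3).symm
  have hfinal := Z3.abs_energy m T hTc hTs hT1 (q - 1) (by linarith) φ hφ hsol
  have hun : ‖u0‖ ^ 2 = m.real univ := by
    have h1 := hintm (fun _ => (1 : ℝ))
    rw [integral_const, smul_eq_mul, mul_one] at h1
    rw [norm_sq_eq hD u0 hu0, h1]
    simp
  filter_upwards [hfinal, hrel, hφcoe] with n h1 h2 h3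
  have h4 : ‖u n‖ ^ 2 = ∫ t, (1 + φ n t) ^ (q - 1 + 1) ∂m := by
    rw [norm_sq_eq hD (u n) (hu n), hintm]
    apply integral_congr_ae
    filter_upwards [h2, haeof _ h3] with x e1 e2
    by_cases h0 : J u0 x = 0
    · rw [h0, e1.1 h0, abs_zero, Real.zero_rpow hq0.ne', zero_mul]
    · obtain ⟨e4, e5⟩ := e1.2 h0
      rw [e2 h0, e4, abs_mul, abs_of_nonneg e5, Real.mul_rpow (abs_nonneg _) e5]
      congr 2
      ring
  have h5 : ‖u n‖ ^ 2 = ‖u0‖ ^ 2 := by rw [h4, h1, hun]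
  exact (sq_eq_sq₀ (norm_nonneg _) (norm_nonneg _)).mp h5

theorem energy_const (hD : Dir μ J q r) (u0 v0 : H)
    (hu0 : ∀ φ : H, ⟪u0, φ⟫_ℝ = ∫ x, |J u0 x| ^ (q - 2) * J u0 x * J φ x ∂μ)
    (hv0 : J v0 =ᵐ[μ] fun x => |J u0 x|)
    (hsup : ∀ φ : H, 0 ≤ᵐ[μ] J φ → ∫ x, (J v0 x) ^ (q - 1) * J φ x ∂μ ≤ ⟪v0, φ⟫_ℝ)
    (hdec : ∀ s : ℝ, 0 < s → ∃ C : ℝ, 0 ≤ C ∧ ∀ t : ℝ, 0 < t → t ≤ 1 →
      μ.real {x | t < J v0 x} ≤ C * t ^ (-s))
    (u : ℕ → H)
    (hu : ∀ n, ∀ φ : H, ⟪u n, φ⟫_ℝ = ∫ x, |J (u n) x| ^ (q - 2) * J (u n) x * J φ x ∂μ)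
    (hlim : Tendsto u atTop (𝓝 u0)) :
    ∀ᶠ n in atTop, ‖u n‖ = ‖u0‖ := by
  have hq := hD.two_lt
  have hq0 : 0 < q := by linarith
  obtain ⟨T, hTc, hTs, hTg⟩ := Pool.Agent.H456R3.Q.W4.compT hD u0 v0 hu0 hv0 hsup hdec
  refine energy_aux hD u0 v0 hu0 hv0 hsup hdec u hu hlim _ rfl (fun p hp => Pool.Agent.H456R3.Q.W4.ae_of_m u0 hp)
    (fun p hp => Pool.Agent.H456R3.Q.W4.ae_to_m u0 hq0 hp) (fun F => ?_) T hTc hTs hTg
  rw [integral_withDensity_eq_integral_toReal_smul₀ (Pool.Agent.H456R3.Q.W4.wmeas u0 q)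
      (Eventually.of_forall fun x => ENNReal.ofReal_lt_top)]
  apply integral_congr_ae
  refine Eventually.of_forall fun x => ?_
  simp only
  rw [ENNReal.toReal_ofReal (by positivity), smul_eq_mul]

end Pool.Agent.H456R3.Q.Energy
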