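import Pool.Agent.H456R3.Q.V1
set_option autoImplicit false
set_option linter.unusedSectionVars false
set_option linter.unusedVariables false
open MeasureTheory Filter Topology Set
open scoped ENNReal NNReal InnerProductSpace

open Pool.Agent.Helper420.QI (Dir)
open Pool.Agent.H456R3.Q

namespace Pool.Agent.H456R3.Q.Pos
open Pool.Agent.H456R3.Q.V1

variable {α : Type*} [MeasurableSpace α] {μ : Measure α}
  {H : Type*} [NormedAddCommGroup H] [InnerProductSpace ℝ H] [CompleteSpace H]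
  {J : H →L[ℝ] Lp ℝ 2 μ} {q r : ℝ}

/-- the nonlinear functional -/
noncomputable def I (J : H →L[ℝ] Lp ℝ 2 μ) (q : ℝ) (u φ : H) : ℝ :=
  ∫ x, |J u x| ^ (q - 2) * J u x * J φ x ∂μ

theorem I_smul (u φ : H) (s : ℝ) : I J q u (s • φ) = s * I J q u φ := by
  unfold I
  rw [← integral_const_mul, map_smul]
  apply integral_congr_ae
  filter_upwards [Lp.coeFn_smul s (J φ)] with x hx
  rw [hx, Pi.smul_apply, smul_eq_mul]; ring

theorem I_sub (hD : Dir μ J q r) (u a b : H) : I J q u (a - b) = I J q u a - I J q u b := by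
  unfold I
  rw [← integral_sub (int_mix hD u a) (int_mix hD u b), map_sub]
  apply integral_congr_ae
  filter_upwards [Lp.coeFn_sub (J a) (J b)] with x hx
  rw [hx, Pi.sub_apply]; ring

theorem I_le (hD : Dir μ J q r) (u φ : H) : |I J q u φ| ≤ NN J q u ^ q + NN J q φ ^ q := by
  rw [NN_pow hD, NN_pow hD, ← integral_add (int_pow hD u) (int_pow hD φ)]
  refine abs_integral_le_integral_abs.trans ?_
  apply integral_mono (int_mix hD u φ).abs ((int_pow hD u).add (int_pow hD φ))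
  intro x
  exact mix_pt hD.two_lt _ _

theorem I_hold (hD : Dir μ J q r) {u : H} (hu : NN J q u = 1) (φ : H) :
    |I J q u φ| ≤ 2 * NN J q φ := by
  have hq := hD.two_lt
  have key : ∀ s : ℝ, 0 < s → s * |I J q u φ| ≤ 1 + (s * NN J q φ) ^ q := by
    intro s hs
    have h1 := I_le hD u (s • φ)
    rw [I_smul, hu, Real.one_rpow, NN_smul, abs_mul, abs_of_pos hs] at h1
    exact h1
  rcases (NN_nonneg φ : 0 ≤ NN J q φ).eq_or_lt with h0 | h0
  · rw [← h0, mul_zero]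
    by_contra hne
    push Not at hne
    have h1 := key (2 / |I J q u φ|) (by positivity)
    rw [← h0, mul_zero, Real.zero_rpow (by linarith), div_mul_cancel₀ _ hne.ne'] at h1
    linarith
  · have h1 := key (1 / NN J q φ) (by positivity)
    rw [one_div, inv_mul_cancel₀ h0.ne', Real.one_rpow, inv_mul_le_iff₀ h0] at h1
    linarith

theorem NN_le (hD : Dir μ J q r) : ∃ K : ℝ, 0 ≤ K ∧ ∀ v : H, NN J q v ≤ K * ‖v‖ := by
  obtain ⟨C, hC, hs⟩ := hD.sob
  have hq := hD.two_lt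
  have hr := hD.q_lt
  have ht1 : 0 ≤ (r - q) / (r - 2) := div_nonneg (by linarith) (by linarith)
  have ht2 : 0 ≤ (q - 2) / (r - 2) := div_nonneg (by linarith) (by linarith)
  have key : ∀ v : H, ‖v‖ = 1 → NN J q v ^ q ≤ (‖J‖ ^ (2:ℝ)) ^ ((r - q) / (r - 2)) *
      (C ^ r) ^ ((q - 2) / (r - 2)) := by
    intro v hv
    have h1 := interp hD hC hs v
    rw [hv, mul_one] at h1
    refine h1.trans ?_
    have h2 : ‖J v‖ ≤ ‖J‖ := by
      have := J.le_opNorm v
      rwa [hv, mul_one] at this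
    gcongr
  set A := (‖J‖ ^ (2:ℝ)) ^ ((r - q) / (r - 2)) * (C ^ r) ^ ((q - 2) / (r - 2)) with hA
  have hA0 : 0 ≤ A := by positivity
  refine ⟨A ^ (1 / q), by positivity, fun v => ?_⟩
  rcases eq_or_ne v 0 with h0 | h0
  · have := NN_smul (J := J) (q := q) 0 (0 : H)
    rw [smul_zero, abs_zero, zero_mul] at this
    rw [h0, this, norm_zero, mul_zero]
  · have hv : 0 < ‖v‖ := norm_pos_iff.2 h0
    have h1 := key ((‖v‖)⁻¹ • v) (by rw [norm_smul, norm_inv, norm_norm, inv_mul_cancel₀ hv.ne'])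
    rw [NN_smul, abs_of_pos (inv_pos.2 hv)] at h1
    have h2 : (‖v‖)⁻¹ * NN J q v ≤ A ^ (1 / q) := by
      have h3 : 0 ≤ (‖v‖)⁻¹ * NN J q v := mul_nonneg (inv_nonneg.2 hv.le) (NN_nonneg _)
      calc (‖v‖)⁻¹ * NN J q v = (((‖v‖)⁻¹ * NN J q v) ^ q) ^ (1 / q) := by
            rw [← Real.rpow_mul h3, mul_one_div_cancel (by linarith), Real.rpow_one]
        _ ≤ A ^ (1 / q) := Real.rpow_le_rpow (Real.rpow_nonneg h3 _) h1 (by positivity)
    rwa [inv_mul_le_iff₀ hv, mul_comm] at h2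

/-- critical point of the energy on the unit sphere of `L^q` -/
def Crit (J : H →L[ℝ] Lp ℝ 2 μ) (q : ℝ) (u : H) : Prop :=
  NN J q u = 1 ∧ ∀ φ : H, ⟪u, φ⟫_ℝ = ‖u‖ ^ 2 * I J q u φ

theorem compact_crit (hD : Dir μ J q r) {M : ℝ} (u : ℕ → H) (hu : ∀ n, Crit J q (u n))
    (hM : ∀ n, ‖u n‖ ^ 2 ≤ M) :
    ∃ (u0 : H) (ns : ℕ → ℕ), StrictMono ns ∧ Tendsto (u ∘ ns) atTop (𝓝 u0) := by
  obtain ⟨C, hC, hs⟩ := hD.sob
  have hq := hD.two_lt
  have hr := hD.q_lt
  have hM0 : 0 ≤ M := (sq_nonneg _).trans (hM 0)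
  have hR : ∀ n, ‖u n‖ ≤ Real.sqrt M := fun n => Real.le_sqrt_of_sq_le (hM n)
  set R := Real.sqrt M with hRdef
  have hR0 : 0 ≤ R := Real.sqrt_nonneg _
  have hc : IsCompact (closure (J '' Metric.closedBall 0 R)) :=
    IsCompactOperator.isCompact_closure_image_closedBall (f := (J : H →ₗ[ℝ] Lp ℝ 2 μ)) hD.comp R
  obtain ⟨y, -, ns, hns, hy⟩ := hc.tendsto_subseq (x := fun n => J (u n)) (fun n =>
    subset_closure ⟨u n, by rw [mem_closedBall_zero_iff]; exact hR n, rfl⟩)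
  set v := u ∘ ns with hv
  have hJc : Tendsto (fun p : ℕ × ℕ => dist (J (v p.1)) (J (v p.2))) atTop (𝓝 0) :=
    cauchySeq_iff_tendsto_dist_atTop_0.mp hy.cauchySeq
  set a : ℝ := (r - q) / (r - 2) with ha
  have ha0 : 0 < a := div_pos (by linarith) (by linarith)
  set B : ℝ := ((C * (2 * R)) ^ r) ^ ((q - 2) / (r - 2)) with hB
  have hB0 : 0 ≤ B := by positivity
  have hb0 : 0 ≤ (q - 2) / (r - 2) := div_nonneg (by linarith) (by linarith)
  -- bound of the distance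
  have hkey : ∀ n m, dist (v n) (v m) ^ 2 ≤
      4 * M * ((dist (J (v n)) (J (v m)) ^ (2 : ℝ)) ^ a * B) ^ (1 / q) := by
    intro n m
    have h1 : NN J q (v n - v m) ^ q ≤ (dist (J (v n)) (J (v m)) ^ (2 : ℝ)) ^ a * B := by
      refine (interp hD hC hs (v n - v m)).trans ?_
      rw [dist_eq_norm, ← map_sub]
      have h2 : ‖v n - v m‖ ≤ 2 * R := by
        refine (norm_sub_le _ _).trans ?_
        have e1 := hR (ns n)
        have e2 := hR (ns m)
        simp only [hv, Function.comp_apply]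
        linarith
      have h3 : 0 ≤ r := by linarith
      rw [hB]
      gcongr
    have h2 : NN J q (v n - v m) ≤ ((dist (J (v n)) (J (v m)) ^ (2 : ℝ)) ^ a * B) ^ (1 / q) := by
      calc NN J q (v n - v m) = (NN J q (v n - v m) ^ q) ^ (1 / q) := by
            rw [← Real.rpow_mul (NN_nonneg _), mul_one_div_cancel (by linarith), Real.rpow_one]
        _ ≤ _ := Real.rpow_le_rpow (Real.rpow_nonneg (NN_nonneg _) _) h1 (by positivity)
    have e1 := (hu (ns n)).2 (v n - v m)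
    have e2 := (hu (ns m)).2 (v n - v m)
    have e3 : dist (v n) (v m) ^ 2 = ⟪v n, v n - v m⟫_ℝ - ⟪v m, v n - v m⟫_ℝ := by
      rw [dist_eq_norm, ← real_inner_self_eq_norm_sq, inner_sub_left]
    have e4 : ⟪v n, v n - v m⟫_ℝ ≤ M * (2 * NN J q (v n - v m)) := by
      have : ⟪v n, v n - v m⟫_ℝ = ‖v n‖ ^ 2 * I J q (v n) (v n - v m) := e1
      rw [this]
      have h5 := (le_abs_self _).trans (I_hold hD (hu (ns n)).1 (v n - v m))
      have h6 : ‖v n‖ ^ 2 ≤ M := hM _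
      calc ‖v n‖ ^ 2 * I J q (v n) (v n - v m) ≤ ‖v n‖ ^ 2 * (2 * NN J q (v n - v m)) := by
            gcongr; exact h5
        _ ≤ _ := by
            have : 0 ≤ NN J q (v n - v m) := NN_nonneg _
            gcongr
    have e5 : -⟪v m, v n - v m⟫_ℝ ≤ M * (2 * NN J q (v n - v m)) := by
      have : ⟪v m, v n - v m⟫_ℝ = ‖v m‖ ^ 2 * I J q (v m) (v n - v m) := e2
      rw [this, ← mul_neg]
      have h5 := (neg_le_abs _).trans (I_hold hD (hu (ns m)).1 (v n - v m))
      have h6 : ‖v m‖ ^ 2 ≤ M := hM _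
      calc ‖v m‖ ^ 2 * -I J q (v m) (v n - v m) ≤ ‖v m‖ ^ 2 * (2 * NN J q (v n - v m)) := by
            gcongr; exact h5
        _ ≤ _ := by
            have : 0 ≤ NN J q (v n - v m) := NN_nonneg _
            gcongr
    have e6 : M * (2 * NN J q (v n - v m)) ≤
        M * (2 * ((dist (J (v n)) (J (v m)) ^ (2 : ℝ)) ^ a * B) ^ (1 / q)) := by gcongr
    linarith
  have hlim : Tendsto (fun p : ℕ × ℕ => 4 * M * ((dist (J (v p.1)) (J (v p.2)) ^ (2 : ℝ)) ^ a * B) ^ (1 / q))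
      atTop (𝓝 0) := by
    have hcont : Continuous (fun t : ℝ => 4 * M * ((t ^ (2 : ℝ)) ^ a * B) ^ (1 / q)) := by
      have e1 : Continuous (fun t : ℝ => t ^ (2 : ℝ)) := Real.continuous_rpow_const (by norm_num)
      have e2 : Continuous (fun t : ℝ => (t ^ (2 : ℝ)) ^ a) := (Real.continuous_rpow_const ha0.le).comp e1
      have e3 : Continuous (fun t : ℝ => ((t ^ (2 : ℝ)) ^ a * B) ^ (1 / q)) :=
        (Real.continuous_rpow_const (by positivity)).comp (e2.mul continuous_const)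
      exact continuous_const.mul e3
    have h1 := (hcont.tendsto 0).comp hJc
    have h0 : 4 * M * (((0 : ℝ) ^ (2 : ℝ)) ^ a * B) ^ (1 / q) = 0 := by
      rw [Real.zero_rpow (by norm_num), Real.zero_rpow ha0.ne', zero_mul,
        Real.zero_rpow (by positivity), mul_zero]
    rw [h0] at h1
    exact h1
  have hsq : Tendsto (fun p : ℕ × ℕ => dist (v p.1) (v p.2) ^ 2) atTop (𝓝 0) :=
    squeeze_zero (fun p => sq_nonneg _) (fun p => hkey p.1 p.2) hlim
  have hdist : Tendsto (fun p : ℕ × ℕ => dist (v p.1) (v p.2)) atTop (𝓝 0) := by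
    have h1 := (Real.continuous_sqrt.tendsto 0).comp hsq
    rw [Real.sqrt_zero] at h1
    refine h1.congr fun p => ?_
    simp only [Function.comp_apply]
    exact Real.sqrt_sq dist_nonneg
  obtain ⟨u0, hu0⟩ := cauchySeq_tendsto_of_complete (cauchySeq_iff_tendsto_dist_atTop_0.mpr hdist)
  exact ⟨u0, ns, hns, hu0⟩

theorem tri_pt {q x y z : ℝ} (hq : 2 < q) (hx : 0 ≤ x) (hy : 0 ≤ y) (hz : 0 ≤ z) :
    x ^ (q - 2) * y * z ≤ x ^ q + y ^ q + z ^ q := by
  set m := max x (max y z) with hm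
  have hxm : x ≤ m := le_max_left _ _
  have hym : y ≤ m := (le_max_left _ _).trans (le_max_right _ _)
  have hzm : z ≤ m := (le_max_right _ _).trans (le_max_right _ _)
  have hm0 : 0 ≤ m := hx.trans hxm
  have h1 : x ^ (q - 2) * y * z ≤ m ^ (q - 2) * m * m := by gcongr
  have h2 : m ^ (q - 2) * m * m = m ^ q := by
    rcases eq_or_ne m 0 with h | h
    · rw [h, Real.zero_rpow (by linarith), Real.zero_rpow (by linarith)]; simp
    · rw [← Real.rpow_add_one h, ← Real.rpow_add_one h]; congr 1; ring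
  have h3 : m ^ q ≤ x ^ q + y ^ q + z ^ q := by
    have e1 : 0 ≤ x ^ q := by positivity
    have e2 : 0 ≤ y ^ q := by positivity
    have e3 : 0 ≤ z ^ q := by positivity
    rcases max_choice x (max y z) with h | h
    · rw [hm, h]; linarith
    · rcases max_choice y z with h' | h'
      · rw [hm, h, h']; linarith
      · rw [hm, h, h']; linarith
  linarith

theorem f_diff {q a b : ℝ} (hq : 2 < q) :
    |(|a| ^ (q - 2) * a - |b| ^ (q - 2) * b)| ≤ (q - 1) * (|a| ^ (q - 2) + |b| ^ (q - 2)) * |a - b| := by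
  have hmain : ∀ a b : ℝ, b ≤ a → |(|a| ^ (q - 2) * a - |b| ^ (q - 2) * b)| ≤
      (q - 1) * (|a| ^ (q - 2) + |b| ^ (q - 2)) * |a - b| := by
    intro a b hab
    set m := max |a| |b| with hm
    have h1 := W3.NearAux.sc_f hq hab (le_max_left |a| |b|) (le_max_right |a| |b|)
    rw [← hm] at h1
    have h0 : 0 ≤ |a| ^ (q - 2) * a - |b| ^ (q - 2) * b := by
      have h2 := W3.NearAux.sc_f (q := q) (a := a) (b := b) hq hab (le_max_left |a| |b|) (le_max_right |a| |b|)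
      rw [sub_nonneg]
      rcases le_total 0 b with hb | hb
      · have ha : 0 ≤ a := hb.trans hab
        rw [abs_of_nonneg ha, abs_of_nonneg hb]
        have : b ^ (q - 2) ≤ a ^ (q - 2) := Real.rpow_le_rpow hb hab (by linarith)
        have e1 : 0 ≤ b ^ (q - 2) := by positivity
        nlinarith
      · rcases le_total 0 a with ha | ha
        · have e1 : |b| ^ (q - 2) * b ≤ 0 := mul_nonpos_of_nonneg_of_nonpos (by positivity) hb
          have e2 : 0 ≤ |a| ^ (q - 2) * a := by positivity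
          linarith
        · rw [abs_of_nonpos ha, abs_of_nonpos hb]
          have : (-a) ^ (q - 2) ≤ (-b) ^ (q - 2) := Real.rpow_le_rpow (by linarith) (by linarith) (by linarith)
          have e1 : 0 ≤ (-a) ^ (q - 2) := Real.rpow_nonneg (by linarith) _
          nlinarith
    rw [abs_of_nonneg h0, abs_of_nonneg (by linarith : 0 ≤ a - b)]
    refine h1.trans ?_
    have h3 : m ^ (q - 2) ≤ |a| ^ (q - 2) + |b| ^ (q - 2) := by
      have e1 : 0 ≤ |a| ^ (q - 2) := by positivity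
      have e2 : 0 ≤ |b| ^ (q - 2) := by positivity
      rcases max_choice |a| |b| with h | h
      · rw [hm, h]; linarith
      · rw [hm, h]; linarith
    have h4 : 0 ≤ a - b := by linarith
    have h5 : 0 ≤ q - 1 := by linarith
    gcongr
  rcases le_total b a with h | h
  · exact hmain a b h
  · have := hmain b a h
    rw [abs_sub_comm, abs_sub_comm a b, add_comm (|a| ^ (q - 2))]
    exact this

theorem I_diff (hD : Dir μ J q r) (u v φ : H) {s : ℝ} (hs : 0 < s) :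
    |I J q u φ - I J q v φ| ≤ (q - 1) / s * (NN J q u ^ q + NN J q v ^ q +
      2 * (s * NN J q (u - v)) ^ q + 2 * NN J q φ ^ q) := by
  have hq := hD.two_lt
  have hsub : ∀ᵐ x ∂μ, J (u - v) x = J u x - J v x := by
    rw [map_sub]; exact Lp.coeFn_sub _ _
  have h1 : |I J q u φ - I J q v φ| ≤ ∫ x, (q - 1) / s * (|J u x| ^ q + |J v x| ^ q +
      2 * (s ^ q * |J (u - v) x| ^ q) + 2 * |J φ x| ^ q) ∂μ := by
    unfold I
    rw [← integral_sub (int_mix hD u φ) (int_mix hD v φ)]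
    refine abs_integral_le_integral_abs.trans ?_
    apply integral_mono_ae ((int_mix hD u φ).sub (int_mix hD v φ)).abs
    · exact (((((int_pow hD u).add (int_pow hD v)).add
        (((int_pow hD (u - v)).const_mul (s ^ q)).const_mul 2))).add
        ((int_pow hD φ).const_mul 2)).const_mul _
    · filter_upwards [hsub] with x hx
      have e1 : |J u x| ^ (q - 2) * J u x * J φ x - |J v x| ^ (q - 2) * J v x * J φ x =
          (|J u x| ^ (q - 2) * J u x - |J v x| ^ (q - 2) * J v x) * J φ x := by ring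
      simp only [Pi.sub_apply]
      rw [e1, abs_mul]
      have e2 := f_diff (a := J u x) (b := J v x) hq
      have t1 := tri_pt hq (abs_nonneg (J u x)) (by positivity : 0 ≤ s * |J u x - J v x|) (abs_nonneg (J φ x))
      have t2 := tri_pt hq (abs_nonneg (J v x)) (by positivity : 0 ≤ s * |J u x - J v x|) (abs_nonneg (J φ x))
      rw [Real.mul_rpow hs.le (abs_nonneg _)] at t1 t2
      rw [hx]
      have e3 : |(|J u x| ^ (q - 2) * J u x - |J v x| ^ (q - 2) * J v x)| * |J φ x| ≤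
          (q - 1) * (|J u x| ^ (q - 2) + |J v x| ^ (q - 2)) * |J u x - J v x| * |J φ x| := by gcongr
      refine e3.trans ?_
      have e4 : (q - 1) * (|J u x| ^ (q - 2) + |J v x| ^ (q - 2)) * |J u x - J v x| * |J φ x| =
          (q - 1) / s * (|J u x| ^ (q - 2) * (s * |J u x - J v x|) * |J φ x| +
            |J v x| ^ (q - 2) * (s * |J u x - J v x|) * |J φ x|) := by field_simp
      rw [e4]
      have e5 : 0 ≤ (q - 1) / s := div_nonneg (by linarith) hs.le
      refine mul_le_mul_of_nonneg_left ?_ e5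
      linarith
  refine h1.trans (le_of_eq ?_)
  rw [integral_const_mul, integral_add, integral_add, integral_add (int_pow hD u) (int_pow hD v),
    integral_const_mul, integral_const_mul, integral_const_mul, ← NN_pow hD, ← NN_pow hD, ← NN_pow hD,
    ← NN_pow hD, Real.mul_rpow hs.le (NN_nonneg _)]
  · exact (int_pow hD u).add (int_pow hD v)
  · exact ((int_pow hD (u - v)).const_mul (s ^ q)).const_mul 2
  · exact ((int_pow hD u).add (int_pow hD v)).add (((int_pow hD (u - v)).const_mul (s ^ q)).const_mul 2)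
  · exact (int_pow hD φ).const_mul 2

theorem NN_tendsto (hD : Dir μ J q r) {u : ℕ → H} {u0 : H} (h : Tendsto u atTop (𝓝 u0)) :
    Tendsto (fun n => NN J q (u n - u0)) atTop (𝓝 0) := by
  obtain ⟨K, hK0, hK⟩ := NN_le hD
  have h1 : Tendsto (fun n => K * ‖u n - u0‖) atTop (𝓝 (K * 0)) :=
    (tendsto_iff_norm_sub_tendsto_zero.mp h).const_mul K
  rw [mul_zero] at h1
  exact squeeze_zero (fun n => NN_nonneg _) (fun n => hK _) h1

theorem NN_tendsto' (hD : Dir μ J q r) {u : ℕ → H} {u0 : H} (h : Tendsto u atTop (𝓝 u0)) :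
    Tendsto (fun n => NN J q (u n)) atTop (𝓝 (NN J q u0)) := by
  rw [tendsto_iff_norm_sub_tendsto_zero]
  refine squeeze_zero (fun n => norm_nonneg _) (fun n => ?_) (NN_tendsto hD h)
  rw [Real.norm_eq_abs]
  exact NN_sub hD _ _

theorem I_tendsto (hD : Dir μ J q r) {u : ℕ → H} {u0 : H} (h : Tendsto u atTop (𝓝 u0)) (φ : H) :
    Tendsto (fun n => I J q (u n) φ) atTop (𝓝 (I J q u0 φ)) := by
  have hq := hD.two_lt
  rw [Metric.tendsto_atTop]
  intro ε hε
  set A : ℝ := NN J q u0 ^ q + 1 + NN J q u0 ^ q + 2 + 2 * NN J q φ ^ q with hA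
  have hA0 : 0 < A := by
    have := Real.rpow_nonneg (NN_nonneg u0 : 0 ≤ NN J q u0) q
    have := Real.rpow_nonneg (NN_nonneg φ : 0 ≤ NN J q φ) q
    positivity
  set s : ℝ := 2 * (q - 1) * A / ε with hs
  have hs0 : 0 < s := by
    have : 0 < q - 1 := by linarith
    positivity
  have h1 : Tendsto (fun n => NN J q (u n) ^ q) atTop (𝓝 (NN J q u0 ^ q)) :=
    ((Real.continuous_rpow_const (by linarith)).tendsto _).comp (NN_tendsto' hD h)
  have h2 : Tendsto (fun n => 2 * (s * NN J q (u n - u0)) ^ q) atTop (𝓝 (2 * (s * 0) ^ q)) :=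
    (((Real.continuous_rpow_const (by linarith)).tendsto _).comp ((NN_tendsto hD h).const_mul s)).const_mul 2
  rw [mul_zero, Real.zero_rpow (by linarith), mul_zero] at h2
  have e1 := h1.eventually (gt_mem_nhds (show NN J q u0 ^ q < NN J q u0 ^ q + 1 by linarith))
  have e2 := h2.eventually (gt_mem_nhds (show (0 : ℝ) < 2 by norm_num))
  obtain ⟨n0, hn0⟩ := eventually_atTop.mp (e1.and e2)
  refine ⟨n0, fun n hn => ?_⟩
  obtain ⟨a1, a2⟩ := hn0 n hn
  rw [Real.dist_eq]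
  have h3 := I_diff hD (u n) u0 φ hs0
  have e5 : 0 < (q - 1) / s := div_pos (by linarith) hs0
  have h4 : (q - 1) / s * (NN J q (u n) ^ q + NN J q u0 ^ q +
      2 * (s * NN J q (u n - u0)) ^ q + 2 * NN J q φ ^ q) ≤ (q - 1) / s * A := by
    gcongr
    rw [hA]; linarith
  have h5 : (q - 1) / s * A = ε / 2 := by
    rw [hs]
    have : q - 1 ≠ 0 := by linarith
    field_simp
  linarith

theorem crit_pos (hD : Dir μ J q r) {u : H} (hu : NN J q u = 1) : 0 < ‖u‖ ^ 2 := by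
  obtain ⟨K, hK0, hK⟩ := NN_le hD
  have h1 := hK u
  rw [hu] at h1
  have : ‖u‖ ≠ 0 := by
    intro h0
    rw [h0, mul_zero] at h1
    linarith
  positivity

/-- `|u|` is a critical point at the same level -/
def AbsSol (J : H →L[ℝ] Lp ℝ 2 μ) (q : ℝ) (u : H) : Prop :=
  ∃ v : H, (J v =ᵐ[μ] fun x => |J u x|) ∧ ∀ φ : H, ⟪v, φ⟫_ℝ = ‖u‖ ^ 2 * I J q v φ

theorem norm_const (hD : Dir μ J q r) (hDec : Dec J q) {u0 : H} (hc0 : Crit J q u0) (ha0 : AbsSol J q u0)
    (u : ℕ → H) (hcrit : ∀ n, Crit J q (u n)) (hlim : Tendsto u atTop (𝓝 u0)) :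
    ∀ᶠ n in atTop, ‖u n‖ ^ 2 = ‖u0‖ ^ 2 := by
  have hq := hD.two_lt
  obtain ⟨v0, hv0, hvs⟩ := ha0
  have hl0 : Tendsto (fun n => ‖u n‖ ^ 2) atTop (𝓝 (‖u0‖ ^ 2)) := (hlim.norm.pow 2)
  have hl0pos : 0 < ‖u0‖ ^ 2 := crit_pos hD hc0.1
  set b : ℝ := 1 / (q - 2) with hb
  have hb0 : 0 < b := by rw [hb]; exact one_div_pos.mpr (by linarith)
  set U : ℕ → H := fun n => (‖u n‖ ^ 2) ^ b • u n with hU
  set U0 : H := (‖u0‖ ^ 2) ^ b • u0 with hU0
  set V0 : H := (‖u0‖ ^ 2) ^ b • v0 with hV0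
  have hUlim : Tendsto U atTop (𝓝 U0) := by
    apply Tendsto.smul _ hlim
    exact ((Real.continuousAt_rpow_const _ _ (Or.inl hl0pos.ne')).tendsto).comp hl0
  have hUsol : ∀ n φ, ⟪U n, φ⟫_ℝ = ∫ x, |J (U n) x| ^ (q - 2) * J (U n) x * J φ x ∂μ := by
    intro n φ
    exact scale_eq hq (crit_pos hD (hcrit n).1) (fun φ => (hcrit n).2 φ) φ
  have hU0sol : ∀ φ, ⟪U0, φ⟫_ℝ = ∫ x, |J U0 x| ^ (q - 2) * J U0 x * J φ x ∂μ :=
    fun φ => scale_eq hq hl0pos hc0.2 φ
  have hV0sol : ∀ φ, ⟪V0, φ⟫_ℝ = ∫ x, |J V0 x| ^ (q - 2) * J V0 x * J φ x ∂μ :=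
    fun φ => scale_eq hq hl0pos hvs φ
  have hpos : 0 < (‖u0‖ ^ 2) ^ b := by positivity
  have hV0abs : J V0 =ᵐ[μ] fun x => |J U0 x| := by
    rw [hU0, hV0, map_smul, map_smul]
    filter_upwards [Lp.coeFn_smul ((‖u0‖ ^ 2) ^ b) (J u0), Lp.coeFn_smul ((‖u0‖ ^ 2) ^ b) (J v0), hv0]
      with x h1 h2 h3
    rw [h1, h2, Pi.smul_apply, Pi.smul_apply, h3, smul_eq_mul, smul_eq_mul, abs_mul, abs_of_pos hpos]
  have hE := Energy.energy_const hD U0 V0 hU0sol hV0abs (by
      intro φ _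
      rw [hV0sol φ]
      apply le_of_eq
      apply integral_congr_ae
      filter_upwards [hV0abs] with x hx
      have hx0 : 0 ≤ J V0 x := by rw [hx]; exact abs_nonneg _
      rw [W3.NearAux.abs_rpow_mul_self hq hx0]) (dec_abs hDec hU0sol hV0abs) U hUsol hUlim
  filter_upwards [hE] with n hn
  have e1 : ‖U n‖ = (‖u n‖ ^ 2) ^ b * ‖u n‖ := by
    rw [hU, norm_smul, Real.norm_eq_abs, abs_of_nonneg (by positivity)]
  have e2 : ‖U0‖ = (‖u0‖ ^ 2) ^ b * ‖u0‖ := by
    rw [hU0, norm_smul, Real.norm_eq_abs, abs_of_nonneg (by positivity)]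
  rw [e1, e2] at hn
  have hmono : StrictMonoOn (fun t : ℝ => (t ^ 2) ^ b * t) (Ici 0) := by
    intro s hs t ht hst
    simp only
    have hs0 : (0 : ℝ) ≤ s := hs
    have h1 : (s ^ 2) ^ b ≤ (t ^ 2) ^ b := by
      apply Real.rpow_le_rpow (by positivity) _ hb0.le
      gcongr
    have ht0 : 0 < t := lt_of_le_of_lt hs0 hst
    have h2 : 0 < (t ^ 2) ^ b := by positivity
    calc (s ^ 2) ^ b * s ≤ (t ^ 2) ^ b * s := by gcongr
      _ < (t ^ 2) ^ b * t := by gcongr
  have := hmono.injOn (norm_nonneg _ : (0 : ℝ) ≤ _) (norm_nonneg _ : (0 : ℝ) ≤ _) hn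
  rw [this]

theorem crit_lim (hD : Dir μ J q r) {u : ℕ → H} (hcrit : ∀ n, Crit J q (u n)) {u0 : H}
    (hlim : Tendsto u atTop (𝓝 u0)) : Crit J q u0 := by
  constructor
  · have h1 := NN_tendsto' hD hlim
    refine tendsto_nhds_unique h1 ?_
    simp only [(hcrit _).1]
    exact tendsto_const_nhds
  · intro φ
    have h1 : Tendsto (fun n => ⟪u n, φ⟫_ℝ) atTop (𝓝 ⟪u0, φ⟫_ℝ) := hlim.inner tendsto_const_nhds
    have h2 := (hlim.norm.pow 2).mul (I_tendsto hD hlim φ)
    refine tendsto_nhds_unique h1 (h2.congr fun n => ?_)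
    exact ((hcrit n).2 φ).symm

/-- local finiteness of the critical values of critical points with property `P` -/
theorem fin_of (hD : Dir μ J q r) (hDec : Dec J q) (P : H → Prop) (M : ℝ)
    (hP : ∀ (u : ℕ → H) (u0 : H), (∀ n, Crit J q (u n) ∧ P (u n) ∧ ‖u n‖ ^ 2 ≤ M) →
      Tendsto u atTop (𝓝 u0) → Crit J q u0 → AbsSol J q u0) :
    {l : ℝ | l ≤ M ∧ ∃ u : H, Crit J q u ∧ P u ∧ ‖u‖ ^ 2 = l}.Finite := by
  have hq := hD.two_lt
  by_contra hinf
  have hinf' : {l : ℝ | l ≤ M ∧ ∃ u : H, Crit J q u ∧ P u ∧ ‖u‖ ^ 2 = l}.Infinite := hinf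
  set l : ℕ → ℝ := fun n => (hinf'.natEmbedding _ n : ℝ) with hl
  have hinj : Function.Injective l := by
    intro a b hab
    exact (hinf'.natEmbedding _).injective (Subtype.ext hab)
  have hmem : ∀ n, l n ≤ M ∧ ∃ u : H, Crit J q u ∧ P u ∧ ‖u‖ ^ 2 = l n :=
    fun n => (hinf'.natEmbedding _ n).2
  choose hlM u hcrit hpos hnorm using hmem
  obtain ⟨u0, ns, hns, hlim⟩ := compact_crit hD u hcrit (fun n => (hnorm n).le.trans (hlM n))
  have hc0 : Crit J q u0 := crit_lim hD (fun n => hcrit (ns n)) hlim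
  have ha0 := hP (u ∘ ns) u0 (fun n => ⟨hcrit _, hpos _, (hnorm _).le.trans (hlM _)⟩) hlim hc0
  have hev := norm_const hD hDec hc0 ha0 (u ∘ ns) (fun n => hcrit (ns n)) hlim
  obtain ⟨n0, hn0⟩ := eventually_atTop.mp hev
  have h1 := hn0 n0 le_rfl
  have h2 := hn0 (n0 + 1) (by omega)
  simp only [Function.comp_apply, hnorm] at h1 h2
  have h3 := hinj (h1.trans h2.symm)
  have h4 := hns.injective h3
  omega

/-- isolation of a level all of whose critical points have a critical absolute value -/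
theorem iso_of (hD : Dir μ J q r) (hDec : Dec J q) (l : ℝ)
    (hP : ∀ u0 : H, Crit J q u0 → ‖u0‖ ^ 2 = l → AbsSol J q u0) :
    ∃ ε : ℝ, 0 < ε ∧ ∀ u : H, Crit J q u → |‖u‖ ^ 2 - l| < ε → ‖u‖ ^ 2 = l := by
  by_contra hcon
  push Not at hcon
  choose u h1 h2 h3 using fun n : ℕ => hcon (1 / ((n : ℝ) + 1)) (by positivity)
  have hM : ∀ n, ‖u n‖ ^ 2 ≤ l + 1 := by
    intro n
    have e1 := (le_abs_self _).trans (h2 n).le
    have e2 : 1 / ((n : ℝ) + 1) ≤ 1 := by
      rw [div_le_one (by positivity)]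
      have : (0 : ℝ) ≤ n := Nat.cast_nonneg n
      linarith
    linarith
  obtain ⟨u0, ns, hns, hlim⟩ := compact_crit hD u h1 hM
  have hc0 : Crit J q u0 := crit_lim hD (fun n => h1 (ns n)) hlim
  have hl0 : Tendsto (fun n => ‖u (ns n)‖ ^ 2) atTop (𝓝 (‖u0‖ ^ 2)) := (hlim.norm.pow 2)
  have hl1 : Tendsto (fun n => ‖u (ns n)‖ ^ 2) atTop (𝓝 l) := by
    rw [tendsto_iff_norm_sub_tendsto_zero]
    refine squeeze_zero (fun n => norm_nonneg _) (fun n => ?_)
      (tendsto_one_div_add_atTop_nhds_zero_nat.comp hns.tendsto_atTop)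
    rw [Real.norm_eq_abs]
    exact (h2 (ns n)).le
  have hl : ‖u0‖ ^ 2 = l := tendsto_nhds_unique hl0 hl1
  have hev := norm_const hD hDec hc0 (hP u0 hc0 hl) (u ∘ ns) (fun n => h1 (ns n)) hlim
  obtain ⟨n, hn⟩ := hev.exists
  exact h3 (ns n) (hn.trans hl)

theorem abs_of_ae_nonneg {u : H} (hc : Crit J q u) (h : 0 ≤ᵐ[μ] J u) : AbsSol J q u :=
  ⟨u, by filter_upwards [h] with x hx; exact (abs_of_nonneg hx).symm, hc.2⟩

theorem I_neg_left (u φ : H) : I J q (-u) φ = - I J q u φ := by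
  unfold I
  rw [← integral_neg]
  apply integral_congr_ae
  rw [map_neg]
  filter_upwards [Lp.coeFn_neg (J u)] with x hx
  rw [hx, Pi.neg_apply, abs_neg]; ring

theorem abs_of_ae_nonpos {u : H} (hc : Crit J q u) (h : J u ≤ᵐ[μ] 0) : AbsSol J q u := by
  refine ⟨-u, ?_, fun φ => ?_⟩
  · rw [map_neg]
    filter_upwards [h, Lp.coeFn_neg (J u)] with x hx h2
    rw [h2, Pi.neg_apply]
    exact (abs_of_nonpos hx).symm
  · rw [I_neg_left, inner_neg_left, hc.2]; ring

/-- nonnegativity passes to the limit -/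
theorem nonneg_lim {u : ℕ → H} {u0 : H} (hlim : Tendsto u atTop (𝓝 u0))
    (h : ∀ n, 0 ≤ᵐ[μ] J (u n)) : 0 ≤ᵐ[μ] J u0 := by
  have h1 : Tendsto (fun n => J (u n)) atTop (𝓝 (J u0)) := (J.continuous.tendsto u0).comp hlim
  obtain ⟨ms, hms, hae⟩ := (tendstoInMeasure_of_tendsto_Lp h1).exists_seq_tendsto_ae
  have h2 : ∀ᵐ x ∂μ, ∀ n, 0 ≤ J (u (ms n)) x := ae_all_iff.mpr fun n => h _
  filter_upwards [hae, h2] with x hx hx2
  exact ge_of_tendsto' hx hx2

theorem pos_finite (hD : Dir μ J q r) (hDec : Dec J q) (M : ℝ) :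
    {l : ℝ | l ≤ M ∧ ∃ u : H, Crit J q u ∧ 0 ≤ᵐ[μ] J u ∧ ‖u‖ ^ 2 = l}.Finite :=
  fin_of hD hDec (fun u => 0 ≤ᵐ[μ] J u) M fun u u0 h hlim hc0 =>
    abs_of_ae_nonneg hc0 (nonneg_lim hlim fun n => (h n).2.1)

end Pool.Agent.H456R3.Q.Pos
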