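import Pool.Agent.H456R3.Q.Pos
set_option autoImplicit false
set_option linter.unusedSectionVars false
set_option linter.unusedVariables false
open MeasureTheory Filter Topology Set
open scoped ENNReal NNReal InnerProductSpace

open Pool.Agent.Helper420.QI (Dir)
open Pool.Agent.H456R3.Q

namespace Pool.Agent.H456R3.Q.Pos
open Pool.Agent.H456R3.Q.V1

variable {α : Type*} [MeasurableSpace α] {μ : Measure α}
  {H : Type*} [NormedAddCommGroup H] [InnerProductSpace ℝ H] [CompleteSpace H]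
  {J : H →L[ℝ] Lp ℝ 2 μ} {q r : ℝ}

theorem I_smul_left (hq : 2 < q) (u φ : H) {s : ℝ} (hs : 0 < s) :
    I J q (s • u) φ = s ^ (q - 1) * I J q u φ := by
  unfold I
  rw [← integral_const_mul, map_smul]
  apply integral_congr_ae
  filter_upwards [Lp.coeFn_smul s (J u)] with x hx
  rw [hx, Pi.smul_apply, smul_eq_mul, abs_mul, abs_of_pos hs, Real.mul_rpow hs.le (abs_nonneg _)]
  have : s ^ (q - 1) = s ^ (q - 2) * s := by
    rw [← Real.rpow_add_one hs.ne']; congr 1; ring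
  rw [this]; ring

theorem EL' (hD : Dir μ J q r) {l1 : ℝ} (hl : ∀ v : H, l1 * NN J q v ^ 2 ≤ ‖v‖ ^ 2) {w : H}
    (hw : 0 < NN J q w) (hwl : ‖w‖ ^ 2 = l1 * NN J q w ^ 2) (φ : H) :
    ⟪w, φ⟫_ℝ = l1 * NN J q w ^ (2 - q) * I J q w φ := by
  have hq := hD.two_lt
  set s := NN J q w with hs
  have h1 : NN J q (s⁻¹ • w) = 1 := by
    rw [NN_smul, abs_of_pos (inv_pos.mpr hw), ← hs, inv_mul_cancel₀ hw.ne']
  have h2 : ‖s⁻¹ • w‖ ^ 2 = l1 := by
    rw [norm_smul, mul_pow, hwl, Real.norm_eq_abs, sq_abs]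
    field_simp
  have h3 : ⟪s⁻¹ • w, φ⟫_ℝ = l1 * I J q (s⁻¹ • w) φ := EL hD hl h1 h2 φ
  rw [I_smul_left hq _ _ (inv_pos.mpr hw), real_inner_smul_left] at h3
  have h4 : s⁻¹ ^ (q - 1) = s⁻¹ * s ^ (2 - q) := by
    rw [Real.inv_rpow hw.le, ← Real.rpow_neg hw.le, ← Real.rpow_neg_one s, ← Real.rpow_add hw]
    congr 1; ring
  rw [h4] at h3
  have h5 : s⁻¹ ≠ 0 := inv_ne_zero hw.ne'
  have h6 : s⁻¹ * ⟪w, φ⟫_ℝ = s⁻¹ * (l1 * s ^ (2 - q) * I J q w φ) := by rw [h3]; ring
  exact mul_left_cancel₀ h5 h6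

/-- positive part of a critical point -/
theorem cut_val (hD : Dir μ J q r) {u : H} (hc : Crit J q u) :
    ∃ w : H, (J w =ᵐ[μ] fun x => max (J u x) 0) ∧ ‖w‖ ^ 2 ≤ ‖u‖ ^ 2 * NN J q w ^ q := by
  have hq := hD.two_lt
  obtain ⟨w, hw, hn⟩ := hD.cut u 0 le_rfl
  have hw' : J w =ᵐ[μ] fun x => max (J u x) 0 := by
    filter_upwards [hw] with x hx
    rw [hx, sub_zero]
  refine ⟨w, hw', hn.trans (le_of_eq ?_)⟩
  rw [hc.2 w, NN_pow hD]
  congr 1
  unfold I
  apply integral_congr_ae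
  filter_upwards [hw'] with x hx
  rw [hx]
  rcases le_total 0 (J u x) with h | h
  · rw [max_eq_left h, abs_of_nonneg h]
    rcases eq_or_ne (J u x) 0 with h0 | h0
    · rw [h0, Real.zero_rpow (show q ≠ 0 by linarith)]; simp
    · rw [← Real.rpow_add_one h0, ← Real.rpow_add_one h0]; congr 1; ring
  · rw [max_eq_right h, abs_zero, Real.zero_rpow (by linarith), mul_zero]

theorem crit_neg {u : H} (hc : Crit J q u) : Crit J q (-u) := by
  refine ⟨?_, fun φ => ?_⟩
  · have := NN_smul (J := J) (q := q) (-1) u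
    rw [neg_one_smul, hc.1] at this
    rw [this]; norm_num
  · rw [I_neg_left, inner_neg_left, hc.2, norm_neg]; ring

theorem ae_zero_of_NN (hD : Dir μ J q r) {w : H} (h : NN J q w ^ q = 0) : J w =ᵐ[μ] 0 := by
  have hq := hD.two_lt
  rw [NN_pow hD, integral_eq_zero_iff_of_nonneg (fun x => by positivity) (int_pow hD w)] at h
  filter_upwards [h] with x hx
  have hx' : |J w x| ^ q = 0 := hx
  have := (Real.rpow_eq_zero (abs_nonneg _) (by linarith)).mp hx'
  exact abs_eq_zero.mp this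

theorem abs_of_low (hD : Dir μ J q r) {l1 : ℝ} (hl : ∀ v : H, l1 * NN J q v ^ 2 ≤ ‖v‖ ^ 2) {u : H}
    (hc : Crit J q u) (hle : ‖u‖ ^ 2 ≤ 2 ^ (1 - 2 / q) * l1) : AbsSol J q u := by
  have hq := hD.two_lt
  have hq0 : 0 < q := by linarith
  obtain ⟨w, hw, hwn⟩ := cut_val hD hc
  obtain ⟨z, hz, hzn⟩ := cut_val hD (crit_neg hc)
  rw [norm_neg] at hzn
  have hz' : J z =ᵐ[μ] fun x => max (-J u x) 0 := by
    have hneg : J (-u) =ᵐ[μ] fun x => -J u x := by
      rw [map_neg]; exact Lp.coeFn_neg _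
    filter_upwards [hz, hneg] with x h1 h2
    rw [h1, h2]
  have hsum : NN J q w ^ q + NN J q z ^ q = 1 := by
    have h1 : NN J q u ^ q = 1 := by rw [hc.1, Real.one_rpow]
    rw [← h1, NN_pow hD, NN_pow hD, NN_pow hD, ← integral_add (int_pow hD w) (int_pow hD z)]
    apply integral_congr_ae
    filter_upwards [hw, hz'] with x h1 h2
    rw [h1, h2]
    rcases le_total 0 (J u x) with h | h
    · rw [max_eq_left h, max_eq_right (by linarith), abs_zero, Real.zero_rpow hq0.ne', add_zero]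
    · rw [max_eq_right h, max_eq_left (by linarith), abs_zero, Real.zero_rpow hq0.ne', zero_add,
        abs_neg]
  have hla : 0 < ‖u‖ ^ 2 := crit_pos hD hc.1
  have h2q : (0 : ℝ) < 2 ^ (1 - 2 / q) := by positivity
  have hl1 : 0 < l1 := by
    by_contra hcon
    push Not at hcon
    nlinarith
  rcases (Real.rpow_nonneg (NN_nonneg w : 0 ≤ NN J q w) q).eq_or_lt with ha | ha
  · apply abs_of_ae_nonpos hc
    filter_upwards [ae_zero_of_NN hD ha.symm, hw] with x h1 h2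
    rw [h1] at h2
    have : J u x ≤ max (J u x) 0 := le_max_left _ _
    rw [← h2] at this
    exact this
  rcases (Real.rpow_nonneg (NN_nonneg z : 0 ≤ NN J q z) q).eq_or_lt with hb | hb
  · apply abs_of_ae_nonneg hc
    filter_upwards [ae_zero_of_NN hD hb.symm, hz'] with x h1 h2
    rw [h1] at h2
    have : -J u x ≤ max (-J u x) 0 := le_max_left _ _
    rw [← h2] at this
    simp only [Pi.zero_apply] at this ⊢
    linarith
  -- both parts are nonzero
  have hkey : ∀ y : H, 0 < NN J q y ^ q → ‖y‖ ^ 2 ≤ ‖u‖ ^ 2 * NN J q y ^ q → 1 / 2 ≤ NN J q y ^ q := by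
    intro y hy hyn
    have hy0 : 0 < NN J q y := by
      rcases (NN_nonneg y : 0 ≤ NN J q y).eq_or_lt with h | h
      · rw [← h, Real.zero_rpow hq0.ne'] at hy; exact absurd hy (lt_irrefl _)
      · exact h
    have h1 := (hl y).trans hyn
    have h2 : l1 * NN J q y ^ 2 ≤ 2 ^ (1 - 2 / q) * l1 * NN J q y ^ q := h1.trans (by gcongr)
    have h3 : NN J q y ^ 2 = (NN J q y ^ q) ^ (2 / q) := by
      rw [← Real.rpow_mul hy0.le, mul_div_cancel₀ _ hq0.ne']; norm_num
    set a := NN J q y ^ q with ha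
    have h4 : a ^ (2 / q) ≤ 2 ^ (1 - 2 / q) * a := by
      rw [h3] at h2
      have : l1 * a ^ (2 / q) ≤ l1 * (2 ^ (1 - 2 / q) * a) := by linarith
      exact le_of_mul_le_mul_left this hl1
    have h5 : a = a ^ (2 / q) * a ^ (1 - 2 / q) := by
      rw [← Real.rpow_add hy]; norm_num
    have h6 : 0 < a ^ (2 / q) := by positivity
    have h7 : 1 ≤ (2 * a) ^ (1 - 2 / q) := by
      rw [Real.mul_rpow (by norm_num) hy.le]
      have : a ^ (2 / q) * 1 ≤ a ^ (2 / q) * (2 ^ (1 - 2 / q) * a ^ (1 - 2 / q)) := by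
        calc a ^ (2 / q) * 1 = a ^ (2 / q) := mul_one _
          _ ≤ 2 ^ (1 - 2 / q) * a := h4
          _ = 2 ^ (1 - 2 / q) * (a ^ (2 / q) * a ^ (1 - 2 / q)) := by rw [← h5]
          _ = _ := by ring
      exact le_of_mul_le_mul_left this h6
    have he : 0 < 1 - 2 / q := by
      rw [sub_pos, div_lt_one hq0]; exact hq
    by_contra hcon
    push Not at hcon
    have h8 : (2 * a) ^ (1 - 2 / q) < 1 :=
      Real.rpow_lt_one (by positivity) (by linarith) he
    linarith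
  have ea := hkey w ha hwn
  have eb := hkey z hb hzn
  have ea' : NN J q w ^ q = 1 / 2 := by linarith
  have eb' : NN J q z ^ q = 1 / 2 := by linarith
  have hsol : ∀ y : H, NN J q y ^ q = 1 / 2 → ‖y‖ ^ 2 ≤ ‖u‖ ^ 2 * NN J q y ^ q →
      ∀ φ : H, ⟪y, φ⟫_ℝ = ‖u‖ ^ 2 * I J q y φ := by
    intro y hy hyn φ
    have hy0 : 0 < NN J q y := by
      rcases (NN_nonneg y : 0 ≤ NN J q y).eq_or_lt with h | h
      · rw [← h, Real.zero_rpow hq0.ne'] at hy; norm_num at hy
      · exact h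
    have h1 := hl y
    have h3 : NN J q y ^ 2 = (1 / 2 : ℝ) ^ (2 / q) := by
      rw [← hy, ← Real.rpow_mul hy0.le, mul_div_cancel₀ _ hq0.ne']; norm_num
    have h4 : (2 : ℝ) ^ (1 - 2 / q) * (1 / 2) = (1 / 2 : ℝ) ^ (2 / q) := by
      rw [one_div, Real.inv_rpow (by norm_num), ← Real.rpow_neg (by norm_num),
        ← Real.rpow_neg_one 2, ← Real.rpow_add (by norm_num)]
      congr 1; ring
    have h5 : ‖u‖ ^ 2 * NN J q y ^ q ≤ l1 * NN J q y ^ 2 := by
      rw [hy, h3, ← h4]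
      calc ‖u‖ ^ 2 * (1 / 2) ≤ 2 ^ (1 - 2 / q) * l1 * (1 / 2) := by gcongr
        _ = _ := by ring
    have h6 : ‖y‖ ^ 2 = l1 * NN J q y ^ 2 := le_antisymm (hyn.trans h5) h1
    have h7 : ‖u‖ ^ 2 * NN J q y ^ q = l1 * NN J q y ^ 2 := le_antisymm h5 (h1.trans hyn)
    have h8 : ‖u‖ ^ 2 = l1 * NN J q y ^ (2 - q) := by
      have e1 : NN J q y ^ (2 - q) * NN J q y ^ q = NN J q y ^ 2 := by
        rw [← Real.rpow_add hy0]; norm_num
      have e2 : 0 < NN J q y ^ q := by positivity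
      have e3 : ‖u‖ ^ 2 * NN J q y ^ q = (l1 * NN J q y ^ (2 - q)) * NN J q y ^ q := by
        rw [h7, ← e1]; ring
      exact mul_right_cancel₀ e2.ne' e3
    rw [h8]
    exact EL' hD hl hy0 h6 φ
  refine ⟨w + z, ?_, fun φ => ?_⟩
  · rw [map_add]
    filter_upwards [Lp.coeFn_add (J w) (J z), hw, hz'] with x h1 h2 h3
    rw [h1, Pi.add_apply, h2, h3]
    rcases le_total 0 (J u x) with h | h
    · rw [max_eq_left h, max_eq_right (by linarith), add_zero, abs_of_nonneg h]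
    · rw [max_eq_right h, max_eq_left (by linarith), zero_add, abs_of_nonpos h]
  · rw [inner_add_left, hsol w ea' hwn φ, hsol z eb' hzn φ, ← mul_add]
    congr 1
    unfold I
    rw [← integral_add (int_mix hD w φ) (int_mix hD z φ), map_add]
    apply integral_congr_ae
    filter_upwards [Lp.coeFn_add (J w) (J z), hw, hz'] with x h1 h2 h3
    rw [h1, Pi.add_apply, h2, h3]
    rcases le_total 0 (J u x) with h | h
    · rw [max_eq_left h, max_eq_right (by linarith), add_zero]; simp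
    · rw [max_eq_right h, max_eq_left (by linarith), zero_add]; simp

/-- finiteness of the critical values up to (and slightly above) the level `2^(1-2/q) l1` -/
theorem low_finite (hD : Dir μ J q r) (hDec : Dec J q) {l1 : ℝ} (hl : ∀ v : H, l1 * NN J q v ^ 2 ≤ ‖v‖ ^ 2) :
    ∃ ε : ℝ, 0 < ε ∧
      {l : ℝ | l ≤ 2 ^ (1 - 2 / q) * l1 + ε ∧ ∃ u : H, Crit J q u ∧ ‖u‖ ^ 2 = l}.Finite := by
  obtain ⟨ε, hε, h1⟩ := iso_of hD hDec (2 ^ (1 - 2 / q) * l1) fun u0 hc h =>
    abs_of_low hD hl hc h.le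
  have h2 := fin_of hD hDec (fun _ => True) (2 ^ (1 - 2 / q) * l1) fun u u0 h hlim hc0 =>
    abs_of_low hD hl hc0 (le_of_tendsto' (hlim.norm.pow 2) fun n => (h n).2.2)
  refine ⟨ε / 2, by linarith, h2.subset ?_⟩
  rintro l ⟨hle, u, hc, hl'⟩
  rcases le_or_gt l (2 ^ (1 - 2 / q) * l1) with h | h
  · exact ⟨h, u, hc, trivial, hl'⟩
  · have h3 := h1 u hc (by
      rw [hl', abs_of_pos (by linarith)]
      linarith)
    rw [← h3, hl'] at h
    exact absurd h (lt_irrefl _)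

end Pool.Agent.H456R3.Q.Pos
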