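import Pool.Agent.H456R3.Q.W1
set_option autoImplicit false
set_option linter.unusedSectionVars false
set_option linter.unusedVariables false
open MeasureTheory Filter Topology Set
open scoped ENNReal NNReal InnerProductSpace
open Pool.Agent.Helper420.QI (Dir)
open Pool.Agent.H456R3.Q.W1

namespace Pool.Agent.H456R3.Q.W2

variable {α : Type*} [MeasurableSpace α] {μ : Measure α}
  {H : Type*} [NormedAddCommGroup H] [InnerProductSpace ℝ H] [CompleteSpace H]
  {J : H →L[ℝ] Lp ℝ 2 μ} {q r : ℝ}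

theorem star_comp (hD : Dir μ J q r) (z : H)
    (h : ∀ w : H, 0 ≤ᵐ[μ] J w → (∀ᵐ x ∂μ, J z x ≤ 0 → J w x = 0) → ⟪z, w⟫_ℝ ≤ 0) :
    ∀ᵐ x ∂μ, J z x ≤ 0 := by
  obtain ⟨w, hw1, hw2⟩ := hD.cut z 0 le_rfl
  have h0 : 0 ≤ᵐ[μ] J w := by
    filter_upwards [hw1] with x hx
    rw [hx]
    exact le_max_right _ _
  have h1 := h w h0 (by
    filter_upwards [hw1] with x hx hz
    rw [hx, sub_zero]
    exact max_eq_right hz)
  have h2 : w = 0 := by
    have : ‖w‖ ^ 2 ≤ 0 := hw2.trans h1
    have h3 : ‖w‖ = 0 := by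
      have := sq_nonneg ‖w‖
      exact pow_eq_zero_iff (two_ne_zero) |>.1 (le_antisymm ‹‖w‖ ^ 2 ≤ 0› this)
    exact norm_eq_zero.1 h3
  rw [h2, map_zero] at hw1
  filter_upwards [hw1, Lp.coeFn_zero ℝ 2 μ] with x hx hx0
  rw [hx0] at hx
  have : max (J z x - 0) 0 = 0 := hx.symm
  have h4 := le_max_left (J z x - 0) 0
  rw [this, sub_zero] at h4
  exact h4

theorem star_G {F : α → ℝ} (hF : MemLp F 2 μ) (J : H →L[ℝ] Lp ℝ 2 μ) :
    ∀ φ : H, ⟪ContinuousLinearMap.adjoint J (hF.toLp F), φ⟫_ℝ = ∫ x, F x * J φ x ∂μ := by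
  intro φ
  rw [ContinuousLinearMap.adjoint_inner_left, L2.inner_def]
  apply integral_congr_ae
  filter_upwards [hF.coeFn_toLp] with x hx
  rw [hx]
  simp [mul_comm]

theorem int_FJ {F : α → ℝ} (hF : MemLp F 2 μ) (J : H →L[ℝ] Lp ℝ 2 μ) (φ : H) :
    Integrable (fun x => F x * J φ x) μ := hF.integrable_mul (Lp.memLp (J φ))

/-- level set estimate for the torsion function of a set of finite measure -/
theorem tor_level (hD : Dir μ J q r) {C : ℝ} (hC : 0 < C)
    (hsob : ∀ u : H, eLpNorm (J u) (ENNReal.ofReal r) μ ≤ ENNReal.ofReal (C * ‖u‖))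
    {S : Set α} (hS : MeasurableSet S) (hSf : μ S ≠ ∞) {w : H}
    (hw : ∀ φ : H, ⟪w, φ⟫_ℝ = ∫ x, S.indicator (fun _ => (1:ℝ)) x * J φ x ∂μ)
    {k h : ℝ} (hk : 0 ≤ k) (hh : k < h) :
    μ.real (S ∩ {x | h < J w x}) ≤ (C ^ 2 / (h - k)) ^ r * (μ.real (S ∩ {x | k < J w x})) ^ (r - 1) := by
  have hq := hD.two_lt
  have hqr := hD.q_lt
  have hr0 : 0 < r := by linarith
  have hrofR : ENNReal.ofReal r ≠ 0 := by simpa using hr0
  obtain ⟨wk, hwk, hwk2⟩ := hD.cut w k hk
  have hmeas : Measurable (J w : α → ℝ) := (Lp.stronglyMeasurable (J w)).measurable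
  set T : Set α := S ∩ {x | k < J w x} with hT
  have hTm : MeasurableSet T := hS.inter (measurableSet_lt measurable_const hmeas)
  have hTf : μ T ≠ ∞ := ne_top_of_le_ne_top hSf (measure_mono inter_subset_left)
  set A : ℝ := μ.real T with hA
  have hA0 : 0 ≤ A := measureReal_nonneg
  set g : α → ℝ := fun x => S.indicator (fun x => max (J w x - k) 0) x with hg
  have hg0 : ∀ x, 0 ≤ g x := fun x => Set.indicator_nonneg (fun _ _ => le_max_right _ _) x
  have hgS : ∀ x, x ∉ T → g x = 0 := by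
    intro x hx
    by_cases hxS : x ∈ S
    · have h1 : ¬ k < J w x := fun h2 => hx ⟨hxS, h2⟩
      simp only [hg, Set.indicator_of_mem hxS]
      exact max_eq_right (by linarith [not_lt.1 h1])
    · simp only [hg, Set.indicator_of_notMem hxS]
  have hmemJ : MemLp (J wk) (ENNReal.ofReal r) μ :=
    ⟨Lp.aestronglyMeasurable _, (hsob wk).trans_lt ENNReal.ofReal_lt_top⟩
  have hmem0 : MemLp (fun x => max (J w x - k) 0) (ENNReal.ofReal r) μ := hmemJ.ae_eq hwk
  have hmem : MemLp g (ENNReal.ofReal r) μ := hmem0.indicator hS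
  set n : ℝ := ‖wk‖ with hn
  have hn0 : 0 ≤ n := norm_nonneg _
  set Z : ℝ := ∫ x, g x ^ r ∂μ with hZ
  have hZ0 : 0 ≤ Z := integral_nonneg fun x => Real.rpow_nonneg (hg0 x) r
  set z : ℝ := Z ^ (1 / r) with hz
  have hz0 : 0 ≤ z := Real.rpow_nonneg hZ0 _
  have hzr : z ^ r = Z := by
    rw [hz, ← Real.rpow_mul hZ0, one_div, inv_mul_cancel₀ hr0.ne', Real.rpow_one]
  have hzn : z ≤ C * n := by
    have e := hmem.eLpNorm_eq_integral_rpow_norm hrofR ENNReal.ofReal_ne_top
    have e2 : eLpNorm g (ENNReal.ofReal r) μ ≤ ENNReal.ofReal (C * n) := by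
      refine le_trans ?_ (hsob wk)
      rw [eLpNorm_congr_ae hwk]
      exact eLpNorm_indicator_le _
    rw [e, ENNReal.toReal_ofReal hr0.le] at e2
    have e3 : ∀ x, ‖g x‖ ^ r = g x ^ r := fun x => by rw [Real.norm_of_nonneg (hg0 x)]
    simp only [e3] at e2
    rw [ENNReal.ofReal_le_ofReal_iff (by positivity)] at e2
    rw [hz, one_div]; exact e2
  have hH1 : ∫ x, g x ∂μ ≤ z * A ^ (1 - 1 / r) := by
    have := w1_hoelder (μ := μ) hg0 hTm hTf hgS hmem one_pos (by linarith)
    simpa only [Real.rpow_one] using this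
  have hmain : n ^ 2 ≤ z * A ^ (1 - 1 / r) := by
    refine hwk2.trans (le_trans (le_of_eq ?_) hH1)
    rw [hw wk]
    apply integral_congr_ae
    filter_upwards [hwk] with x hx
    rw [hx]
    by_cases hxS : x ∈ S
    · simp only [hg, Set.indicator_of_mem hxS, one_mul]
    · simp only [hg, Set.indicator_of_notMem hxS, zero_mul]
  set A1 : ℝ := A ^ (1 - 1 / r) with hA1
  have hA10 : 0 ≤ A1 := Real.rpow_nonneg hA0 _
  have hn3 : n ≤ C * A1 := by
    rcases hn0.eq_or_lt with h0 | h0
    · rw [← h0]; positivity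
    · have : n * n ≤ C * A1 * n := by nlinarith [mul_le_mul_of_nonneg_right hzn hA10]
      exact le_of_mul_le_mul_right this h0
  have hz3 : z ≤ C ^ 2 * A1 := by
    calc z ≤ C * n := hzn
      _ ≤ C * (C * A1) := mul_le_mul_of_nonneg_left hn3 hC.le
      _ = _ := by ring
  have hch : (h - k) ^ r * μ.real (S ∩ {x | h < J w x}) ≤ Z := by
    have hintr : Integrable (fun x => g x ^ r) μ := by
      have := hmem.integrable_norm_rpow hrofR ENNReal.ofReal_ne_top
      rw [ENNReal.toReal_ofReal hr0.le] at this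
      refine this.congr ?_
      filter_upwards with x
      rw [Real.norm_of_nonneg (hg0 x)]
    have h5 := mul_meas_ge_le_integral_of_nonneg (μ := μ)
      (Eventually.of_forall fun x => Real.rpow_nonneg (hg0 x) r) hintr ((h - k) ^ r)
    refine (mul_le_mul_of_nonneg_left ?_ (Real.rpow_nonneg (by linarith) _)).trans h5
    refine measureReal_mono ?_ (hintr.measure_ge_lt_top
      (Real.rpow_pos_of_pos (by linarith) _)).ne
    rintro x ⟨hxS, hx⟩
    have hx' : h < J w x := hx
    show (h - k) ^ r ≤ g x ^ r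
    refine Real.rpow_le_rpow (by linarith) ?_ hr0.le
    simp only [hg, Set.indicator_of_mem hxS]
    exact le_max_of_le_left (by linarith)
  have hhk : 0 < h - k := by linarith
  have hfin : Z ≤ (C ^ 2) ^ r * A ^ (r - 1) := by
    rw [← hzr]
    have h6 : z ^ r ≤ (C ^ 2 * A1) ^ r := Real.rpow_le_rpow hz0 hz3 hr0.le
    rw [Real.mul_rpow (by positivity) hA10] at h6
    have e : A1 ^ r = A ^ (r - 1) := by
      rw [hA1, ← Real.rpow_mul hA0]; congr 1; field_simp
    rwa [e] at h6
  rw [Real.div_rpow (by positivity) hhk.le, div_mul_eq_mul_div, le_div_iff₀ (by positivity),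
    mul_comm]
  exact hch.trans hfin

/-- sup bound for the torsion function of a set of finite measure -/
theorem tor_bound (hD : Dir μ J q r) {C : ℝ} (hC : 0 < C)
    (hsob : ∀ u : H, eLpNorm (J u) (ENNReal.ofReal r) μ ≤ ENNReal.ofReal (C * ‖u‖))
    {S : Set α} (hS : MeasurableSet S) (hSf : μ S ≠ ∞) {w : H}
    (hw : ∀ φ : H, ⟪w, φ⟫_ℝ = ∫ x, S.indicator (fun _ => (1:ℝ)) x * J φ x ∂μ)
    {d : ℝ} (hd : 0 < d)
    (h2 : (2 * C ^ 2 / d) ^ r * (μ.real S) ^ (r - 2) ≤ 2 ^ (- (r / (r - 2)))) :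
    ∀ᵐ x ∂μ, J w x ≤ d := by
  have hq := hD.two_lt
  have hqr := hD.q_lt
  have hr0 : 0 < r := by linarith
  set ρ : ℝ := 2 ^ (- (r / (r - 2))) with hρ
  have hρ0 : 0 < ρ := by positivity
  have hρ1 : ρ < 1 := by
    rw [hρ]
    refine Real.rpow_lt_one_of_one_lt_of_neg (by norm_num) ?_
    have : 0 < r / (r - 2) := div_pos hr0 (by linarith)
    linarith
  have hρr : (2 : ℝ) ^ r * ρ ^ (r - 2) = 1 := by
    rw [hρ, ← Real.rpow_mul (by norm_num), ← Real.rpow_add (by norm_num)]
    have : r + -(r / (r - 2)) * (r - 2) = 0 := by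
      have : r - 2 ≠ 0 := by linarith
      field_simp
      ring
    rw [this, Real.rpow_zero]
  have hfinS : ∀ t : ℝ, μ (S ∩ {x | t < J w x}) ≠ ∞ := fun t =>
    ne_top_of_le_ne_top hSf (measure_mono inter_subset_left)
  set a : ℕ → ℝ := fun j => μ.real (S ∩ {x | d * (1 - (1 / 2) ^ j) < J w x}) with ha
  have ha0 : ∀ j, 0 ≤ a j := fun j => measureReal_nonneg
  have hkj : ∀ j : ℕ, 0 ≤ d * (1 - (1 / 2 : ℝ) ^ j) := by
    intro j
    have : (1 / 2 : ℝ) ^ j ≤ 1 := pow_le_one₀ (by norm_num) (by norm_num)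
    exact mul_nonneg hd.le (by linarith)
  have hkd : ∀ j : ℕ, d * (1 - (1 / 2 : ℝ) ^ j) ≤ d := by
    intro j
    have : 0 ≤ d * (1 / 2 : ℝ) ^ j := by positivity
    nlinarith
  have haS : ∀ j, a j ≤ μ.real S := fun j => measureReal_mono inter_subset_left hSf
  have hstep : ∀ j, a (j + 1) ≤ (2 * C ^ 2 / d) ^ r * (2 ^ r) ^ j * a j ^ (r - 1) := by
    intro j
    have hlt : d * (1 - (1 / 2 : ℝ) ^ j) < d * (1 - (1 / 2) ^ (j + 1)) := by
      have h3 : (1 / 2 : ℝ) ^ (j + 1) < (1 / 2) ^ j := by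
        rw [pow_succ]
        have : 0 < (1 / 2 : ℝ) ^ j := by positivity
        linarith
      exact mul_lt_mul_of_pos_left (by linarith) hd
    have h4 := tor_level hD hC hsob hS hSf hw (hkj j) hlt
    refine h4.trans ?_
    show _ * a j ^ (r - 1) ≤ _
    refine mul_le_mul_of_nonneg_right ?_ (Real.rpow_nonneg (ha0 j) _)
    have e1 : d * (1 - (1 / 2 : ℝ) ^ (j + 1)) - d * (1 - (1 / 2) ^ j)
        = d * (1 / 2) ^ (j + 1) := by
      rw [pow_succ]; ring
    rw [e1]
    have e2 : ((2 : ℝ) ^ r) ^ j = ((2 : ℝ) ^ j) ^ r := by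
      rw [← Real.rpow_natCast, ← Real.rpow_natCast, ← Real.rpow_mul (by norm_num),
        ← Real.rpow_mul (by norm_num), mul_comm]
    have e4 : (2 * C ^ 2 / d) ^ r * ((2 : ℝ) ^ j) ^ r = (2 * C ^ 2 / d * 2 ^ j) ^ r :=
      (Real.mul_rpow (by positivity) (by positivity)).symm
    rw [e2, e4]
    apply le_of_eq
    congr 1
    rw [pow_succ, one_div, inv_pow]
    field_simp
    try ring
  have hind : ∀ j, a j ≤ a 0 * ρ ^ j := by
    intro j
    induction j with
    | zero => simp
    | succ j ih =>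
      refine (hstep j).trans ?_
      rcases (ha0 0).eq_or_lt with h0 | h0
      · have hj : a j = 0 := le_antisymm (by rw [← h0, zero_mul] at ih; exact ih) (ha0 j)
        rw [hj, Real.zero_rpow (by linarith), ← h0]; simp
      · have s1 : a j ^ (r - 1) ≤ (a 0 * ρ ^ j) ^ (r - 1) :=
          Real.rpow_le_rpow (ha0 j) ih (by linarith)
        have s2 : (a 0 * ρ ^ j) ^ (r - 1) = a 0 ^ (r - 2) * (ρ ^ (r - 2)) ^ j * (a 0 * ρ ^ j) := by
          have e : r - 1 = (r - 2) + 1 := by ring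
          rw [e, Real.rpow_add (by positivity), Real.rpow_one, Real.mul_rpow h0.le (by positivity)]
          have e2 : (ρ ^ j) ^ (r - 2) = (ρ ^ (r - 2)) ^ j := by
            rw [← Real.rpow_natCast, ← Real.rpow_natCast, ← Real.rpow_mul hρ0.le,
              ← Real.rpow_mul hρ0.le, mul_comm]
          rw [e2]
        have s3 : ((2 : ℝ) ^ r) ^ j * (ρ ^ (r - 2)) ^ j = 1 := by
          rw [← mul_pow, hρr, one_pow]
        have s4 : (2 * C ^ 2 / d) ^ r * a 0 ^ (r - 2) ≤ ρ := by
          refine le_trans (mul_le_mul_of_nonneg_left ?_ (by positivity)) h2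
          exact Real.rpow_le_rpow (ha0 0) (haS 0) (by linarith)
        calc (2 * C ^ 2 / d) ^ r * (2 ^ r) ^ j * a j ^ (r - 1)
            ≤ (2 * C ^ 2 / d) ^ r * (2 ^ r) ^ j * (a 0 * ρ ^ j) ^ (r - 1) :=
              mul_le_mul_of_nonneg_left s1 (by positivity)
          _ = ((2 * C ^ 2 / d) ^ r * a 0 ^ (r - 2)) * (((2 : ℝ) ^ r) ^ j * (ρ ^ (r - 2)) ^ j) *
                (a 0 * ρ ^ j) := by rw [s2]; ring
          _ = ((2 * C ^ 2 / d) ^ r * a 0 ^ (r - 2)) * (a 0 * ρ ^ j) := by rw [s3, mul_one]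
          _ ≤ ρ * (a 0 * ρ ^ j) := mul_le_mul_of_nonneg_right s4 (by positivity)
          _ = a 0 * ρ ^ (j + 1) := by rw [pow_succ]; ring
  have hle : ∀ j, μ.real (S ∩ {x | d < J w x}) ≤ a 0 * ρ ^ j := by
    intro j
    refine le_trans ?_ (hind j)
    refine measureReal_mono ?_ (hfinS _)
    rintro x ⟨hxS, hx⟩
    exact ⟨hxS, lt_of_le_of_lt (hkd j) hx⟩
  have hlim : Tendsto (fun j : ℕ => a 0 * ρ ^ j) atTop (𝓝 0) := by
    have := (tendsto_pow_atTop_nhds_zero_of_lt_one hρ0.le hρ1).const_mul (a 0)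
    simpa using this
  have hzero : μ.real (S ∩ {x | d < J w x}) = 0 :=
    le_antisymm (ge_of_tendsto' hlim hle) measureReal_nonneg
  have hz2 : μ (S ∩ {x | d < J w x}) = 0 := by
    rwa [measureReal_eq_zero_iff (hfinS _)] at hzero
  have hS' : ∀ᵐ x ∂μ, x ∈ S → J w x ≤ d := by
    rw [ae_iff]
    refine measure_mono_null ?_ hz2
    intro x hx
    simp only [Set.mem_ofPred_eq, Classical.not_imp, not_le] at hx
    exact hx
  -- comparison
  obtain ⟨wd, hwd, hwd2⟩ := hD.cut w d hd.le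
  have h0 : ⟪w, wd⟫_ℝ = 0 := by
    rw [hw, ← integral_zero α ℝ]
    apply integral_congr_ae
    filter_upwards [hS', hwd] with x h1 h3
    by_cases hxS : x ∈ S
    · rw [h3, max_eq_right (by linarith [h1 hxS]), mul_zero]
    · rw [Set.indicator_of_notMem hxS, zero_mul]
  have h3 : wd = 0 := by
    rw [h0] at hwd2
    have : ‖wd‖ = 0 := by nlinarith [norm_nonneg wd, sq_nonneg ‖wd‖]
    exact norm_eq_zero.1 this
  rw [h3, map_zero] at hwd
  filter_upwards [hwd, Lp.coeFn_zero ℝ 2 μ] with x h4 h5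
  rw [h5] at h4
  have h6 := le_max_left (J w x - d) 0
  rw [← h4, Pi.zero_apply] at h6
  linarith

theorem star (hD : Dir μ J q r)
    {v : H} (hv0 : 0 ≤ᵐ[μ] J v) {M0 : ℝ} (hvM : ∀ᵐ x ∂μ, J v x ≤ M0)
    (hsup : ∀ φ : H, 0 ≤ᵐ[μ] J φ → 0 ≤ ⟪v, φ⟫_ℝ)
    (hdec : ∀ s : ℝ, 0 < s → ∃ C : ℝ, 0 ≤ C ∧ ∀ t : ℝ, 0 < t → t ≤ 1 →
      μ.real {x | t < J v x} ≤ C * t ^ (-s)) {θ : ℝ} (hθ : 0 < θ) :
    ∃ (C : ℝ) (g : H), 0 ≤ C ∧ (∀ φ : H, ⟪g, φ⟫_ℝ = ∫ x, (J v x) ^ (1 + θ) * J φ x ∂μ) ∧
      0 ≤ᵐ[μ] J g ∧ ∀ᵐ x ∂μ, J g x ≤ C * J v x := by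
  classical
  have hq := hD.two_lt
  have hqr := hD.q_lt
  have hr0 : 0 < r := by linarith
  obtain ⟨C0, hC0, hsob⟩ := hD.sob
  set M : ℝ := max M0 1 with hMdef
  have hM1 : 1 ≤ M := le_max_right _ _
  have hM0 : 0 < M := lt_of_lt_of_le one_pos (le_max_right _ _)
  have hM : ∀ᵐ x ∂μ, J v x ≤ M := by
    filter_upwards [hvM] with x hx
    exact hx.trans (le_max_left _ _)
  -- the functions
  obtain ⟨V, hV⟩ : ∃ V : α → ℝ, V = fun x => J v x := ⟨_, rfl⟩
  have hVm : Measurable V := by rw [hV]; exact (Lp.stronglyMeasurable (J v)).measurable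
  have hVL : MemLp V 2 μ := by rw [hV]; exact Lp.memLp (J v)
  have hVx : ∀ x, J v x = V x := fun x => by rw [hV]
  simp only [hVx] at hM hdec
  have hv0 : ∀ᵐ x ∂μ, 0 ≤ V x := by
    filter_upwards [hv0] with x hx
    rw [← hVx]
    exact hx
  have hlev : ∀ t : ℝ, 0 < t → μ {x | t < V x} ≠ ∞ := by
    intro t ht
    have := lev_fin (J := J) v ht
    simpa only [hVx] using this
  simp only [hVx]
  set P : α → ℝ := fun x => (V x) ^ (1 + θ) with hP
  have hPm : Measurable P := hVm.pow_const _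
  have hPb : ∀ᵐ x ∂μ, ‖P x‖ ≤ M ^ θ * ‖V x‖ := by
    filter_upwards [hv0, hM] with x h0 h1
    have h0' : 0 ≤ V x := h0
    rw [Real.norm_of_nonneg (Real.rpow_nonneg h0' _), Real.norm_of_nonneg h0']
    rcases h0'.eq_or_lt with h | h
    · rw [← h, Real.zero_rpow (by linarith), mul_zero]
    · rw [add_comm, Real.rpow_add h, Real.rpow_one]
      exact mul_le_mul_of_nonneg_right (Real.rpow_le_rpow h0' h1 hθ.le) h0'
  have hPL : MemLp P 2 μ := hVL.of_le_mul hPm.aestronglyMeasurable hPb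
  obtain ⟨g, hg⟩ : ∃ g : H, ∀ φ : H, ⟪g, φ⟫_ℝ = ∫ x, P x * J φ x ∂μ := ⟨_, star_G hPL J⟩
  obtain ⟨t, ht⟩ : ∃ g : H, ∀ φ : H, ⟪g, φ⟫_ℝ = ∫ x, V x * J φ x ∂μ := ⟨_, star_G hVL J⟩
  set f : ℕ → α → ℝ := fun k x => if (M / 2 ^ (k + 1) < V x ∧ V x ≤ M / 2 ^ k) then V x else 0
    with hf
  have hfm : ∀ k, Measurable (f k) := by
    intro k
    exact Measurable.ite ((measurableSet_lt measurable_const hVm).inter
      (measurableSet_le hVm measurable_const)) hVm measurable_const
  have hfb : ∀ k, ∀ x, |f k x| ≤ M / 2 ^ k := by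
    intro k x
    simp only [hf]
    have hp : 0 < M / 2 ^ (k + 1) := by positivity
    have hp' : 0 ≤ M / 2 ^ k := by positivity
    split_ifs with h
    · rw [abs_of_pos (hp.trans h.1)]
      exact h.2
    · simpa using hp'
  have hfL : ∀ k, MemLp (f k) 2 μ := by
    intro k
    refine hVL.mono (hfm k).aestronglyMeasurable (Eventually.of_forall fun x => ?_)
    simp only [hf]
    split_ifs with h
    · exact le_rfl
    · simp
  have hexG : ∀ k, ∃ gk : H, ∀ φ : H, ⟪gk, φ⟫_ℝ = ∫ x, f k x * J φ x ∂μ := fun k =>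
    ⟨_, star_G (hfL k) J⟩
  choose G hG using hexG
  have hJsub : ∀ a b : H, ∀ᵐ x ∂μ, J (a - b) x = J a x - J b x := by
    intro a b
    rw [map_sub]
    exact Lp.coeFn_sub (J a) (J b)
  have hJadd : ∀ a b : H, ∀ᵐ x ∂μ, J (a + b) x = J a x + J b x := by
    intro a b
    rw [map_add]
    exact Lp.coeFn_add (J a) (J b)
  have hJsmul : ∀ (c : ℝ) (a : H), ∀ᵐ x ∂μ, J (c • a) x = c * J a x := by
    intro c a
    rw [map_smul]
    exact Lp.coeFn_smul c (J a)
  -- the torsion functions of the level sets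
  set s : ℝ := θ * r / (2 * (r - 2)) with hs
  have hr2 : 0 < r - 2 := by linarith
  have hs0 : 0 < s := by positivity
  have hsr : s * (r - 2) = θ / 2 * r := by
    rw [hs]; field_simp
  obtain ⟨Cs, hCs, hCs'⟩ := hdec s hs0
  set A : ℝ := 2 * Cs * 2 ^ s with hA
  have hA0 : 0 ≤ A := by positivity
  set D : ℕ → Set α := fun k => {x | M / 2 ^ (k + 1) < V x} with hDdef
  have hDm : ∀ k, MeasurableSet (D k) := fun k => measurableSet_lt measurable_const hVm
  have hDf : ∀ k, μ (D k) ≠ ∞ := fun k => hlev _ (by positivity)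
  have hDA : ∀ k : ℕ, μ.real (D k) ≤ A * (2 ^ s) ^ k := by
    intro k
    have h2s : (1:ℝ) ≤ 2 ^ s := Real.one_le_rpow (by norm_num) hs0.le
    have h2k : (1:ℝ) ≤ (2 ^ s) ^ k := one_le_pow₀ h2s
    by_cases hk : M / 2 ^ (k + 1) ≤ 1
    · refine (hCs' _ (by positivity) hk).trans ?_
      have e1 : (M / 2 ^ (k + 1)) ^ (-s) ≤ (2 ^ s) ^ (k + 1) := by
        rw [Real.rpow_neg (by positivity), Real.div_rpow hM0.le (by positivity), inv_div]
        rw [← Real.rpow_natCast (2:ℝ) (k+1), ← Real.rpow_mul (by norm_num),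
          ← Real.rpow_natCast ((2:ℝ)^s) (k+1), ← Real.rpow_mul (by norm_num), mul_comm s]
        refine div_le_self (by positivity) (Real.one_le_rpow hM1 hs0.le)
      calc Cs * (M / 2 ^ (k + 1)) ^ (-s) ≤ Cs * (2 ^ s) ^ (k + 1) :=
            mul_le_mul_of_nonneg_left e1 hCs
        _ = Cs * 2 ^ s * (2 ^ s) ^ k := by rw [pow_succ]; ring
        _ ≤ A * (2 ^ s) ^ k := by
          apply mul_le_mul_of_nonneg_right _ (by positivity)
          rw [hA]
          have : 0 ≤ Cs * 2 ^ s := by positivity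
          nlinarith
    · push Not at hk
      have h1 : μ.real (D k) ≤ μ.real {x | 1 < V x} := by
        refine measureReal_mono ?_ (hlev 1 one_pos)
        intro x hx
        exact hk.trans hx
      have h2 := hCs' 1 one_pos le_rfl
      rw [Real.one_rpow, mul_one] at h2
      refine (h1.trans h2).trans ?_
      rw [hA]
      have : Cs ≤ Cs * (2 ^ s * (2 ^ s) ^ k) :=
        le_mul_of_one_le_right hCs (one_le_mul_of_one_le_of_one_le h2s h2k)
      have h3 : 0 ≤ Cs * (2 ^ s * (2 ^ s) ^ k) := by positivity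
      nlinarith
  set κ : ℝ := 2 ^ (- (r / (r - 2))) with hκ
  have hκ0 : 0 < κ := by positivity
  set L : ℝ := (A + 1) ^ (r - 2) / κ with hL
  have hL0 : 0 < L := by positivity
  set K0 : ℝ := 2 * C0 ^ 2 * L ^ (1 / r) with hK0
  have hK00 : 0 < K0 := by positivity
  set β : ℝ := 2 ^ (θ / 2) with hβ
  have hβ0 : 0 < β := by positivity
  set d : ℕ → ℝ := fun k => K0 * β ^ k with hd
  have hd0 : ∀ k, 0 < d k := fun k => by positivity
  have hcond : ∀ k, (2 * C0 ^ 2 / d k) ^ r * (μ.real (D k)) ^ (r - 2) ≤ κ := by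
    intro k
    have e1 : (2 * C0 ^ 2 / d k) = (L ^ (1 / r) * β ^ k)⁻¹ := by
      simp only [hd, hK0]
      field_simp
    have e2 : (2 * C0 ^ 2 / d k) ^ r = L⁻¹ * ((β ^ r) ^ k)⁻¹ := by
      rw [e1, Real.inv_rpow (by positivity), Real.mul_rpow (by positivity) (by positivity),
        mul_inv, ← Real.rpow_mul hL0.le, one_div, inv_mul_cancel₀ hr0.ne', Real.rpow_one]
      congr 2
      rw [← Real.rpow_natCast, ← Real.rpow_natCast, ← Real.rpow_mul hβ0.le,
        ← Real.rpow_mul hβ0.le, mul_comm]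
    have e3 : (μ.real (D k)) ^ (r - 2) ≤ (A + 1) ^ (r - 2) * (β ^ r) ^ k := by
      have h1 : (μ.real (D k)) ^ (r - 2) ≤ ((A + 1) * (2 ^ s) ^ k) ^ (r - 2) := by
        refine Real.rpow_le_rpow measureReal_nonneg ((hDA k).trans ?_) hr2.le
        exact mul_le_mul_of_nonneg_right (by linarith) (by positivity)
      refine h1.trans (le_of_eq ?_)
      rw [Real.mul_rpow (by positivity) (by positivity)]
      congr 1
      have e4 : ((2:ℝ) ^ s) ^ k = 2 ^ (s * k) := by
        rw [← Real.rpow_natCast, ← Real.rpow_mul (by norm_num)]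
      have e5 : (((2:ℝ) ^ (θ / 2)) ^ r) ^ k = 2 ^ (θ / 2 * r * k) := by
        rw [← Real.rpow_natCast, ← Real.rpow_mul (by positivity), ← Real.rpow_mul (by positivity)]
        congr 1
        ring
      rw [hβ, e4, e5, ← Real.rpow_mul (by norm_num)]
      congr 1
      linear_combination (k:ℝ) * hsr
    have hβr : 0 < (β ^ r) ^ k := by positivity
    calc (2 * C0 ^ 2 / d k) ^ r * (μ.real (D k)) ^ (r - 2)
        ≤ L⁻¹ * ((β ^ r) ^ k)⁻¹ * ((A + 1) ^ (r - 2) * (β ^ r) ^ k) := by
          rw [e2]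
          exact mul_le_mul_of_nonneg_left e3 (by positivity)
      _ = L⁻¹ * (A + 1) ^ (r - 2) := by field_simp
      _ = κ := by
        rw [hL]
        have : (A + 1) ^ (r - 2) ≠ 0 := by positivity
        field_simp
      _ ≤ κ := le_rfl
  have htor : ∀ k, ∃ w : H, (∀ φ : H, ⟪w, φ⟫_ℝ = ∫ x, (D k).indicator (fun _ => (1:ℝ)) x * J φ x ∂μ) ∧
      ∀ᵐ x ∂μ, J w x ≤ d k := by
    intro k
    have hmem : MemLp ((D k).indicator (fun _ => (1:ℝ))) 2 μ :=
      memLp_indicator_const 2 (hDm k) 1 (Or.inr (hDf k))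
    refine ⟨_, star_G hmem J, ?_⟩
    exact tor_bound hD hC0 hsob (hDm k) (hDf k) (star_G hmem J) (hd0 k) (hcond k)
  choose T hT hTd using htor
  have hTint : ∀ k φ, Integrable (fun x => (D k).indicator (fun _ => (1:ℝ)) x * J φ x) μ :=
    fun k φ => int_FJ (memLp_indicator_const 2 (hDm k) 1 (Or.inr (hDf k))) J φ
  -- bound of G k by the torsion
  have hGB : ∀ k, ∀ᵐ x ∂μ, J (G k) x ≤ M / 2 ^ k * d k := by
    intro k
    have h1 := star_comp hD (G k - (M / 2 ^ k) • T k) (by
      intro w hw _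
      rw [inner_sub_left, inner_smul_left, hG, hT]
      simp only [conj_trivial]
      rw [← integral_const_mul, ← integral_sub (int_FJ (hfL k) J w) ((hTint k w).const_mul _)]
      apply integral_nonpos_of_ae
      filter_upwards [hw] with x hx
      have hx' : 0 ≤ J w x := hx
      have h5 : f k x ≤ M / 2 ^ k * (D k).indicator (fun _ => (1:ℝ)) x := by
        by_cases hxD : x ∈ D k
        · rw [Set.indicator_of_mem hxD, mul_one]
          exact (abs_le.1 (hfb k x)).2
        · rw [Set.indicator_of_notMem hxD, mul_zero]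
          simp only [hf]
          rw [if_neg (fun h => hxD h.1)]
      show f k x * J w x - M / 2 ^ k * ((D k).indicator (fun _ => (1:ℝ)) x * J w x) ≤ 0
      nlinarith)
    filter_upwards [h1, hJsub (G k) ((M / 2 ^ k) • T k), hJsmul (M / 2 ^ k) (T k), hTd k]
      with x a1 a2 a3 a4
    rw [a2, a3] at a1
    have : M / 2 ^ k * J (T k) x ≤ M / 2 ^ k * d k := mul_le_mul_of_nonneg_left a4 (by positivity)
    linarith
  have hGV : ∀ k, ∀ᵐ x ∂μ, J (G k) x ≤ 2 * d k * V x := by
    intro k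
    have hJz : ∀ᵐ x ∂μ, J (G k - (2 * d k) • v) x = J (G k) x - 2 * d k * V x := by
      filter_upwards [hJsub (G k) ((2 * d k) • v), hJsmul (2 * d k) v] with x a1 a2
      rw [a1, a2, hVx]
    have h1 := star_comp hD (G k - (2 * d k) • v) (by
      intro w hw hwz
      rw [inner_sub_left, inner_smul_left, hG]
      simp only [conj_trivial]
      have h2 : ∫ x, f k x * J w x ∂μ = 0 := by
        rw [← integral_zero α ℝ]
        apply integral_congr_ae
        filter_upwards [hwz, hJz, hGB k] with x a1 a2 a3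
        by_cases hx : (M / 2 ^ (k + 1) < V x ∧ V x ≤ M / 2 ^ k)
        · have : J w x = 0 := by
            apply a1
            rw [a2]
            have e : M / 2 ^ k = 2 * (M / 2 ^ (k + 1)) := by
              rw [pow_succ]; field_simp
            rw [e] at a3
            have := hd0 k
            nlinarith [hx.1]
          rw [this, mul_zero]
        · simp only [hf]
          rw [if_neg hx, zero_mul]
      rw [h2]
      have := hsup w hw
      have := hd0 k
      have h7 : 0 ≤ 2 * d k * ⟪v, w⟫_ℝ := by positivity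
      linarith)
    filter_upwards [h1, hJz] with x a1 a2
    linarith
  -- nonnegativity of g
  have hg0 : 0 ≤ᵐ[μ] J g := by
    have h1 := star_comp hD (-g) (by
      intro w hw _
      rw [inner_neg_left, hg, neg_nonpos]
      apply integral_nonneg_of_ae
      filter_upwards [hw, hv0] with x hx hx0
      have hx' : 0 ≤ J w x := hx
      have hx0' : 0 ≤ V x := hx0
      exact mul_nonneg (Real.rpow_nonneg hx0' _) hx')
    have h2 : ∀ᵐ x ∂μ, J (-g) x = - J g x := by
      rw [map_neg]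
      exact Lp.coeFn_neg (J g)
    filter_upwards [h1, h2] with x a1 a2
    rw [a2] at a1
    show (0:ℝ) ≤ J g x
    linarith
  -- the finite sums
  set c : ℕ → ℝ := fun k => (M / 2 ^ k) ^ θ with hc
  have hc0 : ∀ k, 0 ≤ c k := fun k => Real.rpow_nonneg (by positivity) _
  set ρ : ℝ := (2:ℝ) ^ (-(θ / 2)) with hρ
  have hρ0 : 0 < ρ := Real.rpow_pos_of_pos (by norm_num) _
  have hρ1 : ρ < 1 := by
    rw [hρ]
    exact Real.rpow_lt_one_of_one_lt_of_neg (by norm_num) (by linarith)
  have hcρ : ∀ k, c k * (2 * d k) = 2 * K0 * M ^ θ * ρ ^ k := by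
    intro k
    have e : c k * β ^ k = M ^ θ * ρ ^ k := by
      simp only [hc, hρ, hβ]
      rw [Real.div_rpow hM0.le (by positivity), ← Real.rpow_natCast (2:ℝ) k,
        ← Real.rpow_mul (by norm_num), ← Real.rpow_natCast ((2:ℝ) ^ (-(θ/2))) k,
        ← Real.rpow_mul (by norm_num), div_eq_mul_inv,
        ← Real.rpow_neg (by norm_num), ← Real.rpow_natCast ((2:ℝ) ^ (θ/2)) k,
        ← Real.rpow_mul (by norm_num), mul_assoc, ← Real.rpow_add (by norm_num)]
      congr 2
      ring
    calc c k * (2 * d k) = 2 * K0 * (c k * β ^ k) := by simp only [hd]; ring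
      _ = _ := by rw [e]; ring
  set Q : ℝ := 2 * K0 * M ^ θ / (1 - ρ) with hQ
  have hcsum : ∀ K, ∑ k ∈ Finset.range K, c k * (2 * d k) ≤ Q := by
    intro K
    have h1 : ∑ k ∈ Finset.range K, c k * (2 * d k)
        = 2 * K0 * M ^ θ * ∑ k ∈ Finset.range K, ρ ^ k := by
      rw [Finset.mul_sum]
      exact Finset.sum_congr rfl (fun k _ => hcρ k)
    have h2 : ∑ k ∈ Finset.range K, ρ ^ k ≤ 1 / (1 - ρ) := by
      rw [geom_sum_eq hρ1.ne, ← neg_div_neg_eq]
      apply div_le_div_of_nonneg_right _ (by linarith) |>.trans_eq' _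
      · exact 1 - ρ ^ K
      · have := pow_nonneg hρ0.le K
        linarith
      · congr 1 <;> ring
    rw [h1, hQ, div_eq_mul_one_div]
    exact mul_le_mul_of_nonneg_left h2 (by positivity)
  have hSV : ∀ K, ∀ᵐ x ∂μ, J (∑ k ∈ Finset.range K, c k • G k) x ≤
      (∑ k ∈ Finset.range K, c k * (2 * d k)) * V x := by
    intro K
    induction K with
    | zero =>
      simp only [Finset.range_zero, Finset.sum_empty, map_zero, zero_mul]
      filter_upwards [Lp.coeFn_zero ℝ 2 μ] with x hx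
      rw [hx]
      simp
    | succ K ih =>
      simp only [Finset.sum_range_succ]
      filter_upwards [ih, hJadd (∑ k ∈ Finset.range K, c k • G k) (c K • G K), hJsmul (c K) (G K),
        hGV K] with x a1 a2 a3 a4
      rw [a2, a3]
      have := mul_le_mul_of_nonneg_left a4 (hc0 K)
      linarith
  have hpt : ∀ K : ℕ, ∀ x, 0 ≤ V x → V x ≤ M →
      P x ≤ ∑ k ∈ Finset.range K, c k * f k x + (M / 2 ^ K) ^ θ * V x := by
    intro K x h0 h1
    have hfn : ∀ k, 0 ≤ f k x := by
      intro k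
      simp only [hf]
      split_ifs
      · exact h0
      · exact le_rfl
    have hPV : ∀ y : ℝ, V x ≤ y → P x ≤ y ^ θ * V x := by
      intro y hy
      rcases h0.eq_or_lt with h | h
      · simp only [hP]
        rw [← h, Real.zero_rpow (by linarith), mul_zero]
      · simp only [hP]
        rw [add_comm, Real.rpow_add h, Real.rpow_one]
        exact mul_le_mul_of_nonneg_right (Real.rpow_le_rpow h0 hy hθ.le) h0
    induction K with
    | zero =>
      simp only [Finset.range_zero, Finset.sum_empty, pow_zero, div_one, zero_add]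
      exact hPV M h1
    | succ K ih =>
      by_cases hx : V x ≤ M / 2 ^ (K + 1)
      · have : 0 ≤ ∑ k ∈ Finset.range (K + 1), c k * f k x :=
          Finset.sum_nonneg (fun k _ => mul_nonneg (hc0 k) (hfn k))
        have h2 := hPV _ hx
        linarith
      · push Not at hx
        have hpos : 0 < V x := lt_of_le_of_lt (by positivity) hx
        have hpos2 : 0 ≤ (M / 2 ^ (K + 1)) ^ θ * V x := by positivity
        -- find k
        have hex : ∃ k, k < K + 1 ∧ M / 2 ^ (k + 1) < V x ∧ V x ≤ M / 2 ^ k := by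
          have hE : ∃ k, M / 2 ^ (k + 1) < V x := ⟨K, hx⟩
          refine ⟨Nat.find hE, ?_, Nat.find_spec hE, ?_⟩
          · have := Nat.find_le (h := hE) hx
            omega
          · rcases Nat.eq_zero_or_pos (Nat.find hE) with h | h
            · rw [h]; simpa using h1
            · have := Nat.find_min hE (m := Nat.find hE - 1) (by omega)
              rw [Nat.sub_add_cancel h] at this
              exact not_lt.1 this
        obtain ⟨k, hk, hk1, hk2⟩ := hex
        have h2 : c k * f k x ≤ ∑ k ∈ Finset.range (K + 1), c k * f k x :=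
          Finset.single_le_sum (f := fun k => c k * f k x)
            (fun k _ => mul_nonneg (hc0 k) (hfn k)) (Finset.mem_range.2 hk)
        have h3 : P x ≤ c k * f k x := by
          simp only [hf]
          rw [if_pos ⟨hk1, hk2⟩]
          exact hPV _ hk2
        linarith
  have hmain : ∀ K : ℕ, ∀ᵐ x ∂μ, J g x ≤ Q * V x + (M / 2 ^ K) ^ θ * J t x := by
    intro K
    set ε : ℝ := (M / 2 ^ K) ^ θ with hε
    have hε0 : 0 ≤ ε := Real.rpow_nonneg (by positivity) _
    set S : H := ∑ k ∈ Finset.range K, c k • G k with hS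
    have h1 := star_comp hD (g - (S + ε • t)) (by
      intro w hw _
      have e1 : ⟪S, w⟫_ℝ = ∫ x, (∑ k ∈ Finset.range K, c k * f k x) * J w x ∂μ := by
        rw [hS, sum_inner]
        have : ∀ k, ⟪c k • G k, w⟫_ℝ = ∫ x, c k * f k x * J w x ∂μ := by
          intro k
          rw [inner_smul_left, hG]
          simp only [conj_trivial]
          rw [← integral_const_mul]
          simp only [mul_assoc]
        simp only [this, Finset.sum_mul]
        rw [integral_finsetSum]
        intro k _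
        have := (int_FJ (hfL k) J w).const_mul (c k)
        simpa only [mul_assoc] using this
      have i1 : Integrable (fun x => P x * J w x) μ := int_FJ hPL J w
      have i2 : Integrable (fun x => (∑ k ∈ Finset.range K, c k * f k x) * J w x) μ := by
        simp only [Finset.sum_mul]
        apply integrable_finsetSum
        intro k _
        have := (int_FJ (hfL k) J w).const_mul (c k)
        simpa only [mul_assoc] using this
      have i3 : Integrable (fun x => ε * (V x * J w x)) μ := (int_FJ hVL J w).const_mul _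
      rw [inner_sub_left, inner_add_left, inner_smul_left, hg, e1, ht]
      simp only [conj_trivial]
      have i23 : Integrable (fun x => (∑ k ∈ Finset.range K, c k * f k x) * J w x
          + ε * (V x * J w x)) μ := i2.add i3
      rw [← integral_const_mul, ← integral_add i2 i3, ← integral_sub i1 i23]
      apply integral_nonpos_of_ae
      filter_upwards [hw, hv0, hM] with x hx h0 hMx
      have hx' : 0 ≤ J w x := hx
      have := hpt K x h0 hMx
      show P x * J w x - ((∑ k ∈ Finset.range K, c k * f k x) * J w x + ε * (V x * J w x)) ≤ 0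
      nlinarith)
    filter_upwards [h1, hJsub g (S + ε • t), hJadd S (ε • t), hJsmul ε t, hSV K, hv0]
      with x a1 a2 a3 a4 a6 a7
    rw [a2, a3, a4] at a1
    have a7' : 0 ≤ V x := a7
    have b2 : (∑ k ∈ Finset.range K, c k * (2 * d k)) * V x ≤ Q * V x :=
      mul_le_mul_of_nonneg_right (hcsum K) a7'
    linarith
  refine ⟨Q, g, ?_, hg, hg0, ?_⟩
  · have : 0 < 1 - ρ := by linarith
    positivity
  · filter_upwards [ae_all_iff.2 hmain] with x hx
    have hlim : Tendsto (fun K : ℕ => Q * V x + (M / 2 ^ K) ^ θ * J t x) atTop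
        (𝓝 (Q * V x + 0 * J t x)) := by
      apply Tendsto.add tendsto_const_nhds
      apply Tendsto.mul_const
      have h1 : Tendsto (fun K : ℕ => M / 2 ^ K) atTop (𝓝 0) := by
        have := (tendsto_pow_atTop_nhds_zero_of_lt_one (r := (1/2:ℝ)) (by norm_num)
          (by norm_num)).const_mul M
        rw [mul_zero] at this
        refine this.congr (fun K => ?_)
        rw [one_div, inv_pow, div_eq_mul_inv]
      have h2 := h1.rpow_const (p := θ) (Or.inr hθ.le)
      rwa [Real.zero_rpow hθ.ne'] at h2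
    have := ge_of_tendsto' hlim hx
    linarith

end Pool.Agent.H456R3.Q.W2
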