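import Pool.Agent.H456R3.Q.W1
import Pool.Agent.H456R3.Q.W2
set_option autoImplicit false
set_option linter.unusedSectionVars false
set_option linter.unusedVariables false
open MeasureTheory Filter Topology Set
open scoped ENNReal NNReal InnerProductSpace
open Pool.Agent.Helper420.QI (Dir)
open Pool.Agent.H456R3.Q.W1 Pool.Agent.H456R3.Q.W2

namespace Pool.Agent.H456R3.Q.W3

variable {α : Type*} [MeasurableSpace α] {μ : Measure α}
  {H : Type*} [NormedAddCommGroup H] [InnerProductSpace ℝ H] [CompleteSpace H]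
  {J : H →L[ℝ] Lp ℝ 2 μ} {q r : ℝ}

namespace NearAux

theorem sc_pow {s a b : ℝ} (hs : 1 ≤ s) (hb : 0 ≤ b) (hab : b ≤ a) :
    a ^ s - b ^ s ≤ s * a ^ (s - 1) * (a - b) := by
  rcases eq_or_lt_of_le (hb.trans hab) with h0 | ha
  · have hb0 : b = 0 := le_antisymm (h0 ▸ hab) hb
    subst hb0
    rw [← h0]
    simp
  · have h1 : (1 : ℝ) + s * (b / a - 1) ≤ (1 + (b / a - 1)) ^ s := by
      apply one_add_mul_self_le_rpow_one_add _ hs
      have : 0 ≤ b / a := by positivity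
      linarith
    have h2 : (1 + (b / a - 1)) ^ s = b ^ s / a ^ s := by
      rw [show (1 + (b / a - 1)) = b / a by ring, Real.div_rpow hb ha.le]
    rw [h2, le_div_iff₀ (Real.rpow_pos_of_pos ha s)] at h1
    have h3 : a ^ s = a ^ (s - 1) * a := by
      rw [← Real.rpow_add_one ha.ne']; congr 1; ring
    have h4 : (1 + s * (b / a - 1)) * a ^ s = a ^ s + s * a ^ (s - 1) * (b - a) := by
      rw [h3]; field_simp
    rw [h4] at h1
    nlinarith [h1]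

theorem abs_rpow_mul_self {q a : ℝ} (hq : 2 < q) (ha : 0 ≤ a) : |a| ^ (q - 2) * a = a ^ (q - 1) := by
  rw [abs_of_nonneg ha]
  rcases eq_or_lt_of_le ha with h0 | h0
  · rw [← h0, Real.zero_rpow (by linarith), Real.zero_rpow (by linarith)]; ring
  · rw [← Real.rpow_add_one h0.ne']; congr 1; ring

theorem sc_f {q a b m : ℝ} (hq : 2 < q) (hab : b ≤ a) (ha : |a| ≤ m) (hb : |b| ≤ m) :
    |a| ^ (q - 2) * a - |b| ^ (q - 2) * b ≤ (q - 1) * m ^ (q - 2) * (a - b) := by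
  have hm : 0 ≤ m := (abs_nonneg a).trans ha
  have hmq : 0 ≤ m ^ (q - 2) := Real.rpow_nonneg hm _
  have ham : |a| ^ (q - 2) ≤ m ^ (q - 2) := Real.rpow_le_rpow (abs_nonneg _) ha (by linarith)
  have hbm : |b| ^ (q - 2) ≤ m ^ (q - 2) := Real.rpow_le_rpow (abs_nonneg _) hb (by linarith)
  rcases le_total 0 b with hb0 | hb0
  · have ha0 := hb0.trans hab
    rw [abs_rpow_mul_self hq hb0, abs_rpow_mul_self hq ha0]
    refine (sc_pow (s := q - 1) (by linarith) hb0 hab).trans ?_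
    rw [show q - 1 - 1 = q - 2 by ring]
    rw [abs_of_nonneg ha0] at ham
    have : (q - 1) * a ^ (q - 2) ≤ (q - 1) * m ^ (q - 2) :=
      mul_le_mul_of_nonneg_left ham (by linarith)
    exact mul_le_mul_of_nonneg_right this (by linarith)
  · rcases le_total 0 a with ha0 | ha0
    · have h1 : |a| ^ (q - 2) * a ≤ m ^ (q - 2) * a := mul_le_mul_of_nonneg_right ham ha0
      have h2 : m ^ (q - 2) * b ≤ |b| ^ (q - 2) * b := mul_le_mul_of_nonpos_right hbm hb0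
      have h3 : m ^ (q - 2) * (a - b) ≤ (q - 1) * m ^ (q - 2) * (a - b) := by
        rw [mul_assoc]
        have : 0 ≤ m ^ (q - 2) * (a - b) := mul_nonneg hmq (by linarith)
        nlinarith
      linarith
    · have h1 := sc_pow (s := q - 1) (by linarith) (neg_nonneg.2 ha0) (neg_le_neg hab)
      rw [show q - 1 - 1 = q - 2 by ring] at h1
      have h2 : |b| ^ (q - 2) * b = - ((-b) ^ (q - 1)) := by
        have := abs_rpow_mul_self hq (neg_nonneg.2 hb0)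
        rw [abs_neg] at this
        linarith
      have h3 : |a| ^ (q - 2) * a = - ((-a) ^ (q - 1)) := by
        have := abs_rpow_mul_self hq (neg_nonneg.2 ha0)
        rw [abs_neg] at this
        linarith
      rw [h2, h3]
      rw [abs_of_nonpos hb0] at hbm
      have : (q - 1) * (-b) ^ (q - 2) ≤ (q - 1) * m ^ (q - 2) :=
        mul_le_mul_of_nonneg_left hbm (by linarith)
      have h4 := mul_le_mul_of_nonneg_right this (by linarith : 0 ≤ a - b)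
      have h5 : (-b - -a) = a - b := by ring
      rw [h5] at h1
      linarith

theorem sc5 {q δ C a b c : ℝ} (hq : 2 < q) (hδ : 0 < δ) (hC : 0 ≤ C)
    (hsm : (2 + C) ^ (q - 1) * δ ^ ((q - 2) / 2) ≤ 1)
    (hb : 0 ≤ b) (hc : 0 ≤ c) (hcC : c ≤ C * b) (ha : a ≤ b + δ) :
    (|a| ^ (q - 2) * a - b ^ (1 + (q - 2) / 2)) * max (a - 2 * b - c) 0 ≤
      (q - 1) * (2 * δ) ^ (q - 2) * (max (a - 2 * b - c) 0) ^ 2 := by
  rcases le_or_gt (a - 2 * b - c) 0 with h0 | h0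
  · rw [max_eq_right h0]; simp
  · rw [max_eq_left h0.le]
    have hbδ : b < δ := by linarith
    have ha2 : a ≤ 2 * δ := by linarith
    have ha0 : 0 ≤ a := by linarith
    have hS0 : 0 ≤ 2 * b + c := by linarith
    rw [abs_rpow_mul_self hq ha0]
    have h1 := sc_pow (s := q - 1) (by linarith) hS0 (by linarith : 2 * b + c ≤ a)
    rw [show q - 1 - 1 = q - 2 by ring] at h1
    have h2 : a ^ (q - 2) ≤ (2 * δ) ^ (q - 2) := Real.rpow_le_rpow ha0 ha2 (by linarith)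
    have h3 : (q - 1) * a ^ (q - 2) * (a - (2 * b + c)) ≤
        (q - 1) * (2 * δ) ^ (q - 2) * (a - (2 * b + c)) :=
      mul_le_mul_of_nonneg_right (mul_le_mul_of_nonneg_left h2 (by linarith)) (by linarith)
    have h4 : (2 * b + c) ^ (q - 1) ≤ ((2 + C) * b) ^ (q - 1) :=
      Real.rpow_le_rpow hS0 (by linarith) (by linarith)
    have h5 : ((2 + C) * b) ^ (q - 1) ≤ b ^ (1 + (q - 2) / 2) := by
      rw [Real.mul_rpow (by linarith) hb]
      have e1 : b ^ (q - 1) = b ^ ((q - 2) / 2) * b ^ (1 + (q - 2) / 2) := by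
        rw [← Real.rpow_add_of_nonneg hb (by linarith) (by linarith)]; congr 1; ring
      rw [e1, ← mul_assoc]
      have h6 : b ^ ((q - 2) / 2) ≤ δ ^ ((q - 2) / 2) := Real.rpow_le_rpow hb hbδ.le (by linarith)
      have h7 : (2 + C) ^ (q - 1) * b ^ ((q - 2) / 2) ≤ 1 :=
        (mul_le_mul_of_nonneg_left h6 (Real.rpow_nonneg (by linarith) _)).trans hsm
      have h8 : 0 ≤ b ^ (1 + (q - 2) / 2) := Real.rpow_nonneg hb _
      nlinarith
    have h6 : a ^ (q - 1) - b ^ (1 + (q - 2) / 2) ≤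
        (q - 1) * (2 * δ) ^ (q - 2) * (a - 2 * b - c) := by
      have : a - 2 * b - c = a - (2 * b + c) := by ring
      rw [this]
      linarith
    calc _ ≤ ((q - 1) * (2 * δ) ^ (q - 2) * (a - 2 * b - c)) * (a - 2 * b - c) :=
          mul_le_mul_of_nonneg_right h6 h0.le
      _ = _ := by ring

theorem sc6 {q δ C e a b c : ℝ} (hq : 2 < q) (hδ : 0 < δ) (hC : 0 ≤ C) (he : 0 < e)
    (hsm : (q - 1) * (2 + C) ^ (q - 2) * (1 + C) * δ ^ ((q - 2) / 2) ≤ 1)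
    (hc : 0 ≤ c) (hcC : c ≤ C * |b|) (hab : |a - b| ≤ e * δ) (ha : |a| ≤ (2 + C) * |b|) :
    (|a| ^ (q - 2) * a - |b| ^ (q - 2) * b - e * |b| ^ (1 + (q - 2) / 2)) *
        max (a - b - e * (|b| + c)) 0 ≤
      (q - 1) * ((2 + C) * δ) ^ (q - 2) * (max (a - b - e * (|b| + c)) 0) ^ 2 := by
  rcases le_or_gt (a - b - e * (|b| + c)) 0 with h0 | h0
  · rw [max_eq_right h0]; simp
  · rw [max_eq_left h0.le]
    have hb0 := abs_nonneg b
    have hbδ : |b| < δ := by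
      have h1 : e * |b| ≤ e * (|b| + c) := mul_le_mul_of_nonneg_left (by linarith) he.le
      have h2 : e * |b| < e * δ := by
        have := le_abs_self (a - b)
        linarith
      exact lt_of_mul_lt_mul_left h2 he.le
    have hba : b ≤ a := by
      have : 0 ≤ e * (|b| + c) := by positivity
      linarith
    have h1 := sc_f (m := (2 + C) * |b|) hq hba ha (by nlinarith)
    set W := a - b - e * (|b| + c) with hW
    have h2 : a - b ≤ W + e * (1 + C) * |b| := by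
      have : e * (|b| + c) ≤ e * ((1 + C) * |b|) := mul_le_mul_of_nonneg_left (by linarith) he.le
      rw [hW]; linarith
    have hm : 0 ≤ ((2 + C) * |b|) ^ (q - 2) := Real.rpow_nonneg (by positivity) _
    have h3 : (q - 1) * ((2 + C) * |b|) ^ (q - 2) * (a - b) ≤
        (q - 1) * ((2 + C) * |b|) ^ (q - 2) * (W + e * (1 + C) * |b|) :=
      mul_le_mul_of_nonneg_left h2 (mul_nonneg (by linarith) hm)
    have h4 : (q - 1) * ((2 + C) * |b|) ^ (q - 2) * W ≤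
        (q - 1) * ((2 + C) * δ) ^ (q - 2) * W := by
      refine mul_le_mul_of_nonneg_right (mul_le_mul_of_nonneg_left ?_ (by linarith)) h0.le
      exact Real.rpow_le_rpow (by positivity)
        (mul_le_mul_of_nonneg_left hbδ.le (by linarith)) (by linarith)
    have h5 : (q - 1) * ((2 + C) * |b|) ^ (q - 2) * (e * (1 + C) * |b|) ≤
        e * |b| ^ (1 + (q - 2) / 2) := by
      rw [Real.mul_rpow (by linarith) hb0]
      have e1 : |b| ^ (q - 2) * |b| = |b| ^ ((q - 2) / 2) * |b| ^ (1 + (q - 2) / 2) := by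
        rw [← Real.rpow_add_of_nonneg hb0 (by linarith) (by linarith)]
        have := abs_rpow_mul_self hq hb0
        rw [abs_abs] at this
        rw [this]
        congr 1; ring
      have h6 : |b| ^ ((q - 2) / 2) ≤ δ ^ ((q - 2) / 2) :=
        Real.rpow_le_rpow hb0 hbδ.le (by linarith)
      have h7 : (q - 1) * (2 + C) ^ (q - 2) * (1 + C) * |b| ^ ((q - 2) / 2) ≤ 1 := by
        refine (mul_le_mul_of_nonneg_left h6 ?_).trans hsm
        have : 0 ≤ (2 + C) ^ (q - 2) := Real.rpow_nonneg (by linarith) _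
        have h9 : 0 ≤ q - 1 := by linarith
        positivity
      have h8 : 0 ≤ |b| ^ (1 + (q - 2) / 2) := Real.rpow_nonneg hb0 _
      calc _ = e * (((q - 1) * (2 + C) ^ (q - 2) * (1 + C)) * (|b| ^ (q - 2) * |b|)) := by ring
        _ = e * (((q - 1) * (2 + C) ^ (q - 2) * (1 + C) * |b| ^ ((q - 2) / 2)) *
              |b| ^ (1 + (q - 2) / 2)) := by rw [e1]; ring
        _ ≤ e * (1 * |b| ^ (1 + (q - 2) / 2)) := by
            refine mul_le_mul_of_nonneg_left ?_ he.le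
            exact mul_le_mul_of_nonneg_right h7 h8
        _ = _ := by ring
    have h6 : |a| ^ (q - 2) * a - |b| ^ (q - 2) * b - e * |b| ^ (1 + (q - 2) / 2) ≤
        (q - 1) * ((2 + C) * δ) ^ (q - 2) * W := by linarith
    calc _ ≤ ((q - 1) * ((2 + C) * δ) ^ (q - 2) * W) * W := mul_le_mul_of_nonneg_right h6 h0.le
      _ = _ := by ring

theorem sc_young {q a b : ℝ} (hq : 2 < q) : |(|a| ^ (q - 2) * a * b)| ≤ |a| ^ q + |b| ^ q := by
  have ha := abs_nonneg a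
  have hb := abs_nonneg b
  have key : ∀ t : ℝ, 0 ≤ t → t ^ (q - 2) * t * t = t ^ q := by
    intro t ht
    rcases eq_or_lt_of_le ht with h0 | h0
    · rw [← h0, Real.zero_rpow (by linarith : q ≠ 0)]; ring
    · rw [← Real.rpow_add_one h0.ne', ← Real.rpow_add_one h0.ne']; congr 1; ring
  rw [abs_mul, abs_mul, abs_of_nonneg (Real.rpow_nonneg ha _)]
  have h1 : 0 ≤ |a| ^ q := Real.rpow_nonneg ha _
  have h2 : 0 ≤ |b| ^ q := Real.rpow_nonneg hb _
  rcases le_total |a| |b| with h | h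
  · have h3 : |a| ^ (q - 2) ≤ |b| ^ (q - 2) := Real.rpow_le_rpow ha h (by linarith)
    have h4 : |a| ^ (q - 2) * |a| * |b| ≤ |b| ^ (q - 2) * |b| * |b| := by gcongr
    rw [key _ hb] at h4
    linarith
  · have h4 : |a| ^ (q - 2) * |a| * |b| ≤ |a| ^ (q - 2) * |a| * |a| := by gcongr
    rw [key _ ha] at h4
    linarith

theorem sc_growth {q a b B : ℝ} (hq : 2 < q) (hB : |b| ≤ B) :
    |(|a| ^ (q - 2) * a - |b| ^ (q - 2) * b)| ≤
      (2 ^ (q - 1) + (2 ^ (q - 1) + 1) * B ^ (q - 1)) * (1 + |a - b| ^ (q - 1)) := by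
  have key : ∀ t : ℝ, |(|t| ^ (q - 2) * t)| = |t| ^ (q - 1) := by
    intro t
    rw [abs_mul, abs_of_nonneg (Real.rpow_nonneg (abs_nonneg t) _)]
    have := abs_rpow_mul_self hq (abs_nonneg t)
    rwa [abs_abs] at this
  have hb0 := abs_nonneg b
  have hB0 : 0 ≤ B := hb0.trans hB
  have h1 : |(|a| ^ (q - 2) * a - |b| ^ (q - 2) * b)| ≤ |a| ^ (q - 1) + |b| ^ (q - 1) := by
    refine (abs_sub _ _).trans ?_
    rw [key, key]
  have h2 : |b| ^ (q - 1) ≤ B ^ (q - 1) := Real.rpow_le_rpow hb0 hB (by linarith)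
  have h3 : |a| ^ (q - 1) ≤ 2 ^ (q - 1) * (|a - b| ^ (q - 1) + B ^ (q - 1)) := by
    have h4 : |a| ≤ 2 * max |a - b| B := by
      have h5 : |a| ≤ |a - b| + |b| := by
        have := abs_add_le (a - b) b
        simpa using this
      have h6 := le_max_left |a - b| B
      have h7 := le_max_right |a - b| B
      linarith
    have h5 : |a| ^ (q - 1) ≤ (2 * max |a - b| B) ^ (q - 1) :=
      Real.rpow_le_rpow (abs_nonneg _) h4 (by linarith)
    rw [Real.mul_rpow (by norm_num) (le_max_of_le_right hB0)] at h5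
    refine h5.trans (mul_le_mul_of_nonneg_left ?_ (by positivity))
    have h8 : 0 ≤ |a - b| ^ (q - 1) := Real.rpow_nonneg (abs_nonneg _) _
    have h9 : 0 ≤ B ^ (q - 1) := Real.rpow_nonneg hB0 _
    rcases max_choice |a - b| B with h | h <;> rw [h] <;> linarith
  have h8 : 0 ≤ |a - b| ^ (q - 1) := Real.rpow_nonneg (abs_nonneg _) _
  have h9 : 0 ≤ B ^ (q - 1) := Real.rpow_nonneg hB0 _
  have h10 : (0:ℝ) ≤ 2 ^ (q - 1) := by positivity
  nlinarith [mul_nonneg h10 h8, mul_nonneg h10 h9, mul_nonneg h8 h9, mul_nonneg (mul_nonneg h10 h9) h8]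

theorem jsub (u v : H) : J (u - v) =ᵐ[μ] fun x => J u x - J v x := by
  rw [map_sub]; exact Lp.coeFn_sub _ _

theorem jadd (u v : H) : J (u + v) =ᵐ[μ] fun x => J u x + J v x := by
  rw [map_add]; exact Lp.coeFn_add _ _

theorem jneg (u : H) : J (-u) =ᵐ[μ] fun x => - J u x := by
  rw [map_neg]; exact Lp.coeFn_neg _

theorem jsmul (c : ℝ) (u : H) : J (c • u) =ᵐ[μ] fun x => c * J u x := by
  rw [map_smul]; exact Lp.coeFn_smul _ _

theorem norm_J_sq (w : H) : ‖J w‖ ^ 2 = ∫ x, (J w x) ^ 2 ∂μ := by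
  rw [← real_inner_self_eq_norm_sq, L2.inner_def]
  refine integral_congr_ae (Eventually.of_forall fun x => ?_)
  simp [pow_two]

theorem jmeas (u : H) : Measurable (fun x => J u x) := (Lp.stronglyMeasurable (J u)).measurable

theorem compar (hD : Dir μ J q r) (z : H) (κ : ℝ) (hκ : κ * ‖J‖ ^ 2 < 1)
    (h : ∀ w : H, (J w =ᵐ[μ] fun x => max (J z x) 0) →
      ⟪z, w⟫_ℝ ≤ κ * ∫ x, (J w x) ^ 2 ∂μ) :
    ∀ᵐ x ∂μ, J z x ≤ 0 := by
  obtain ⟨w, hw, hw2⟩ := hD.cut z 0 le_rfl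
  have hw' : J w =ᵐ[μ] fun x => max (J z x) 0 := by
    filter_upwards [hw] with x hx
    rw [hx, sub_zero]
  have h1 := h w hw'
  rw [← norm_J_sq] at h1
  have h2 : ‖J w‖ ≤ ‖J‖ * ‖w‖ := J.le_opNorm w
  have hw0 : w = 0 := by
    by_contra hne
    have hpos : 0 < ‖w‖ ^ 2 := by positivity
    have h3 : ‖J w‖ ^ 2 ≤ ‖J‖ ^ 2 * ‖w‖ ^ 2 := by
      rw [← mul_pow]; exact pow_le_pow_left₀ (norm_nonneg _) h2 2
    rcases le_total 0 κ with hk | hk
    · have : κ * ‖J w‖ ^ 2 ≤ κ * (‖J‖ ^ 2 * ‖w‖ ^ 2) := mul_le_mul_of_nonneg_left h3 hk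
      nlinarith
    · have : κ * ‖J w‖ ^ 2 ≤ 0 := mul_nonpos_of_nonpos_of_nonneg hk (by positivity)
      linarith
  rw [hw0, map_zero] at hw'
  filter_upwards [hw', Lp.coeFn_zero ℝ 2 μ] with x hx hx2
  rw [hx2] at hx
  exact (max_eq_right_iff.1 hx.symm)

theorem int_q (hD : Dir μ J q r) (u : H) : Integrable (fun x => |J u x| ^ q) μ := by
  obtain ⟨C, hC, hsob⟩ := hD.sob
  have hq0 : 0 < q := by linarith [hD.two_lt]
  have h1 : MemLp (J u) (ENNReal.ofReal r) μ :=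
    ⟨Lp.aestronglyMeasurable _, (hsob u).trans_lt ENNReal.ofReal_lt_top⟩
  have h2 : MemLp (J u) (ENNReal.ofReal q) μ :=
    memLp_q hD.two_lt hD.q_lt (Lp.memLp (J u)) h1
  have h3 := h2.integrable_norm_rpow (by simpa using hq0) ENNReal.ofReal_ne_top
  rw [ENNReal.toReal_ofReal hq0.le] at h3
  simpa using h3

theorem int_f (hD : Dir μ J q r) (u φ : H) :
    Integrable (fun x => |J u x| ^ (q - 2) * J u x * J φ x) μ := by
  refine ((int_q hD u).add (int_q hD φ)).mono' ?_ (Eventually.of_forall fun x => ?_)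
  · exact (((((jmeas u).abs.pow_const _)).mul (jmeas u)).mul (jmeas φ)).aestronglyMeasurable
  · rw [Real.norm_eq_abs]
    exact sc_young hD.two_lt

theorem int_g (hD : Dir μ J q r) {w φ : H} (hi : Integrable (fun x => J φ x) μ) :
    Integrable (fun x => (1 + |J w x| ^ (q - 1)) * J φ x) μ := by
  have h := hi.abs.add ((int_q hD w).add (int_q hD φ))
  refine h.mono' ?_ (Eventually.of_forall fun x => ?_)
  · exact (((measurable_const.add ((jmeas w).abs.pow_const _))).mul (jmeas φ)).aestronglyMeasurable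
  · have h1 := sc_young (a := |J w x|) (b := J φ x) hD.two_lt
    rw [abs_rpow_mul_self hD.two_lt (abs_nonneg _), abs_abs, abs_mul,
      abs_of_nonneg (Real.rpow_nonneg (abs_nonneg _) _)] at h1
    rw [Real.norm_eq_abs, abs_mul, abs_of_nonneg (by
      have := Real.rpow_nonneg (abs_nonneg (J w x)) (q - 1); linarith)]
    simp only [Pi.add_apply]
    linarith

theorem memP {v : H} {B θ : ℝ} (hθ : 0 < θ) (h0 : 0 ≤ᵐ[μ] J v) (hB : ∀ᵐ x ∂μ, J v x ≤ B) :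
    MemLp (fun x => (J v x) ^ (1 + θ)) 2 μ := by
  refine (Lp.memLp (J v)).of_le_mul (c := B ^ θ)
    ((jmeas v).pow_const _).aestronglyMeasurable ?_
  filter_upwards [h0, hB] with x h0 h1
  have h0' : 0 ≤ J v x := h0
  rw [Real.norm_of_nonneg (Real.rpow_nonneg h0' _), Real.norm_of_nonneg h0']
  rcases h0'.eq_or_lt with h | h
  · rw [← h, Real.zero_rpow (by linarith), mul_zero]
  · rw [add_comm, Real.rpow_add h, Real.rpow_one]
    exact mul_le_mul_of_nonneg_right (Real.rpow_le_rpow h0' h1 hθ.le) h0'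

theorem cutpos {w φ : H} {k : ℝ} (hφ : J φ =ᵐ[μ] fun x => max (J w x - k) 0) :
    0 ≤ᵐ[μ] J φ := by
  filter_upwards [hφ] with x hx
  rw [hx]; exact le_max_right _ _

theorem int_sq (w : H) : Integrable (fun x => (J w x) ^ 2) μ := 
  (Lp.memLp (J w)).integrable_sq

theorem sol_upper (hD : Dir μ J q r) (u : H)
    (hu : ∀ φ : H, ⟪u, φ⟫_ℝ = ∫ x, |J u x| ^ (q - 2) * J u x * J φ x ∂μ) :
    ∃ B : ℝ, ∀ᵐ x ∂μ, J u x ≤ B := by
  refine stamp_bdd hD (M := 1) u fun k hk φ hφk => ?_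
  have hφ := cutpos hφk
  rw [hu, one_mul]
  refine integral_mono_ae (int_f hD u φ) (int_g hD (cut_int hk hφk)) ?_
  filter_upwards [hφ] with x hx
  refine mul_le_mul_of_nonneg_right ?_ hx
  have h1 := abs_rpow_mul_self hD.two_lt (abs_nonneg (J u x))
  rw [abs_abs] at h1
  rw [← h1]
  have h2 := mul_le_mul_of_nonneg_left (le_abs_self (J u x))
    (Real.rpow_nonneg (abs_nonneg (J u x)) (q - 2))
  linarith

theorem sol_neg (u : H)
    (hu : ∀ φ : H, ⟪u, φ⟫_ℝ = ∫ x, |J u x| ^ (q - 2) * J u x * J φ x ∂μ) :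
    ∀ φ : H, ⟪-u, φ⟫_ℝ = ∫ x, |J (-u) x| ^ (q - 2) * J (-u) x * J φ x ∂μ := by
  intro φ
  rw [inner_neg_left, hu, ← integral_neg]
  refine integral_congr_ae ?_
  filter_upwards [jneg (μ := μ) (J := J) u] with x hx
  rw [hx, abs_neg]; ring

theorem sol_bdd (hD : Dir μ J q r) (u : H)
    (hu : ∀ φ : H, ⟪u, φ⟫_ℝ = ∫ x, |J u x| ^ (q - 2) * J u x * J φ x ∂μ) :
    ∃ B : ℝ, ∀ᵐ x ∂μ, |J u x| ≤ B := by
  obtain ⟨B1, h1⟩ := sol_upper hD u hu
  obtain ⟨B2, h2⟩ := sol_upper hD (-u) (sol_neg u hu)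
  refine ⟨max B1 B2, ?_⟩
  filter_upwards [h1, h2, jneg (μ := μ) (J := J) u] with x hx1 hx2 hx3
  rw [hx3] at hx2
  exact abs_le.2 ⟨by linarith [le_max_right B1 B2], hx1.trans (le_max_left _ _)⟩

theorem close1 (hD : Dir μ J q r) {u u0 : H} {B : ℝ}
    (hu0 : ∀ φ : H, ⟪u0, φ⟫_ℝ = ∫ x, |J u0 x| ^ (q - 2) * J u0 x * J φ x ∂μ)
    (hu : ∀ φ : H, ⟪u, φ⟫_ℝ = ∫ x, |J u x| ^ (q - 2) * J u x * J φ x ∂μ)
    (hB : ∀ᵐ x ∂μ, |J u0 x| ≤ B) :
    SubS J q (2 ^ (q - 1) + (2 ^ (q - 1) + 1) * B ^ (q - 1)) (u - u0) := by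
  intro k hk φ hφk
  have hφ := cutpos hφk
  rw [inner_sub_left, hu, hu0, ← integral_sub (int_f hD u φ) (int_f hD u0 φ),
    ← integral_const_mul]
  refine integral_mono_ae ((int_f hD u φ).sub (int_f hD u0 φ))
    ((int_g hD (cut_int hk hφk)).const_mul _) ?_
  filter_upwards [hφ, hB, jsub (μ := μ) (J := J) u u0] with x hx hx2 hx3
  have h1 := sc_growth (a := J u x) hD.two_lt hx2
  rw [hx3]
  have h2 := mul_le_mul_of_nonneg_right ((le_abs_self _).trans h1) hx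
  calc _ = (|J u x| ^ (q - 2) * J u x - |J u0 x| ^ (q - 2) * J u0 x) * J φ x := by ring
    _ ≤ _ := h2
    _ = _ := by ring

theorem close (hD : Dir μ J q r) (u0 : H)
    (hu0 : ∀ φ : H, ⟪u0, φ⟫_ℝ = ∫ x, |J u0 x| ^ (q - 2) * J u0 x * J φ x ∂μ)
    (u : ℕ → H)
    (hu : ∀ n, ∀ φ : H, ⟪u n, φ⟫_ℝ = ∫ x, |J (u n) x| ^ (q - 2) * J (u n) x * J φ x ∂μ)
    (hlim : Tendsto u atTop (𝓝 u0)) {e : ℝ} (he : 0 < e) :
    ∀ᶠ n in atTop, ∀ᵐ x ∂μ, |J (u n) x - J u0 x| ≤ e := by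
  obtain ⟨B, hB⟩ := sol_bdd hD u0 hu0
  obtain ⟨η, hη, hst⟩ := stamp_small hD (2 ^ (q - 1) + (2 ^ (q - 1) + 1) * B ^ (q - 1)) 1 he
  have hB' : ∀ᵐ x ∂μ, |J (-u0) x| ≤ B := by
    filter_upwards [hB, jneg (μ := μ) (J := J) u0] with x hx hx2
    rwa [hx2, abs_neg]
  have hlim1 : ∀ᶠ n in atTop, ‖u n - u0‖ ≤ 1 := by
    have := (tendsto_iff_norm_sub_tendsto_zero.1 hlim).eventually (Iic_mem_nhds one_pos)
    exact this
  have hlim2 : ∀ᶠ n in atTop, ‖J (u n - u0)‖ ≤ η := by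
    have h1 : Tendsto (fun n => J (u n - u0)) atTop (𝓝 (J (u0 - u0))) :=
      (J.continuous.tendsto _).comp (hlim.sub_const u0)
    rw [sub_self, map_zero] at h1
    have := (h1.norm).eventually (Iic_mem_nhds (by simpa using hη))
    exact this
  filter_upwards [hlim1, hlim2] with n hn1 hn2
  have h1 := hst (u n - u0) hn1 hn2 (close1 hD hu0 (hu n) hB)
  have e2 : -u n - -u0 = -(u n - u0) := by abel
  have h2 := hst (-u n - -u0) (by rw [e2, norm_neg]; exact hn1)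
    (by rw [e2, map_neg, norm_neg]; exact hn2)
    (close1 hD (sol_neg u0 hu0) (sol_neg (u n) (hu n)) hB')
  rw [e2] at h2
  filter_upwards [h1, h2, jsub (μ := μ) (J := J) (u n) u0,
    jneg (μ := μ) (J := J) (u n - u0)] with x hx1 hx2 hx3 hx4
  rw [hx4, hx3] at hx2
  rw [hx3] at hx1
  exact abs_le.2 ⟨by linarith, hx1⟩

theorem upper (hD : Dir μ J q r) {u u0 v0 g : H} {B C δ : ℝ} (hC : 0 ≤ C) (hδ : 0 < δ)
    (hu : ∀ φ : H, ⟪u, φ⟫_ℝ = ∫ x, |J u x| ^ (q - 2) * J u x * J φ x ∂μ)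
    (hv0 : J v0 =ᵐ[μ] fun x => |J u0 x|)
    (hB : ∀ᵐ x ∂μ, |J u0 x| ≤ B)
    (hsup0 : ∀ φ : H, 0 ≤ᵐ[μ] J φ → 0 ≤ ⟪v0, φ⟫_ℝ)
    (hg : ∀ φ : H, ⟪g, φ⟫_ℝ = ∫ x, (J v0 x) ^ (1 + (q - 2) / 2) * J φ x ∂μ)
    (hg0 : 0 ≤ᵐ[μ] J g) (hgC : ∀ᵐ x ∂μ, J g x ≤ C * J v0 x)
    (hsm : (2 + C) ^ (q - 1) * δ ^ ((q - 2) / 2) ≤ 1)
    (hκ : (q - 1) * (2 * δ) ^ (q - 2) * ‖J‖ ^ 2 < 1)
    (hcl : ∀ᵐ x ∂μ, |J u x - J u0 x| ≤ δ) :
    ∀ᵐ x ∂μ, J u x ≤ 2 * |J u0 x| + J g x := by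
  have hq := hD.two_lt
  have hJz : J (u - (2:ℝ) • v0 - g) =ᵐ[μ] fun x => J u x - 2 * |J u0 x| - J g x := by
    filter_upwards [jsub (μ := μ) (J := J) (u - (2:ℝ) • v0) g,
      jsub (μ := μ) (J := J) u ((2:ℝ) • v0), jsmul (μ := μ) (J := J) 2 v0, hv0]
      with x h1 h2 h3 h4
    rw [h1, h2, h3, h4]
  have hmain := compar hD (u - (2:ℝ) • v0 - g) _ hκ (fun w hw => by
    have hw0 : 0 ≤ᵐ[μ] J w := by
      filter_upwards [hw] with x hx
      rw [hx]; exact le_max_right _ _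
    have hPL : MemLp (fun x => (J v0 x) ^ (1 + (q - 2) / 2)) 2 μ := by
      refine memP (B := B) (by linarith) ?_ ?_
      · filter_upwards [hv0] with x hx
        rw [hx]; exact abs_nonneg _
      · filter_upwards [hv0, hB] with x hx hx2
        rwa [hx]
    have hi1 := int_f hD u w
    have hi2 := int_FJ hPL J w
    rw [inner_sub_left, inner_sub_left, inner_smul_left, hu, hg]
    have h1 := hsup0 w hw0
    have h2 : ∫ x, |J u x| ^ (q - 2) * J u x * J w x ∂μ -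
        ∫ x, (J v0 x) ^ (1 + (q - 2) / 2) * J w x ∂μ ≤
        (q - 1) * (2 * δ) ^ (q - 2) * ∫ x, (J w x) ^ 2 ∂μ := by
      rw [← integral_sub hi1 hi2, ← integral_const_mul]
      refine integral_mono_ae (hi1.sub hi2) ((int_sq w).const_mul _) ?_
      filter_upwards [hw, hJz, hv0, hg0, hgC, hcl] with x hx1 hx2 hx3 hx4 hx5 hx6
      rw [hx1, hx2, hx3]
      rw [hx3] at hx5
      have ha : J u x ≤ |J u0 x| + δ := by
        have := (abs_le.1 hx6).2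
        linarith [le_abs_self (J u0 x)]
      have := sc5 hq hδ hC hsm (abs_nonneg (J u0 x)) hx4 hx5 ha
      calc _ = (|J u x| ^ (q - 2) * J u x - |J u0 x| ^ (1 + (q - 2) / 2)) *
            max (J u x - 2 * |J u0 x| - J g x) 0 := by ring
        _ ≤ _ := this
    simp only [conj_trivial]
    linarith)
  filter_upwards [hmain, hJz] with x hx1 hx2
  rw [hx2] at hx1
  linarith

theorem final (hD : Dir μ J q r) {u u0 v0 g : H} {B C δ e : ℝ} (hC : 0 ≤ C) (hδ : 0 < δ)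
    (he : 0 < e)
    (hu0 : ∀ φ : H, ⟪u0, φ⟫_ℝ = ∫ x, |J u0 x| ^ (q - 2) * J u0 x * J φ x ∂μ)
    (hu : ∀ φ : H, ⟪u, φ⟫_ℝ = ∫ x, |J u x| ^ (q - 2) * J u x * J φ x ∂μ)
    (hv0 : J v0 =ᵐ[μ] fun x => |J u0 x|)
    (hB : ∀ᵐ x ∂μ, |J u0 x| ≤ B)
    (hsup0 : ∀ φ : H, 0 ≤ᵐ[μ] J φ → 0 ≤ ⟪v0, φ⟫_ℝ)
    (hg : ∀ φ : H, ⟪g, φ⟫_ℝ = ∫ x, (J v0 x) ^ (1 + (q - 2) / 2) * J φ x ∂μ)
    (hg0 : 0 ≤ᵐ[μ] J g) (hgC : ∀ᵐ x ∂μ, J g x ≤ C * J v0 x)
    (hsm : (q - 1) * (2 + C) ^ (q - 2) * (1 + C) * δ ^ ((q - 2) / 2) ≤ 1)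
    (hκ : (q - 1) * ((2 + C) * δ) ^ (q - 2) * ‖J‖ ^ 2 < 1)
    (hcl : ∀ᵐ x ∂μ, |J u x - J u0 x| ≤ e * δ)
    (hS : ∀ᵐ x ∂μ, |J u x| ≤ (2 + C) * |J u0 x|) :
    ∀ᵐ x ∂μ, J u x - J u0 x ≤ e * (1 + C) * |J u0 x| := by
  have hq := hD.two_lt
  have hJz : J (u - u0 - e • (v0 + g)) =ᵐ[μ]
      fun x => J u x - J u0 x - e * (|J u0 x| + J g x) := by
    filter_upwards [jsub (μ := μ) (J := J) (u - u0) (e • (v0 + g)),
      jsub (μ := μ) (J := J) u u0, jsmul (μ := μ) (J := J) e (v0 + g),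
      jadd (μ := μ) (J := J) v0 g, hv0]
      with x h1 h2 h3 h4 h5
    rw [h1, h2, h3, h4, h5]
  have hmain := compar hD (u - u0 - e • (v0 + g)) _ hκ (fun w hw => by
    have hw0 : 0 ≤ᵐ[μ] J w := by
      filter_upwards [hw] with x hx
      rw [hx]; exact le_max_right _ _
    have hPL : MemLp (fun x => (J v0 x) ^ (1 + (q - 2) / 2)) 2 μ := by
      refine memP (B := B) (by linarith) ?_ ?_
      · filter_upwards [hv0] with x hx
        rw [hx]; exact abs_nonneg _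
      · filter_upwards [hv0, hB] with x hx hx2
        rwa [hx]
    have hi1 := int_f hD u w
    have hi0 := int_f hD u0 w
    have hi2 := int_FJ hPL J w
    rw [inner_sub_left, inner_sub_left, inner_smul_left, inner_add_left, hu, hg, hu0]
    have h1 := hsup0 w hw0
    have h2 : ∫ x, |J u x| ^ (q - 2) * J u x * J w x ∂μ -
        ∫ x, |J u0 x| ^ (q - 2) * J u0 x * J w x ∂μ -
        e * ∫ x, (J v0 x) ^ (1 + (q - 2) / 2) * J w x ∂μ ≤
        (q - 1) * ((2 + C) * δ) ^ (q - 2) * ∫ x, (J w x) ^ 2 ∂μ := by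
      have hi10 : Integrable (fun x => |J u x| ^ (q - 2) * J u x * J w x -
        |J u0 x| ^ (q - 2) * J u0 x * J w x) μ := hi1.sub hi0
      rw [← integral_sub hi1 hi0, ← integral_const_mul, ← integral_const_mul,
        ← integral_sub hi10 (hi2.const_mul e)]
      refine integral_mono_ae ((hi1.sub hi0).sub (hi2.const_mul e))
        ((int_sq w).const_mul _) ?_
      filter_upwards [hw, hJz, hv0, hg0, hgC, hcl, hS] with x hx1 hx2 hx3 hx4 hx5 hx6 hx7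
      rw [hx1, hx2, hx3]
      rw [hx3] at hx5
      have := sc6 hq hδ hC he hsm hx4 hx5 hx6 hx7
      calc _ = (|J u x| ^ (q - 2) * J u x - |J u0 x| ^ (q - 2) * J u0 x -
            e * |J u0 x| ^ (1 + (q - 2) / 2)) *
            max (J u x - J u0 x - e * (|J u0 x| + J g x)) 0 := by ring
        _ ≤ _ := this
    have h3 : 0 ≤ e * ⟪v0, w⟫_ℝ := mul_nonneg he.le h1
    simp only [conj_trivial]
    linarith)
  filter_upwards [hmain, hJz, hgC, hv0] with x hx1 hx2 hx3 hx4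
  rw [hx2] at hx1
  rw [hx4] at hx3
  have : e * (|J u0 x| + J g x) ≤ e * (|J u0 x| + C * |J u0 x|) :=
    mul_le_mul_of_nonneg_left (by linarith) he.le
  calc J u x - J u0 x ≤ e * (|J u0 x| + C * |J u0 x|) := by linarith
    _ = _ := by ring

theorem small_delta {K s c : ℝ} (hs : 0 < s) (hc : 0 < c) :
    ∀ᶠ δ in 𝓝[>] (0 : ℝ), K * δ ^ s < c := by
  have h1 : ContinuousAt (fun δ : ℝ => K * δ ^ s) 0 :=
    (Real.continuousAt_rpow_const 0 s (Or.inr hs.le)).const_mul K |>.congr (by rfl)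
  have h2 : (fun δ : ℝ => K * δ ^ s) 0 < c := by
    simp only [Real.zero_rpow hs.ne']; simpa using hc
  exact (h1.eventually (Iio_mem_nhds h2)).filter_mono nhdsWithin_le_nhds

end NearAux

open NearAux in
theorem near (hD : Dir μ J q r) (u0 v0 : H)
    (hu0 : ∀ φ : H, ⟪u0, φ⟫_ℝ = ∫ x, |J u0 x| ^ (q - 2) * J u0 x * J φ x ∂μ)
    (hv0 : J v0 =ᵐ[μ] fun x => |J u0 x|)
    (hsup : ∀ φ : H, 0 ≤ᵐ[μ] J φ → ∫ x, (J v0 x) ^ (q - 1) * J φ x ∂μ ≤ ⟪v0, φ⟫_ℝ)
    (hdec : ∀ s : ℝ, 0 < s → ∃ C : ℝ, 0 ≤ C ∧ ∀ t : ℝ, 0 < t → t ≤ 1 →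
      μ.real {x | t < J v0 x} ≤ C * t ^ (-s))
    (u : ℕ → H)
    (hu : ∀ n, ∀ φ : H, ⟪u n, φ⟫_ℝ = ∫ x, |J (u n) x| ^ (q - 2) * J (u n) x * J φ x ∂μ)
    (hlim : Tendsto u atTop (𝓝 u0)) {ε : ℝ} (hε : 0 < ε) :
    ∀ᶠ n in atTop, ∀ᵐ x ∂μ, |J (u n) x - J u0 x| ≤ ε * |J u0 x| := by
  have hq := hD.two_lt
  obtain ⟨B, hB⟩ := sol_bdd hD u0 hu0
  have hv0n : 0 ≤ᵐ[μ] J v0 := by
    filter_upwards [hv0] with x hx
    rw [hx]; exact abs_nonneg _
  have hv0B : ∀ᵐ x ∂μ, J v0 x ≤ B := by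
    filter_upwards [hv0, hB] with x hx hx2
    rwa [hx]
  have hsup0 : ∀ φ : H, 0 ≤ᵐ[μ] J φ → 0 ≤ ⟪v0, φ⟫_ℝ := by
    intro φ hφ
    refine le_trans (integral_nonneg_of_ae ?_) (hsup φ hφ)
    filter_upwards [hφ, hv0n] with x hx hx2
    exact mul_nonneg (Real.rpow_nonneg hx2 _) hx
  obtain ⟨C, g, hC, hg, hg0, hgC⟩ := star hD hv0n hv0B hsup0 hdec
    (by linarith : 0 < (q - 2) / 2)
  obtain ⟨δ, hδa, hδb, hδc, hδd, hδ⟩ := (((small_delta (K := (2 + C) ^ (q - 1))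
    (s := (q - 2) / 2) (by linarith) one_pos).and
    ((small_delta (K := (q - 1) * 2 ^ (q - 2) * ‖J‖ ^ 2) (s := q - 2) (by linarith) one_pos).and
    ((small_delta (K := (q - 1) * (2 + C) ^ (q - 2) * (1 + C)) (s := (q - 2) / 2)
      (by linarith) one_pos).and
    ((small_delta (K := (q - 1) * (2 + C) ^ (q - 2) * ‖J‖ ^ 2) (s := q - 2)
      (by linarith) one_pos).and self_mem_nhdsWithin)))).exists)
  have hδ0 : 0 < δ := hδ
  have hκ1 : (q - 1) * (2 * δ) ^ (q - 2) * ‖J‖ ^ 2 < 1 := by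
    rw [Real.mul_rpow (by norm_num) hδ0.le]
    linarith
  have hκ2 : (q - 1) * ((2 + C) * δ) ^ (q - 2) * ‖J‖ ^ 2 < 1 := by
    rw [Real.mul_rpow (by linarith) hδ0.le]
    linarith
  have he : 0 < ε / (1 + C) := by positivity
  have hmin : 0 < min δ (ε / (1 + C) * δ) := lt_min hδ0 (by positivity)
  have hv0' : J v0 =ᵐ[μ] fun x => |J (-u0) x| := by
    filter_upwards [hv0, jneg (μ := μ) (J := J) u0] with x hx hx2
    rw [hx, hx2, abs_neg]
  have hB' : ∀ᵐ x ∂μ, |J (-u0) x| ≤ B := by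
    filter_upwards [hB, jneg (μ := μ) (J := J) u0] with x hx hx2
    rwa [hx2, abs_neg]
  filter_upwards [close hD u0 hu0 u hu hlim hmin] with n hn
  have hn1 : ∀ᵐ x ∂μ, |J (u n) x - J u0 x| ≤ δ := by
    filter_upwards [hn] with x hx using hx.trans (min_le_left _ _)
  have hn2 : ∀ᵐ x ∂μ, |J (u n) x - J u0 x| ≤ ε / (1 + C) * δ := by
    filter_upwards [hn] with x hx using hx.trans (min_le_right _ _)
  have flip : ∀ {D : ℝ}, (∀ᵐ x ∂μ, |J (u n) x - J u0 x| ≤ D) →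
      ∀ᵐ x ∂μ, |J (-u n) x - J (-u0) x| ≤ D := by
    intro D hD'
    filter_upwards [hD', jneg (μ := μ) (J := J) u0, jneg (μ := μ) (J := J) (u n)]
      with x h1 h2 h3
    rw [h2, h3, ← abs_neg]
    convert h1 using 2
    ring
  have hU1 := upper hD hC hδ0 (hu n) hv0 hB hsup0 hg hg0 hgC hδa.le hκ1 hn1
  have hU2 := upper hD hC hδ0 (sol_neg (u n) (hu n)) hv0' hB' hsup0 hg hg0 hgC hδa.le hκ1
    (flip hn1)
  have hS : ∀ᵐ x ∂μ, |J (u n) x| ≤ (2 + C) * |J u0 x| := by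
    filter_upwards [hU1, hU2, hgC, hv0, jneg (μ := μ) (J := J) u0,
      jneg (μ := μ) (J := J) (u n)] with x h1 h2 h3 h4 h5 h6
    rw [h5, h6, abs_neg] at h2
    rw [h4] at h3
    exact abs_le.2 ⟨by linarith, by linarith⟩
  have hS' : ∀ᵐ x ∂μ, |J (-u n) x| ≤ (2 + C) * |J (-u0) x| := by
    filter_upwards [hS, jneg (μ := μ) (J := J) u0, jneg (μ := μ) (J := J) (u n)]
      with x h1 h2 h3
    rwa [h2, h3, abs_neg, abs_neg]
  have hF1 := final hD hC hδ0 he hu0 (hu n) hv0 hB hsup0 hg hg0 hgC hδc.le hκ2 hn2 hS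
  have hF2 := final hD hC hδ0 he (sol_neg u0 hu0) (sol_neg (u n) (hu n)) hv0' hB' hsup0 hg hg0
    hgC hδc.le hκ2 (flip hn2) hS'
  have e1 : ε / (1 + C) * (1 + C) = ε := by
    have : (1 + C) ≠ 0 := by positivity
    field_simp
  rw [e1] at hF1 hF2
  filter_upwards [hF1, hF2, jneg (μ := μ) (J := J) u0, jneg (μ := μ) (J := J) (u n)]
    with x h1 h2 h3 h4
  rw [h3, h4, abs_neg] at h2
  exact abs_le.2 ⟨by linarith, h1⟩


end Pool.Agent.H456R3.Q.W3
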